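import Pool.Agent.H15.LVB.Pyf

/-!
# Counting the points at live times by the labels of the small windows
-/

set_option autoImplicit false

namespace Pool.LVB

open Finset Real MvPolynomial
open Pool.Agent.H49.Ent Pool.Agent.H32.Dense Pool.STK Pool.KA
open Pool.KM7 (Psh BL Lv)
open Pool.FTM (un un_isLaw un_psh un_pos CH_un_snd)
open Pool.LAT (Bd Sp)
open Pool.KNH (LA LB Ln GS ndc)
open Pool.KNB (nJ mo cmb ev)
open Pool.GC

variable {m E : ℕ}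

theorem time_mem {l k w u s j : ℕ} (hls : l + s = k) (hj : j < 2 ^ s) :
    (((u / 2 ^ l : ℕ) : ℝ) + ((u % 2 ^ l * 2 ^ s + j : ℕ) : ℝ) / 2 ^ k) / 2 ^ w ∈
      win (w + l) u := by
  have h1 : ((u / 2 ^ l : ℕ) : ℝ) * 2 ^ l + ((u % 2 ^ l : ℕ) : ℝ) = u := by
    have h2 : u / 2 ^ l * 2 ^ l + u % 2 ^ l = u := Nat.div_add_mod' u (2 ^ l)
    exact_mod_cast h2
  have h2 : (2 : ℝ) ^ k = 2 ^ l * 2 ^ s := by
    rw [← pow_add, hls]
  have hl : (0 : ℝ) < 2 ^ l := by positivity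
  have hs : (0 : ℝ) < 2 ^ s := by positivity
  have hw : (0 : ℝ) < 2 ^ w := by positivity
  have h3 : (((u / 2 ^ l : ℕ) : ℝ) + ((u % 2 ^ l * 2 ^ s + j : ℕ) : ℝ) / 2 ^ k) / 2 ^ w =
      ((u : ℝ) + (j : ℝ) / 2 ^ s) / 2 ^ (w + l) := by
    rw [h2, pow_add (2 : ℝ) w l]
    push_cast
    obtain ⟨A, hA⟩ : ∃ A, A = ((u / 2 ^ l : ℕ) : ℝ) := ⟨_, rfl⟩
    obtain ⟨B, hB⟩ : ∃ B, B = ((u % 2 ^ l : ℕ) : ℝ) := ⟨_, rfl⟩
    rw [← hA, ← hB] at h1 ⊢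
    rw [← h1]
    field_simp
    ring
  rw [h3]
  have h4 : (j : ℝ) / 2 ^ s ≤ 1 := by
    rw [div_le_one hs]
    exact_mod_cast hj.le
  have h5 : 0 ≤ (j : ℝ) / 2 ^ s := by positivity
  constructor
  · exact div_le_div_of_nonneg_right (by linarith) (by positivity)
  · exact div_le_div_of_nonneg_right (by linarith) (by positivity)

/-- **Counting the points at live times.** -/
theorem cnt_live (hC : CntW m E) (C₁ : ℝ) : ∃ C : ℝ, 0 ≤ C ∧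
    ∀ (Ω γ : Type) (_ : Fintype Ω) (p : Ω → ℝ), IsLaw p →
    ∀ (J k w l r : ℕ) (x : Ω → Ln m) (u w' t' : Ω → ℕ) (Bh B : Ω → Bd (nJ m E))
      (z sz : Ω → ℤ) (V : Ω → γ), l ≤ k →
    (∀ ω ω', 0 < p ω → 0 < p ω' → V ω = V ω' → u ω = u ω' ∧ w' ω = w' ω' ∧
      t' ω = t' ω' ∧ Bh ω = Bh ω' ∧ B ω = B ω' ∧ z ω = z ω' ∧ sz ω = sz ω') →
    (∀ ω, 0 < p ω → (∀ i, |(x ω).1 i| ≤ 2 ∧ |(x ω).2 i| ≤ 2) ∧ u ω < 2 ^ (w + l) ∧
      w + l ≤ w' ω ∧ t' ω / 2 ^ (w' ω - (w + l)) = u ω) →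
    (∀ ω, 0 < p ω → (2 : ℝ) ^ sz ω ≤ SJ (B ω) (w' ω) (t' ω) (x ω) ∧
      (2 : ℝ) ^ (z ω - r) ≤ SJ (Bh ω) w (u ω / 2 ^ l) (x ω) ∧
      SJ (Bh ω) w (u ω / 2 ^ l) (x ω) ≤ 2 ^ (z ω + r) ∧
      (2 : ℝ) ^ sz ω ≤ C₁ * 2 ^ k * 2 ^ (m * (w' ω - (w + l))) * SJ (Bh ω) w (u ω / 2 ^ l) (x ω)) →
    (∀ ω ω', 0 < p ω → 0 < p ω' → V ω = V ω' →
      (∀ s ∈ win (w + l) (u ω), ∀ a,
        |(Bh ω).fn a (phl E (x ω) s) - (Bh ω).fn a (phl E (x ω') s)| ≤ 1) ∧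
      (∀ s ∈ win (w' ω) (t' ω), ∀ a,
        |(B ω).fn a (phl E (x ω) s) - (B ω).fn a (phl E (x ω') s)| ≤ C₁)) →
    CH (un (2 ^ (k - l)) p) (fun e => pYf k w (Bh e.1) (x e.1) (u e.1 / 2 ^ l)
        (u e.1 % 2 ^ l * 2 ^ (k - l) + (e.2 : ℕ))) (fun e => V e.1) ≤
      Ex p (fun ω => pU J k w (Bh ω) (x ω) (u ω / 2 ^ l)) - l * Real.log 2 +
      Ex p (fun ω => ((m : ℝ) * J - sz ω + m * ((w' ω : ℝ) - (w + l : ℕ))) * Real.log 2) +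
      C * Real.log (2 + r) := by
  obtain ⟨C, hC0, h1⟩ := hC C₁
  refine ⟨C, hC0, fun Ω γ _ p hp J k w l r x u w' t' Bh B z sz V hlk hV hW hS hN => ?_⟩
  obtain ⟨s, hs⟩ : ∃ s, s = k - l := ⟨_, rfl⟩
  have hNs := Pool.FTM.two_pos s
  have hls := un_isLaw hNs hp
  have h2 := h1 (Ω × Fin (2 ^ s)) γ inferInstance (un (2 ^ s) p) hls J k w (w + l) r
    (fun e => x e.1) (fun e => u e.1 / 2 ^ l) (fun e => u e.1 % 2 ^ l * 2 ^ s + (e.2 : ℕ))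
    (fun e => u e.1) (fun e => w' e.1) (fun e => t' e.1) (fun e => Bh e.1) (fun e => B e.1)
    (fun e => z e.1) (fun e => sz e.1) (fun e => V e.1)
    (by
      intro e e' he he' hh
      obtain ⟨a1, a2, a3, a4, a5, a6, a7⟩ := hV e.1 e'.1 (un_pos he) (un_pos he') hh
      refine ⟨?_, a1, a2, a3, a4, a5, a6, a7⟩
      show u e.1 / 2 ^ l = u e'.1 / 2 ^ l
      rw [a1])
    (by
      intro e he
      obtain ⟨a1, a2, a3, a4⟩ := hW e.1 (un_pos he)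
      refine ⟨a1, ?_, ?_, a3, a4, a2, ?_⟩
      · have b1 : u e.1 % 2 ^ l + 1 ≤ 2 ^ l := Nat.mod_lt _ (by positivity)
        have b2 := e.2.isLt
        calc u e.1 % 2 ^ l * 2 ^ s + (e.2 : ℕ) < u e.1 % 2 ^ l * 2 ^ s + 2 ^ s := by omega
          _ = (u e.1 % 2 ^ l + 1) * 2 ^ s := by ring
          _ ≤ 2 ^ l * 2 ^ s := Nat.mul_le_mul_right _ b1
          _ = 2 ^ k := by
            rw [← pow_add]
            congr 1
            omega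
      · have b1 : u e.1 < 2 ^ l * 2 ^ w := by
          rw [← pow_add, Nat.add_comm l w]
          exact a2
        exact Nat.div_lt_of_lt_mul b1
      · show (((u e.1 / 2 ^ l : ℕ) : ℝ) + ((u e.1 % 2 ^ l * 2 ^ s + (e.2 : ℕ) : ℕ) : ℝ) / 2 ^ k) /
          2 ^ w ∈ win (w + l) (u e.1)
        exact time_mem (by omega) e.2.isLt)
    (fun e he => hS e.1 (un_pos he))
    (fun e e' he he' hh => hN e.1 e'.1 (un_pos he) (un_pos he') hh)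
  have h3 : CH (un (2 ^ s) p) (fun e => u e.1 % 2 ^ l * 2 ^ s + (e.2 : ℕ)) (fun e => V e.1) =
      s * Real.log 2 := by
    rw [CH_dig hp (fun ω => u ω % 2 ^ l) s V]
    have h4 : CH p (fun ω => u ω % 2 ^ l) V = 0 := by
      refine CH_eq_zero hp.nonneg ?_
      intro ω ω' hω hω' hh
      show u ω % 2 ^ l = u ω' % 2 ^ l
      rw [(hV ω ω' hω hω' hh).1]
    rw [h4, zero_add]
  have h4 : Ex (un (2 ^ s) p) (fun e => pU J k w (Bh e.1) (x e.1) (u e.1 / 2 ^ l) -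
      k * Real.log 2 + ((m : ℝ) * J - sz e.1 + m * ((w' e.1 : ℝ) - (w + l : ℕ))) * Real.log 2) =
      Ex p (fun ω => pU J k w (Bh ω) (x ω) (u ω / 2 ^ l)) - k * Real.log 2 +
      Ex p (fun ω => ((m : ℝ) * J - sz ω + m * ((w' ω : ℝ) - (w + l : ℕ))) * Real.log 2) := by
    have h5 : Ex (un (2 ^ s) p) (fun e => pU J k w (Bh e.1) (x e.1) (u e.1 / 2 ^ l) -
        k * Real.log 2 + ((m : ℝ) * J - sz e.1 + m * ((w' e.1 : ℝ) - (w + l : ℕ))) * Real.log 2) =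
        Ex p (fun ω => pU J k w (Bh ω) (x ω) (u ω / 2 ^ l) -
        k * Real.log 2 + ((m : ℝ) * J - sz ω + m * ((w' ω : ℝ) - (w + l : ℕ))) * Real.log 2) :=
      (un_psh hNs p).Ex_eq (fun ω => pU J k w (Bh ω) (x ω) (u ω / 2 ^ l) -
        k * Real.log 2 + ((m : ℝ) * J - sz ω + m * ((w' ω : ℝ) - (w + l : ℕ))) * Real.log 2)
    rw [h5, Ex_add, Ex_sub, Ex_const hp.sum_one]
  rw [h3, h4] at h2
  rw [← hs]
  have h5 : (l : ℝ) + s = k := by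
    have : l + s = k := by omega
    exact_mod_cast this
  have h6 : (k : ℝ) * Real.log 2 = l * Real.log 2 + s * Real.log 2 := by
    rw [← h5]
    ring
  linarith

end Pool.LVB
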