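import Pool.Agent.H15.KM7.Avg
import Pool.Agent.H85.TG.DSU

/-!
# Most of a family is dominated

If the relative entropy of the time with respect to a kernel is at most `e`, then, off an event of
small probability, the conditional law of the time is at most `exp ((e + 1) / δ)` times the kernel.
-/

set_option autoImplicit false

namespace Pool.LVB

open Finset Real
open Pool.Agent.H49.Ent Pool.Agent.H32.Dense Pool.STK Pool.KA
open Pool.KM7 (cond_isLaw)

variable {Ω : Type} [Fintype Ω] {p : Ω → ℝ}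

/-- The probability of an event. -/
noncomputable def pr (p : Ω → ℝ) (B : Ω → Prop) : ℝ := law p B True

theorem pr_eq (p : Ω → ℝ) (B : Ω → Prop) [DecidablePred B] :
    pr p B = ∑ ω, if B ω then p ω else 0 := by
  unfold pr law
  refine Finset.sum_congr rfl fun ω _ => ?_
  by_cases h : B ω
  · rw [if_pos (eq_true h), if_pos h]
  · rw [if_neg (fun h1 => h (of_eq_true h1)), if_neg h]

theorem pr_nonneg (hp : ∀ ω, 0 ≤ p ω) (B : Ω → Prop) : 0 ≤ pr p B := law_nonneg hp _ _

theorem pr_mono (hp : ∀ ω, 0 ≤ p ω) {A B : Ω → Prop} (h : ∀ ω, A ω → B ω) : pr p A ≤ pr p B := by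
  classical
  rw [pr_eq, pr_eq]
  refine Finset.sum_le_sum fun ω _ => ?_
  by_cases h1 : A ω
  · rw [if_pos h1, if_pos (h ω h1)]
  · rw [if_neg h1]
    split_ifs
    · exact hp ω
    · exact le_rfl

theorem pr_add (hp : IsLaw p) (A : Ω → Prop) : pr p A + pr p (fun ω => ¬ A ω) = 1 := by
  classical
  rw [pr_eq, pr_eq, ← Finset.sum_add_distrib, ← hp.sum_one]
  refine Finset.sum_congr rfl fun ω _ => ?_
  by_cases h1 : A ω
  · rw [if_pos h1, if_neg (not_not.mpr h1), add_zero]
  · rw [if_neg h1, if_pos h1, zero_add]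

theorem pr_or (hp : ∀ ω, 0 ≤ p ω) (A B : Ω → Prop) :
    pr p (fun ω => A ω ∨ B ω) ≤ pr p A + pr p B := by
  classical
  rw [pr_eq, pr_eq, pr_eq, ← Finset.sum_add_distrib]
  refine Finset.sum_le_sum fun ω _ => ?_
  have h0 := hp ω
  by_cases h1 : A ω <;> by_cases h2 : B ω <;> simp [h1, h2, h0]

/-- Markov's inequality. -/
theorem markov (hp : ∀ ω, 0 ≤ p ω) {f : Ω → ℝ} (hf : ∀ ω, 0 < p ω → 0 ≤ f ω) {c : ℝ} :
    c * pr p (fun ω => c < f ω) ≤ Ex p f := by
  classical
  rw [pr_eq, Finset.mul_sum]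
  unfold Ex
  refine Finset.sum_le_sum fun ω _ => ?_
  rcases (hp ω).eq_or_lt with h0 | h0
  · rw [← h0]
    simp
  · split_ifs with h
    · rw [mul_comm]
      exact mul_le_mul_of_nonneg_left h.le h0.le
    · rw [mul_zero]
      exact mul_nonneg h0.le (hf ω h0)

/-- The mean of the quotient of the kernel by the conditional law. -/
theorem ex_quot (hp : IsLaw p) {V : Type} (T : Ω → ℕ) (W : Ω → V) (μ : Ω → ℕ → ℝ) {n : ℕ}
    (hT : ∀ ω, T ω < n) (hμ0 : ∀ ω t, 0 ≤ μ ω t) (hμs : ∀ ω, ∑ t ∈ range n, μ ω t ≤ 1)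
    (hdet : Det p W μ) : Ex p (fun ω => μ ω (T ω) / cpr p T W ω) ≤ 1 := by
  classical
  have h0 := hp.nonneg
  -- group by the values of the base
  have h1 : ∀ ω, 0 < p ω → ∑ ω', (if W ω' = W ω then p ω' * (μ ω' (T ω') / cpr p T W ω') else 0) ≤
      law p W (W ω) := by
    intro ω hω
    have hW := law_pos h0 W hω
    have h2 : ∀ ω', (if W ω' = W ω then p ω' * (μ ω' (T ω') / cpr p T W ω') else 0) =
        law p W (W ω) * ∑ t ∈ range n, (if T ω' = t ∧ W ω' = W ω then
          p ω' * μ ω t / law p (fun w => (T w, W w)) (t, W ω) else 0) := by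
      intro ω'
      by_cases h : W ω' = W ω
      · rcases (h0 ω').eq_or_lt with h3 | h3
        · rw [← h3]
          simp
        · have h4 : μ ω' = μ ω := hdet ω' ω h3 hω h
          rw [if_pos h, Finset.sum_eq_single_of_mem (T ω') (Finset.mem_range.mpr (hT ω'))]
          · rw [if_pos ⟨rfl, h⟩]
            unfold cpr
            rw [h, h4]
            have h5 : 0 < law p (fun w => (T w, W w)) (T ω', W ω) := by
              rw [← h]
              exact law_pos h0 (fun w => (T w, W w)) h3
            field_simp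
          · intro t _ ht
            rw [if_neg (fun h6 => ht h6.1.symm)]
      · rw [if_neg h]
        have : ∀ t ∈ range n, (if T ω' = t ∧ W ω' = W ω then
          p ω' * μ ω t / law p (fun w => (T w, W w)) (t, W ω) else 0) = 0 := fun t _ =>
          if_neg (fun h6 => h h6.2)
        rw [Finset.sum_eq_zero this, mul_zero]
    rw [Finset.sum_congr rfl fun ω' _ => h2 ω', ← Finset.mul_sum, Finset.sum_comm]
    refine mul_le_of_le_one_right hW.le ?_
    refine le_trans (Finset.sum_le_sum fun t _ => ?_) (hμs ω)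
    have h3 : ∑ ω', (if T ω' = t ∧ W ω' = W ω then
        p ω' * μ ω t / law p (fun w => (T w, W w)) (t, W ω) else 0) =
        law p (fun w => (T w, W w)) (t, W ω) * (μ ω t / law p (fun w => (T w, W w)) (t, W ω)) := by
      obtain ⟨q, hq⟩ : ∃ q, q = law p (fun w => (T w, W w)) (t, W ω) := ⟨_, rfl⟩
      rw [← hq]
      have hq2 : q * (μ ω t / q) = law p (fun w => (T w, W w)) (t, W ω) * (μ ω t / q) := by
        rw [← hq]
      rw [hq2]
      unfold law
      rw [Finset.sum_mul]
      refine Finset.sum_congr rfl fun ω' _ => ?_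
      by_cases h : T ω' = t ∧ W ω' = W ω
      · rw [if_pos h, if_pos (Prod.ext h.1 h.2)]
        ring
      · rw [if_neg h, if_neg (fun h6 => h ⟨(Prod.ext_iff.mp h6).1, (Prod.ext_iff.mp h6).2⟩),
          zero_mul]
    rw [h3]
    by_cases h4 : law p (fun w => (T w, W w)) (t, W ω) = 0
    · rw [h4, zero_mul]
      exact hμ0 ω t
    · rw [mul_div_cancel₀ _ h4]
  -- the sum
  have h2 : Ex p (fun ω => μ ω (T ω) / cpr p T W ω) =
      ∑ ω, p ω * ((∑ ω', (if W ω' = W ω then p ω' * (μ ω' (T ω') / cpr p T W ω') else 0)) /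
        law p W (W ω)) := by
    unfold Ex
    have h3 : ∀ ω, p ω * ((∑ ω', (if W ω' = W ω then p ω' * (μ ω' (T ω') / cpr p T W ω') else 0)) /
        law p W (W ω)) = ∑ ω', (if W ω' = W ω then
          p ω / law p W (W ω) * (p ω' * (μ ω' (T ω') / cpr p T W ω')) else 0) := by
      intro ω
      rw [Finset.sum_div, Finset.mul_sum]
      refine Finset.sum_congr rfl fun ω' _ => ?_
      split_ifs
      · ring
      · simp
    rw [Finset.sum_congr rfl fun ω _ => h3 ω, Finset.sum_comm]
    refine Finset.sum_congr rfl fun ω' _ => ?_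
    rcases (h0 ω').eq_or_lt with h4 | h4
    · rw [← h4]
      simp
    · have h5 := law_pos h0 W h4
      have h6 : ∑ ω, (if W ω' = W ω then
          p ω / law p W (W ω) * (p ω' * (μ ω' (T ω') / cpr p T W ω')) else 0) =
          (∑ ω, if W ω = W ω' then p ω else 0) / law p W (W ω') *
            (p ω' * (μ ω' (T ω') / cpr p T W ω')) := by
        rw [Finset.sum_div, Finset.sum_mul]
        refine Finset.sum_congr rfl fun ω _ => ?_
        by_cases h : W ω' = W ω
        · rw [if_pos h, if_pos h.symm, h]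
        · rw [if_neg h, if_neg (fun h7 => h h7.symm)]
          simp
      rw [h6]
      have h7 : (∑ ω, if W ω = W ω' then p ω else 0) = law p W (W ω') := rfl
      rw [h7, div_self h5.ne', one_mul]
  rw [h2, ← hp.sum_one]
  refine Finset.sum_le_sum fun ω _ => ?_
  rcases (h0 ω).eq_or_lt with h4 | h4
  · rw [← h4]
    simp
  · refine mul_le_of_le_one_right h4.le ?_
    rw [div_le_one (law_pos h0 W h4)]
    exact h1 ω h4

/-- **Most of a family is dominated.** -/
theorem dex (hp : IsLaw p) {V : Type} (T : Ω → ℕ) (W : Ω → V) (μ : Ω → ℕ → ℝ) {n : ℕ}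
    (hT : ∀ ω, T ω < n) (hμ0 : ∀ ω t, 0 ≤ μ ω t) (hμs : ∀ ω, ∑ t ∈ range n, μ ω t ≤ 1)
    (hμp : ∀ ω, 0 < p ω → 0 < μ ω (T ω)) (hdet : Det p W μ) {e δ : ℝ} (he : 0 ≤ e) (hδ : 0 < δ)
    (hkl : Ex p (fun ω => -Real.log (μ ω (T ω))) - CH p T W ≤ e) :
    ∃ A : Ω → Prop, 1 - 3 * δ ≤ pr p A ∧ ∀ ω, 0 < p ω → A ω →
      cpr (cond p A True) T W ω ≤ Real.exp ((e + 1) / δ + Real.log 2) * μ ω (T ω) := by
  classical
  have h0 := hp.nonneg
  have hcp : ∀ ω, 0 < p ω → 0 < cpr p T W ω := fun ω hω =>
    div_pos (law_pos h0 (fun w => (T w, W w)) hω) (law_pos h0 W hω)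
  obtain ⟨g, hg⟩ : ∃ g : Ω → ℝ, g = fun ω => Real.log (cpr p T W ω) - Real.log (μ ω (T ω)) :=
    ⟨_, rfl⟩
  have hEg : Ex p g ≤ e := by
    have h1 : Ex p g = Ex p (fun ω => -Real.log (μ ω (T ω))) - CH p T W := by
      rw [CH_eq_neg_sum h0 T W, hg]
      unfold Ex
      rw [← Finset.sum_sub_distrib]
      refine Finset.sum_congr rfl fun ω _ => ?_
      show p ω * (Real.log (law p (fun w => (T w, W w)) (T ω, W ω) / law p W (W ω)) -
        Real.log (μ ω (T ω))) = _
      ring
    rw [h1]
    exact hkl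
  -- the positive part
  have hpos : Ex p (fun ω => g ω + μ ω (T ω) / cpr p T W ω) ≤ e + 1 := by
    have h1 : Ex p (fun ω => g ω + μ ω (T ω) / cpr p T W ω) =
        Ex p g + Ex p (fun ω => μ ω (T ω) / cpr p T W ω) := by
      unfold Ex
      simp only [mul_add, Finset.sum_add_distrib]
    rw [h1]
    exact add_le_add hEg (ex_quot hp T W μ hT hμ0 hμs hdet)
  have hge : ∀ ω, 0 < p ω → 0 ≤ g ω + μ ω (T ω) / cpr p T W ω := by
    intro ω hω
    have h1 := hcp ω hω
    have h2 := hμp ω hω
    have h3 := Real.log_le_sub_one_of_pos (div_pos h2 h1)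
    rw [Real.log_div h2.ne' h1.ne'] at h3
    rw [hg]
    show 0 ≤ Real.log (cpr p T W ω) - Real.log (μ ω (T ω)) + _
    linarith
  obtain ⟨c, hc⟩ : ∃ c, c = (e + 1) / δ := ⟨_, rfl⟩
  have hc0 : 0 < c := by
    rw [hc]
    positivity
  obtain ⟨B, hB⟩ : ∃ B : Ω → Prop, B = fun ω => c < g ω + μ ω (T ω) / cpr p T W ω := ⟨_, rfl⟩
  have hPB : pr p B ≤ δ := by
    have h1 := markov h0 hge (c := c)
    rw [← hB] at h1
    have h2 : c * pr p B ≤ e + 1 := h1.trans hpos
    have h3 : c * δ = e + 1 := by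
      rw [hc]
      field_simp
    have h4 : c * pr p B ≤ c * δ := by linarith
    exact le_of_mul_le_mul_left h4 hc0
  obtain ⟨A₂, hA₂⟩ : ∃ A₂ : Ω → Prop, A₂ = fun ω => law p W (W ω) <
    2 * ∑ ω', (if W ω' = W ω ∧ B ω' then p ω' else 0) := ⟨_, rfl⟩
  have hPA₂ : pr p A₂ ≤ 2 * pr p B := by
    rw [pr_eq, pr_eq]
    have h1 : ∀ ω, (if A₂ ω then p ω else 0) ≤
        p ω / law p W (W ω) * (2 * ∑ ω', (if W ω' = W ω ∧ B ω' then p ω' else 0)) := by
      intro ω
      rcases (h0 ω).eq_or_lt with h2 | h2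
      · rw [← h2]
        simp
      · have h3 := law_pos h0 W h2
        split_ifs with h4
        · rw [hA₂] at h4
          have h5 : (law p W (W ω)) / law p W (W ω) ≤
              (2 * ∑ ω', (if W ω' = W ω ∧ B ω' then p ω' else 0)) / law p W (W ω) :=
            div_le_div_of_nonneg_right (le_of_lt h4) h3.le
          rw [div_self h3.ne'] at h5
          have h6 := mul_le_mul_of_nonneg_left h5 h2.le
          rw [mul_one] at h6
          refine h6.trans (le_of_eq ?_)
          ring
        · have h5 : 0 ≤ ∑ ω', (if W ω' = W ω ∧ B ω' then p ω' else 0) :=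
            Finset.sum_nonneg fun ω' _ => by
              split_ifs
              · exact h0 ω'
              · exact le_rfl
          positivity
    refine (Finset.sum_le_sum fun ω _ => h1 ω).trans ?_
    have h2 : ∀ ω, p ω / law p W (W ω) * (2 * ∑ ω', (if W ω' = W ω ∧ B ω' then p ω' else 0)) =
        ∑ ω', (if W ω' = W ω ∧ B ω' then 2 * (p ω / law p W (W ω) * p ω') else 0) := by
      intro ω
      rw [← mul_assoc, Finset.mul_sum]
      refine Finset.sum_congr rfl fun ω' _ => ?_
      split_ifs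
      · ring
      · simp
    rw [Finset.sum_congr rfl fun ω _ => h2 ω, Finset.sum_comm, Finset.mul_sum]
    refine Finset.sum_le_sum fun ω' _ => ?_
    by_cases h3 : B ω'
    · rw [if_pos h3]
      rcases (h0 ω').eq_or_lt with h4 | h4
      · rw [← h4]
        simp
      · have h5 := law_pos h0 W h4
        have h6 : ∑ ω, (if W ω' = W ω ∧ B ω' then 2 * (p ω / law p W (W ω) * p ω') else 0) =
            2 * ((∑ ω, if W ω = W ω' then p ω else 0) / law p W (W ω') * p ω') := by
          rw [Finset.sum_div, Finset.sum_mul, Finset.mul_sum]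
          refine Finset.sum_congr rfl fun ω _ => ?_
          by_cases h : W ω' = W ω
          · rw [if_pos ⟨h, h3⟩, if_pos h.symm, h]
          · rw [if_neg (fun h7 => h h7.1), if_neg (fun h7 => h h7.symm)]
            simp
        rw [h6]
        have h7 : (∑ ω, if W ω = W ω' then p ω else 0) = law p W (W ω') := rfl
        rw [h7, div_self h5.ne', one_mul]
    · rw [if_neg h3]
      refine le_of_eq ?_
      rw [mul_zero]
      exact Finset.sum_eq_zero fun ω _ => if_neg (fun h7 => h3 h7.2)
  obtain ⟨A, hA⟩ : ∃ A : Ω → Prop, A = fun ω => ¬ (B ω ∨ A₂ ω) := ⟨_, rfl⟩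
  refine ⟨A, ?_, ?_⟩
  · have h1 := pr_or h0 B A₂
    have h2 := pr_add hp (fun ω => B ω ∨ A₂ ω)
    have h3 : pr p (fun ω => ¬ (B ω ∨ A₂ ω)) = pr p A := by rw [hA]
    rw [h3] at h2
    linarith
  · intro ω hω hAω
    have hAω' := hAω
    rw [hA] at hAω'
    push Not at hAω'
    obtain ⟨hnB, hnA⟩ := hAω'
    have hW := law_pos h0 W hω
    have hTW := law_pos h0 (fun w => (T w, W w)) hω
    have hPA : 0 < law p A True := by
      have h1 : pr p A = ∑ ω', if A ω' then p ω' else 0 := pr_eq p A
      have h2 : (if A ω then p ω else 0) ≤ ∑ ω', if A ω' then p ω' else 0 :=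
        Finset.single_le_sum (f := fun ω' => if A ω' then p ω' else 0)
          (fun ω' _ => by
            show 0 ≤ if A ω' then p ω' else 0
            split_ifs
            · exact h0 ω'
            · exact le_rfl) (Finset.mem_univ ω)
      rw [if_pos hAω, ← h1] at h2
      exact lt_of_lt_of_le hω h2
    -- the base
    have h1 : law p W (W ω) ≤ 2 * ∑ ω', (if W ω' = W ω ∧ A ω' then p ω' else 0) := by
      have h2 : law p W (W ω) = ∑ ω', (if W ω' = W ω ∧ B ω' then p ω' else 0) +
          ∑ ω', (if W ω' = W ω ∧ ¬ B ω' then p ω' else 0) := by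
        unfold law
        rw [← Finset.sum_add_distrib]
        refine Finset.sum_congr rfl fun ω' _ => ?_
        by_cases h3 : W ω' = W ω <;> by_cases h4 : B ω' <;> simp [h3, h4]
      have h3 : ∑ ω', (if W ω' = W ω ∧ ¬ B ω' then p ω' else 0) =
          ∑ ω', (if W ω' = W ω ∧ A ω' then p ω' else 0) := by
        refine Finset.sum_congr rfl fun ω' _ => ?_
        by_cases h4 : W ω' = W ω
        · have h5 : ¬ A₂ ω' := by
            rw [hA₂] at hnA ⊢
            show ¬ (law p W (W ω') < 2 * ∑ ω'', (if W ω'' = W ω' ∧ B ω'' then p ω'' else 0))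
            rw [h4]
            exact hnA
          have h6 : A ω' ↔ ¬ B ω' := by
            rw [hA]
            show ¬ (B ω' ∨ A₂ ω') ↔ ¬ B ω'
            tauto
          by_cases h7 : B ω'
          · rw [if_neg (fun h8 => h8.2 h7), if_neg (fun h8 => (h6.mp h8.2) h7)]
          · rw [if_pos ⟨h4, h7⟩, if_pos ⟨h4, h6.mpr h7⟩]
        · rw [if_neg (fun h8 => h4 h8.1), if_neg (fun h8 => h4 h8.1)]
      have h4 : 2 * ∑ ω', (if W ω' = W ω ∧ B ω' then p ω' else 0) ≤ law p W (W ω) := by
        rw [hA₂] at hnA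
        exact not_lt.mp hnA
      rw [← h3]
      linarith
    have h2 : law (cond p A True) W (W ω) =
        (∑ ω', (if W ω' = W ω ∧ A ω' then p ω' else 0)) / law p A True := by
      rw [Finset.sum_div]
      unfold law
      refine Finset.sum_congr rfl fun ω' _ => ?_
      unfold Pool.Agent.H49.Ent.cond
      by_cases h3 : W ω' = W ω <;> by_cases h4 : A ω' <;> simp [h3, h4, law]
    have h3 : law (cond p A True) (fun w => (T w, W w)) (T ω, W ω) ≤
        law p (fun w => (T w, W w)) (T ω, W ω) / law p A True := by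
      conv_rhs => rw [law, Finset.sum_div]
      unfold law
      refine Finset.sum_le_sum fun ω' _ => ?_
      by_cases h4 : (T ω', W ω') = (T ω, W ω)
      · rw [if_pos h4, if_pos h4]
        unfold Pool.Agent.H49.Ent.cond
        split_ifs
        · exact le_rfl
        · exact div_nonneg (h0 ω') hPA.le
      · rw [if_neg h4, if_neg h4, zero_div]
    have h4 : cpr (cond p A True) T W ω ≤ 2 * cpr p T W ω := by
      unfold cpr
      rw [h2]
      have h5 : 0 < ∑ ω', (if W ω' = W ω ∧ A ω' then p ω' else 0) := by linarith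
      rw [div_le_iff₀ (div_pos h5 hPA)]
      refine h3.trans ?_
      have h6 : 2 * (law p (fun w => (T w, W w)) (T ω, W ω) / law p W (W ω)) *
          ((∑ ω', (if W ω' = W ω ∧ A ω' then p ω' else 0)) / law p A True) =
          law p (fun w => (T w, W w)) (T ω, W ω) *
          ((2 * ∑ ω', (if W ω' = W ω ∧ A ω' then p ω' else 0)) / law p W (W ω)) /
            law p A True := by
        ring
      rw [h6]
      refine div_le_div_of_nonneg_right ?_ hPA.le
      refine le_mul_of_one_le_right hTW.le ?_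
      rw [one_le_div hW]
      exact h1
    -- the kernel
    have h5 : cpr p T W ω ≤ Real.exp c * μ ω (T ω) := by
      have h6 : g ω ≤ c := by
        have h7 : g ω + μ ω (T ω) / cpr p T W ω ≤ c := by
          rw [hB] at hnB
          exact not_lt.mp hnB
        have h8 : 0 < μ ω (T ω) / cpr p T W ω := div_pos (hμp ω hω) (hcp ω hω)
        linarith
      have h7 : Real.log (cpr p T W ω) ≤ c + Real.log (μ ω (T ω)) := by
        rw [hg] at h6
        have h8 : Real.log (cpr p T W ω) - Real.log (μ ω (T ω)) ≤ c := h6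
        linarith
      rw [← Real.exp_log (hcp ω hω)]
      refine (Real.exp_le_exp.mpr h7).trans (le_of_eq ?_)
      rw [Real.exp_add, Real.exp_log (hμp ω hω)]
    rw [Real.exp_add, Real.exp_log (by norm_num : (0 : ℝ) < 2), ← hc]
    calc cpr (cond p A True) T W ω ≤ 2 * cpr p T W ω := h4
      _ ≤ 2 * (Real.exp c * μ ω (T ω)) := by linarith
      _ = _ := by ring

end Pool.LVB
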