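import Pool.Agent.H15.LVB.Lbx
import Pool.Agent.H16.GEO.Siz
import Pool.Agent.H53.KNW.EndC

/-!
# The box with live digits, for the class of the bodies
-/

set_option autoImplicit false

namespace Pool.LVB

open Finset Real
open Pool.LAT (Bd Sp)
open Pool.KNH (LA LB ndc)
open Pool.KNB (nJ)
open Pool.GC

variable {m E : ℕ}

/-- The facts about curves and sizes hold. -/
theorem fct (h0 : 0 < nJ m E) : Fct m E where
  pol := fun f x => Pool.GC.exists_poly f x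
  nod := ⟨cPl (dD m E), fun _ _ _ _ hp h _ hs => Pool.GC.poly_win hp h hs⟩
  mono := fun B _ _ _ _ x hw h => Pool.GC.SJ_mono' B x hw h
  win := ⟨cSJ m E, fun B _ _ _ _ x h => Pool.GC.SJ_grow B x h⟩
  bod := fun _ _ _ w t x h hκ => Pool.GC.SJ_mul_le h hκ.le w t x
  att := fun B w t x => Pool.GC.exists_SS B w t x h0
  scl := fun a B w t x => by
    have h1 := Pool.GC.SJ_scl (a : ℤ) B w t x
    have h2 : (2 : ℝ) ^ (m * a) * (2 : ℝ) ^ (-((m : ℤ) * (a : ℤ))) = 1 := by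
      rw [← zpow_natCast, ← zpow_add₀ (by norm_num)]
      push_cast
      rw [add_neg_cancel, zpow_zero]
    rw [h1, ← mul_assoc, h2, one_mul]

/-- **(LB.Box)** The box with live digits, for the class of the bodies. -/
theorem box_cls (hm : 1 ≤ m) (hE : 1 ≤ E) (hT : TdBoxStmt m E) (hC : CntW m E)
    (hV : ∀ M, Pool.KNB.FillStmt M) : ∃ C₀ : ℕ, ∀ (P : Par m E) (κ : ℝ) (g : ℕ), 0 ≤ κ →
    32 * ((m + 1) * (C₀ + 1)) * ndc m κ ≤ P.cd → C₀ ≤ P.top →
    P.om * (Real.log 2 * ((∑ i, P.M i) * (g + C₀ + nJ m E))) ≤ P.cH →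
    ∀ ε : ℝ, 0 < ε → ∃ G r₁ : ℕ, P.cls.Box κ ε g G r₁ := by
  obtain ⟨C₀, h⟩ := live_box (fct (Pool.KNW.nJ_pos hm hE)) hT hC
    (Pool.SH.vvs_curves (m + 1) (dD m E) (hV _))
  refine ⟨C₀, fun P κ g hκ hcd htop hcH ε hε => h P κ g ⟨hm, hκ, hcd⟩ htop ?_ ε hε⟩
  intro A B hAB
  have h1 : ∑ i, P.M i * (A.r i : ℝ) ≤
      ∑ i, P.M i * (B.r i : ℝ) + (∑ i, P.M i) * (g + C₀ + nJ m E) := by
    rw [Finset.sum_mul, ← Finset.sum_add_distrib]
    refine Finset.sum_le_sum fun i _ => ?_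
    rw [← mul_add]
    refine mul_le_mul_of_nonneg_left ?_ (P.M_nonneg i)
    have h2 := s_le_r hAB i
    have h3 : (A.r i : ℝ) ≤ ((B.r i + (g + C₀ : ℕ) + nJ m E : ℤ) : ℝ) := by exact_mod_cast h2
    push_cast at h3
    linarith
  have hl2 : 0 < Real.log 2 := Real.log_pos (by norm_num)
  have h2 := mul_le_mul_of_nonneg_left (mul_le_mul_of_nonneg_left h1 hl2.le) P.om_nonneg
  unfold Par.vol
  have h3 : P.om * (Real.log 2 * (∑ i, P.M i * (B.r i : ℝ) +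
      (∑ i, P.M i) * (g + C₀ + nJ m E))) = P.om * (Real.log 2 * ∑ i, P.M i * (B.r i : ℝ)) +
      P.om * (Real.log 2 * ((∑ i, P.M i) * (g + C₀ + nJ m E))) := by ring
  linarith

end Pool.LVB
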