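import Pool.Agent.H15.LVB.Tgc
import Pool.Agent.H40.KMF.Fill
import Pool.Agent.H58.KMF.Pnu

/-!
# Filling one block of live digits

The lines `x` with side information `Z`; the block `q` of `l` digits has a kernel `y` with live
strings; the point is the point of a curve with coefficients `a`, at resolution `2 ^ (-R)`, all curves
with the same side information being at distance at most `1`.
-/

set_option autoImplicit false

namespace Pool.LVB

open Finset Real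
open Pool.Agent.H49.Ent Pool.Agent.H32.Dense Pool.STK Pool.KA
open Pool.KM7 (Psh BL Lv fk fk_nonneg sum_fk nbad_fk)
open Pool.FTM (un un_isLaw un_psh un_pos CH_un_snd)
open Pool.SH (CFam Cf cpos VVSC)

/-! ### Coefficients -/

theorem coef_le (d : ℕ) : ∃ C : ℝ, 1 ≤ C ∧ ∀ c : Fin (d + 1) → ℝ,
    (∀ t : ℝ, 0 ≤ t → t ≤ 1 → |∑ j : Fin (d + 1), t ^ (j : ℕ) * c j| ≤ 1) → ∀ j, |c j| ≤ C := by
  obtain ⟨v, hv⟩ : ∃ v : Fin (d + 1) → ℝ,
      v = fun i : Fin (d + 1) => ((i : ℕ) : ℝ) / ((d : ℝ) + 1) := ⟨_, rfl⟩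
  have hvi : Function.Injective v := by
    intro i j h
    rw [hv] at h
    have h1 : ((i : ℕ) : ℝ) / ((d : ℝ) + 1) = ((j : ℕ) : ℝ) / ((d : ℝ) + 1) := h
    have h2 : ((d : ℝ) + 1) ≠ 0 := by positivity
    rw [div_left_inj' h2] at h1
    exact Fin.ext (by exact_mod_cast h1)
  have hdet : IsUnit (Matrix.vandermonde v).det := by
    rw [isUnit_iff_ne_zero]
    exact Matrix.det_vandermonde_ne_zero_iff.mpr hvi
  obtain ⟨V, hV⟩ : ∃ V, V = (Matrix.vandermonde v)⁻¹ := ⟨_, rfl⟩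
  refine ⟨1 + ∑ j, ∑ i, |V j i|, ?_, fun c hc j => ?_⟩
  · have : 0 ≤ ∑ j, ∑ i, |V j i| :=
      Finset.sum_nonneg fun _ _ => Finset.sum_nonneg fun _ _ => abs_nonneg _
    linarith
  · have h1 : V.mulVec ((Matrix.vandermonde v).mulVec c) = c := by
      rw [hV, Matrix.mulVec_mulVec, Matrix.nonsing_inv_mul _ hdet, Matrix.one_mulVec]
    have h2 : ∀ i, |(Matrix.vandermonde v).mulVec c i| ≤ 1 := by
      intro i
      have h3 : (Matrix.vandermonde v).mulVec c i = ∑ j : Fin (d + 1), v i ^ (j : ℕ) * c j := by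
        unfold Matrix.mulVec dotProduct
        refine Finset.sum_congr rfl fun j _ => ?_
        show Matrix.vandermonde v i j * c j = v i ^ (j : ℕ) * c j
        rw [Matrix.vandermonde_apply]
      rw [h3]
      refine hc (v i) ?_ ?_
      · rw [hv]
        positivity
      · rw [hv]
        show ((i : ℕ) : ℝ) / ((d : ℝ) + 1) ≤ 1
        rw [div_le_one (by positivity)]
        have h4 : (i : ℕ) ≤ d := Nat.lt_succ_iff.mp i.isLt
        have h5 : ((i : ℕ) : ℝ) ≤ d := by exact_mod_cast h4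
        linarith
    have h3 : |c j| ≤ ∑ i, |V j i| := by
      conv_lhs => rw [← h1]
      unfold Matrix.mulVec dotProduct
      refine (Finset.abs_sum_le_sum_abs _ _).trans (Finset.sum_le_sum fun i _ => ?_)
      rw [abs_mul]
      exact mul_le_of_le_one_right (abs_nonneg _) (h2 i)
    have h4 : ∑ i, |V j i| ≤ ∑ j, ∑ i, |V j i| :=
      Finset.single_le_sum (f := fun j => ∑ i, |V j i|)
        (fun _ _ => Finset.sum_nonneg fun _ _ => abs_nonneg _) (Finset.mem_univ j)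
    linarith

/-! ### A tag for the lines -/

theorem tag {Ω Λ : Type} [Fintype Ω] (x : Ω → Λ) : ∃ (n : ℕ) (i : Ω → ℕ), 0 < n ∧
    (∀ ω, i ω < n) ∧ ∀ ω ω', x ω = x ω' ↔ i ω = i ω' := by
  classical
  rcases isEmpty_or_nonempty Ω with h | h
  · exact ⟨1, fun _ => 0, one_pos, fun _ => one_pos, fun ω => (h.false ω).elim⟩
  · have hr : ∀ ω, x (Function.invFun x (x ω)) = x ω := fun ω =>
      Function.invFun_eq (f := x) ⟨ω, rfl⟩
    refine ⟨Fintype.card Ω, fun ω => (Fintype.equivFin Ω (Function.invFun x (x ω)) : ℕ),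
      Fintype.card_pos, fun ω => (Fintype.equivFin Ω _).isLt, fun ω ω' => ⟨fun h => ?_, fun h => ?_⟩⟩
    · show ((Fintype.equivFin Ω (Function.invFun x (x ω))) : ℕ) = _
      rw [h]
    · have h1 := (Fintype.equivFin Ω).injective (Fin.ext h)
      rw [← hr ω, ← hr ω', h1]

/-! ### Uniform digits -/

section dig

variable {Ω : Type} [Fintype Ω] {p : Ω → ℝ} {V : Type*}

theorem CH_dig (hp : IsLaw p) (q : Ω → ℕ) (s : ℕ) (W : Ω → V) :
    CH (un (2 ^ s) p) (fun w => q w.1 * 2 ^ s + (w.2 : ℕ)) (fun w => W w.1) =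
      CH p q W + s * Real.log 2 := by
  have hN := Pool.FTM.two_pos s
  have h0 := (un_isLaw hN hp).nonneg
  have h1 : CH (un (2 ^ s) p) (fun w => q w.1 * 2 ^ s + (w.2 : ℕ)) (fun w => W w.1) =
      CH (un (2 ^ s) p) (fun w => (w.2, q w.1)) (fun w => W w.1) := by
    refine CH_congr h0 ?_ ?_ (fun _ _ _ _ h => h) (fun _ _ _ _ h => h)
    · intro a b _ _ h
      have h2 : q a.1 * 2 ^ s + (a.2 : ℕ) = q b.1 * 2 ^ s + (b.2 : ℕ) := (Prod.ext_iff.mp h).1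
      have h3 : (q a.1 * 2 ^ s + (a.2 : ℕ)) / 2 ^ s = (q b.1 * 2 ^ s + (b.2 : ℕ)) / 2 ^ s := by
        rw [h2]
      rw [mul_comm (q a.1), mul_comm (q b.1), Nat.mul_add_div hN, Nat.mul_add_div hN,
        Nat.div_eq_of_lt a.2.isLt, Nat.div_eq_of_lt b.2.isLt, add_zero, add_zero] at h3
      have h4 : (a.2 : ℕ) = b.2 := by
        rw [h3] at h2
        exact Nat.add_left_cancel h2
      exact Prod.ext (Fin.ext h4) h3
    · intro a b _ _ h
      have h2 := (Prod.ext_iff.mp h).1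
      show q a.1 * 2 ^ s + (a.2 : ℕ) = q b.1 * 2 ^ s + (b.2 : ℕ)
      have h3 : q a.1 = q b.1 := (Prod.ext_iff.mp h2).2
      have h4 : a.2 = b.2 := (Prod.ext_iff.mp h2).1
      rw [h3, h4]
  have h2 := CH_chain h0 (fun w : Ω × Fin (2 ^ s) => w.2) (fun w => q w.1) (fun w => W w.1)
  have h3 : CH (un (2 ^ s) p) (fun w => q w.1) (fun w => W w.1) = CH p q W :=
    (un_psh hN p).CH_eq q W
  have h4 := CH_un_snd hN hp (fun ω => (q ω, W ω))
  have h5 : CH (un (2 ^ s) p) (fun w : Ω × Fin (2 ^ s) => w.2) (fun w => (q w.1, W w.1)) =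
      Real.log ((2 ^ s : ℕ) : ℝ) := h4
  rw [h1, h2, h3, h5, Pool.FTM.log_two_pow]

theorem un2_psh (p : Ω → ℝ) {N M : ℕ} (hM : 0 < M) :
    Psh (un N (un M p)) (fun w : (Ω × Fin M) × Fin N => (w.1.1, w.2)) (un N p) := by
  classical
  intro b
  have h1 : law (un N (un M p)) (fun w : (Ω × Fin M) × Fin N => (w.1.1, w.2)) b =
      ∑ w : (Ω × Fin M) × Fin N, if w.1.1 = b.1 ∧ w.2 = b.2 then p w.1.1 / M / N else 0 := by
    unfold law
    refine Finset.sum_congr rfl fun w _ => ?_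
    by_cases h : (w.1.1, w.2) = b
    · rw [if_pos h, if_pos ⟨congrArg Prod.fst h, congrArg Prod.snd h⟩]
      rfl
    · rw [if_neg h, if_neg (fun h2 => h (Prod.ext h2.1 h2.2))]
  rw [h1, Fintype.sum_prod_type, Fintype.sum_prod_type, Finset.sum_eq_single b.1]
  · have h2 : ∀ y : Fin M, ∑ x : Fin N, (if b.1 = b.1 ∧ x = b.2 then p b.1 / M / N else 0) =
        p b.1 / M / N := by
      intro y
      rw [Finset.sum_eq_single b.2]
      · rw [if_pos ⟨rfl, rfl⟩]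
      · intro c _ hc
        rw [if_neg (fun h => hc h.2)]
      · intro h
        exact absurd (Finset.mem_univ _) h
    rw [Finset.sum_congr rfl fun y _ => h2 y, Finset.sum_const, Finset.card_univ, Fintype.card_fin,
      nsmul_eq_mul]
    have h3 : (M : ℝ) ≠ 0 := by exact_mod_cast hM.ne'
    show (M : ℝ) * (p b.1 / M / N) = p b.1 / N
    field_simp
  · intro c _ hc
    refine Finset.sum_eq_zero fun y _ => Finset.sum_eq_zero fun x _ => ?_
    rw [if_neg (fun h => hc h.1)]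
  · intro h
    exact absurd (Finset.mem_univ _) h

end dig

/-! ### Filling, with bounded coefficients -/

variable {m e : ℕ}

/-- The point at the time `n / 2 ^ R`. -/
noncomputable def pR (R : ℕ) (a : Cf m e) (n : ℕ) : Fin m → ℤ := fl R (cpos a ((n : ℝ) / 2 ^ R))

/-- The curve with a tag. -/
noncomputable def tg (a : Cf m e) (τ : ℝ) : Cf (m + 1) e := fun j =>
  Fin.cons (if j = 0 then τ else 0) (a j)

theorem cpos_tg_zero (a : Cf m e) (τ t : ℝ) : cpos (tg a τ) t 0 = τ := by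
  unfold cpos tg
  rw [Finset.sum_eq_single 0]
  · simp
  · intro j _ hj
    simp [hj]
  · intro h
    exact absurd (Finset.mem_univ _) h

theorem cpos_tg_succ (a : Cf m e) (τ t : ℝ) (i : Fin m) : cpos (tg a τ) t i.succ = cpos a t i := by
  unfold cpos tg
  simp

theorem fillC (h : VVSC (m + 1) e) : ∀ ε : ℝ, 0 < ε → ∃ η : ℝ, 0 < η ∧
    ∀ K : ℕ, 3 / 2 ^ K ≤ η → ∃ θ : ℝ, 0 < θ ∧ ∃ R₀ : ℕ, ∀ l R : ℕ, R₀ ≤ R → l ≤ R →
    ∀ (Ω : Type) [Fintype Ω] (p : Ω → ℝ), IsLaw p → ∀ (Λ ζ : Type) (x : Ω → Λ) (Z : Ω → ζ)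
      (a : Ω → Cf m e) (q : Ω → ℕ) (y : Ω → BL l),
    Det p (fun ω => (x ω, Z ω)) a → Det p (fun ω => (x ω, Z ω)) y → (∀ ω, q ω < 2 ^ l) →
    (∀ ω j i, |a ω j i| ≤ 1 / 2) → (∀ ω, 0 < p ω → Lv l K η (y ω).1 (q ω)) →
    Ex p (fun ω => -Real.log ((y ω).1 (q ω))) - CH p q (fun ω => (x ω, Z ω)) ≤ θ * R →
    CH (un (2 ^ R) p) (fun w => pR R (a w.1) w.2) (fun w => (w.2, Z w.1)) + R * Real.log 2 ≤
      CH (un (2 ^ (R - l)) p) (fun w => (pR R (a w.1) (q w.1 * 2 ^ (R - l) + (w.2 : ℕ)),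
        q w.1 * 2 ^ (R - l) + (w.2 : ℕ))) (fun w => Z w.1) +
      l * Real.log 2 - CH p q (fun ω => (x ω, Z ω)) + ε * R := by
  intro ε hε
  obtain ⟨η, hη, h1⟩ := vvs_tg h 1 zero_le_one ε hε
  refine ⟨η, hη, fun K hK3 => ?_⟩
  obtain ⟨θ, hθ, J₀, h2⟩ := h1 K
  obtain ⟨J₁, hJ₁⟩ := exists_nat_ge (2 * K / η)
  refine ⟨θ, hθ, max J₀ J₁, fun l R hR hlR Ω _ p hp Λ ζ x Z a q y hDa hDy hq ha hL hkl => ?_⟩
  obtain ⟨s, hs⟩ : ∃ s, s = R - l := ⟨_, rfl⟩
  rw [← hs]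
  have hls : l + s = R := by omega
  have hN := Pool.FTM.two_pos s
  have hNR := Pool.FTM.two_pos R
  obtain ⟨n, i, hn, hi, hxi⟩ := tag x
  have hn' : (0 : ℝ) < n := by exact_mod_cast hn
  have h2R : (0 : ℝ) < 2 ^ R := by positivity
  obtain ⟨τ, hτ⟩ : ∃ τ : Ω → ℝ, τ = fun ω => (i ω : ℝ) / (n * 2 ^ R) := ⟨_, rfl⟩
  have hτ0 : ∀ ω, 0 ≤ τ ω := fun ω => by
    rw [hτ]
    positivity
  have hτ1 : ∀ ω, 2 ^ R * τ ω < 1 := by
    intro ω
    rw [hτ]
    have h3 : (i ω : ℝ) < n := by exact_mod_cast hi ω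
    have h4 : (2 : ℝ) ^ R * ((i ω : ℝ) / (n * 2 ^ R)) = i ω / n := by
      field_simp
    show (2 : ℝ) ^ R * ((i ω : ℝ) / (n * 2 ^ R)) < 1
    rw [h4, div_lt_one hn']
    exact h3
  have hτx : ∀ ω ω', τ ω = τ ω' → x ω = x ω' := by
    intro ω ω' hh
    rw [hτ] at hh
    have h3 : (i ω : ℝ) / (n * 2 ^ R) = (i ω' : ℝ) / (n * 2 ^ R) := hh
    rw [div_left_inj' (by positivity)] at h3
    exact (hxi ω ω').mpr (by exact_mod_cast h3)
  have hxτ : ∀ ω ω', x ω = x ω' → τ ω = τ ω' := by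
    intro ω ω' hh
    rw [hτ]
    show (i ω : ℝ) / (n * 2 ^ R) = (i ω' : ℝ) / (n * 2 ^ R)
    rw [(hxi ω ω').mp hh]
  -- the family
  obtain ⟨G, hG⟩ : ∃ G : CFam (m + 1) e R, G = {
      Ω := Ω × Fin (2 ^ s)
      ζ := ζ
      fin := inferInstance
      p := un (2 ^ s) p
      c := fun w => tg (a w.1) (τ w.1)
      T := fun w => q w.1 * 2 ^ s + (w.2 : ℕ)
      Z := fun w => Z w.1
      isLaw := un_isLaw hN hp
      dir := fun w j i => by
        unfold tg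
        refine Fin.cases ?_ (fun i => ?_) i
        · simp
        · simpa using ha w.1 j.succ i
      tim := fun w => by
        have h3 : q w.1 + 1 ≤ 2 ^ l := hq w.1
        have h4 := w.2.isLt
        calc q w.1 * 2 ^ s + (w.2 : ℕ) < q w.1 * 2 ^ s + 2 ^ s := by omega
          _ = (q w.1 + 1) * 2 ^ s := by ring
          _ ≤ 2 ^ l * 2 ^ s := Nat.mul_le_mul_right _ h3
          _ = 2 ^ R := by rw [← pow_add, hls] } := ⟨_, rfl⟩
  have hdiv : ∀ w : Ω × Fin (2 ^ s), (q w.1 * 2 ^ s + (w.2 : ℕ)) / 2 ^ s = q w.1 := by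
    intro w
    rw [mul_comm, Nat.mul_add_div hN, Nat.div_eq_of_lt w.2.isLt, add_zero]
  have h0s := (un_isLaw hN hp).nonneg
  have hcZ : ∀ w w' : Ω × Fin (2 ^ s), tg (a w.1) (τ w.1) = tg (a w'.1) (τ w'.1) →
      x w.1 = x w'.1 := by
    intro w w' hh
    have h3 := congrFun (congrFun hh 0) 0
    unfold tg at h3
    simp only [Fin.cons_zero, if_true] at h3
    exact hτx _ _ h3
  have hcD : CH p q (fun ω => (tg (a ω) (τ ω), Z ω)) = CH p q (fun ω => (x ω, Z ω)) := by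
    refine CH_congr hp.nonneg (fun _ _ _ _ h => (Prod.ext_iff.mp h).1)
      (fun _ _ _ _ h => (Prod.ext_iff.mp h).1) ?_ ?_
    · intro ω ω' _ _ hh
      have h3 : tg (a ω) (τ ω) = tg (a ω') (τ ω') := (Prod.ext_iff.mp hh).1
      exact Prod.ext (hcZ (ω, ⟨0, hN⟩) (ω', ⟨0, hN⟩) h3) (Prod.ext_iff.mp hh).2
    · intro ω ω' hω hω' hh
      have h3 : x ω = x ω' := (Prod.ext_iff.mp hh).1
      have h4 : a ω = a ω' := hDa ω ω' hω hω' hh
      refine Prod.ext ?_ (Prod.ext_iff.mp hh).2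
      show tg (a ω) (τ ω) = tg (a ω') (τ ω')
      rw [h4, hxτ ω ω' h3]
  have hT : CH (un (2 ^ s) p) (fun w => q w.1 * 2 ^ s + (w.2 : ℕ))
      (fun w => (tg (a w.1) (τ w.1), Z w.1)) =
      CH p q (fun ω => (x ω, Z ω)) + s * Real.log 2 := by
    rw [← hcD]
    exact CH_dig hp q s (fun ω => (tg (a ω) (τ ω), Z ω))
  have hfk : ∀ w : Ω × Fin (2 ^ s), fk (y w.1).1 s (q w.1 * 2 ^ s + (w.2 : ℕ)) =
      (y w.1).1 (q w.1) / 2 ^ s := fun w => congrArg (fun n => (y w.1).1 n / 2 ^ s) (hdiv w)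
  have hTG : G.TG False K η 0 (η * R) (θ * R) := by
    subst hG
    refine ⟨fun w => fk (y w.1).1 s, ⟨fun w t => fk_nonneg (y w.1).2.1 s t, fun w => ?_,
      fun w hw => ?_, ?_⟩, fun h => h.elim, ?_, ?_⟩
    · rw [← hls, sum_fk]
      exact (y w.1).2.2.1
    · show 0 < fk (y w.1).1 s (q w.1 * 2 ^ s + (w.2 : ℕ))
      rw [hfk]
      exact div_pos ((y w.1).pos (hq w.1)) (by positivity)
    · intro w w' hw hw' hh
      have h3 : tg (a w.1) (τ w.1) = tg (a w'.1) (τ w'.1) := (Prod.ext_iff.mp hh).1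
      have h4 : Z w.1 = Z w'.1 := (Prod.ext_iff.mp hh).2
      have h5 : y w.1 = y w'.1 := hDy w.1 w'.1 (un_pos hw) (un_pos hw')
        (Prod.ext (hcZ w w' h3) h4)
      show fk (y w.1).1 s = fk (y w'.1).1 s
      rw [h5]
    · intro w hw A B _ _
      have h3 := nbad_fk (y w.1).2.1 (L := l) (s := s) hK3 (q w.1 * 2 ^ s + (w.2 : ℕ)) A B
      rw [hls, hdiv] at h3
      have h4 : (nbad (y w.1).1 l K η (q w.1) 0 l : ℝ) ≤ η / 2 * l := hL w.1 (un_pos hw)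
      have h5 : (nbad (fk (y w.1).1 s) R K η (q w.1 * 2 ^ s + (w.2 : ℕ)) A B : ℝ) ≤
          nbad (y w.1).1 l K η (q w.1) 0 l + K := by exact_mod_cast h3
      have h6 : (J₁ : ℝ) ≤ R := by exact_mod_cast (le_max_right _ _).trans hR
      have h7 : 2 * (K : ℝ) ≤ η * R := by
        have h8 := hJ₁.trans h6
        rw [div_le_iff₀ hη] at h8
        linarith
      have h9 : (l : ℝ) ≤ R := by exact_mod_cast hlR
      have h10 : η / 2 * (l : ℝ) ≤ η / 2 * R := mul_le_mul_of_nonneg_left h9 (by linarith)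
      show (nbad (fk (y w.1).1 s) R K η (q w.1 * 2 ^ s + (w.2 : ℕ)) A B : ℝ) ≤ _
      linarith
    · unfold CFam.kl
      show Ex (un (2 ^ s) p) (fun w => -Real.log (fk (y w.1).1 s (q w.1 * 2 ^ s + (w.2 : ℕ)))) -
        CH (un (2 ^ s) p) (fun w => q w.1 * 2 ^ s + (w.2 : ℕ))
          (fun w => (tg (a w.1) (τ w.1), Z w.1)) ≤ θ * R
      rw [hT]
      have h3 : Ex (un (2 ^ s) p)
          (fun w => -Real.log (fk (y w.1).1 s (q w.1 * 2 ^ s + (w.2 : ℕ)))) =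
          Ex (un (2 ^ s) p) (fun w => -Real.log ((y w.1).1 (q w.1)) + s * Real.log 2) := by
        refine Finset.sum_congr rfl fun w _ => ?_
        have h30 : -Real.log (fk (y w.1).1 s (q w.1 * 2 ^ s + (w.2 : ℕ))) =
            -Real.log ((y w.1).1 (q w.1)) + s * Real.log 2 := by
          rw [hfk, Real.log_div ((y w.1).pos (hq w.1)).ne' (by positivity), Real.log_pow]
          ring
        exact congrArg (fun r => un (2 ^ s) p w * r) h30
      have h4 : Ex (un (2 ^ s) p) (fun w => -Real.log ((y w.1).1 (q w.1)) + s * Real.log 2) =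
          Ex p (fun ω => -Real.log ((y ω).1 (q ω)) + s * Real.log 2) :=
        (un_psh hN p).Ex_eq (fun ω => -Real.log ((y ω).1 (q ω)) + s * Real.log 2)
      have h5 : Ex p (fun ω => -Real.log ((y ω).1 (q ω)) + s * Real.log 2) =
          Ex p (fun ω => -Real.log ((y ω).1 (q ω))) + s * Real.log 2 := by
        unfold Ex
        simp only [mul_add, Finset.sum_add_distrib]
        rw [← Finset.sum_mul, hp.sum_one, one_mul]
      rw [h3, h4, h5]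
      linarith
  have hB : ∀ ω i, |G.c ω 0 i| ≤ 1 := by
    subst hG
    intro w j
    show |tg (a w.1) (τ w.1) 0 j| ≤ 1
    unfold tg
    refine Fin.cases ?_ (fun j => ?_) j
    · simp only [Fin.cons_zero, if_true]
      rw [abs_of_nonneg (hτ0 _)]
      have h3 := hτ1 w.1
      have h4 : (1 : ℝ) ≤ 2 ^ R := one_le_pow₀ (by norm_num)
      have h5 := mul_le_mul_of_nonneg_right h4 (hτ0 w.1)
      linarith
    · simp only [Fin.cons_succ]
      exact (ha w.1 0 j).trans (by norm_num)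
  have hmain := h2 R ((le_max_left _ _).trans hR) G hB hTG
  -- the floors
  have hfl : ∀ (ω : Ω) (t : ℝ), fl R (cpos (tg (a ω) (τ ω)) t) = Fin.cons 0 (fl R (cpos (a ω) t)) := by
    intro ω t
    funext j
    refine Fin.cases ?_ (fun j => ?_) j
    · show ⌊(2 : ℝ) ^ R * cpos (tg (a ω) (τ ω)) t 0⌋ = _
      rw [cpos_tg_zero, Fin.cons_zero, Int.floor_eq_zero_iff]
      exact ⟨mul_nonneg h2R.le (hτ0 ω), hτ1 ω⟩
    · show ⌊(2 : ℝ) ^ R * cpos (tg (a ω) (τ ω)) t j.succ⌋ = _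
      rw [cpos_tg_succ, Fin.cons_succ]
      rfl
  -- the live side
  have e1 : G.Vf = CH (un (2 ^ s) p) (fun w => (pR R (a w.1) (q w.1 * 2 ^ s + (w.2 : ℕ)),
      q w.1 * 2 ^ s + (w.2 : ℕ))) (fun w => Z w.1) -
      (CH p q (fun ω => (x ω, Z ω)) + s * Real.log 2) := by
    subst hG
    unfold CFam.Vf
    rw [← hT]
    congr 1
    refine CH_congr h0s ?_ ?_ (fun _ _ _ _ h => h) (fun _ _ _ _ h => h)
    · intro w w' _ _ hh
      have h3 := Prod.ext_iff.mp (Prod.ext_iff.mp hh).1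
      refine Prod.ext ?_ h3.2
      have h4 : fl R (cpos (tg (a w.1) (τ w.1)) (((q w.1 * 2 ^ s + (w.2 : ℕ) : ℕ) : ℝ) / 2 ^ R)) =
          fl R (cpos (tg (a w'.1) (τ w'.1)) (((q w'.1 * 2 ^ s + (w'.2 : ℕ) : ℕ) : ℝ) / 2 ^ R)) := h3.1
      rw [hfl, hfl] at h4
      exact (Fin.cons_injective2 h4).2
    · intro w w' _ _ hh
      have h3 := Prod.ext_iff.mp (Prod.ext_iff.mp hh).1
      refine Prod.ext ?_ h3.2
      show fl R (cpos (tg (a w.1) (τ w.1)) (((q w.1 * 2 ^ s + (w.2 : ℕ) : ℕ) : ℝ) / 2 ^ R)) =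
          fl R (cpos (tg (a w'.1) (τ w'.1)) (((q w'.1 * 2 ^ s + (w'.2 : ℕ) : ℕ) : ℝ) / 2 ^ R))
      rw [hfl, hfl]
      have h4 : fl R (cpos (a w.1) (((q w.1 * 2 ^ s + (w.2 : ℕ) : ℕ) : ℝ) / 2 ^ R)) =
          fl R (cpos (a w'.1) (((q w'.1 * 2 ^ s + (w'.2 : ℕ) : ℕ) : ℝ) / 2 ^ R)) := h3.1
      rw [h4]
  -- the uniform side
  have e2 : G.fill.Vf = CH (un (2 ^ R) p) (fun w => pR R (a w.1) w.2) (fun w => (w.2, Z w.1)) := by
    have hl2 := un_isLaw hNR (un_isLaw hN hp)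
    have h3 : CH (un (2 ^ R) (un (2 ^ s) p)) (fun w => (w.2 : ℕ))
        (fun w => (tg (a w.1.1) (τ w.1.1), Z w.1.1)) = R * Real.log 2 := by
      have h4 := CH_un_snd hNR (un_isLaw hN hp)
        (fun w : Ω × Fin (2 ^ s) => (tg (a w.1) (τ w.1), Z w.1))
      rw [← Pool.FTM.log_two_pow R, ← h4]
      refine CH_congr hl2.nonneg ?_ ?_ (fun _ _ _ _ h => h) (fun _ _ _ _ h => h)
      · intro a b _ _ h
        exact Fin.ext (Prod.ext_iff.mp h).1
      · intro a b _ _ h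
        show (a.2 : ℕ) = (b.2 : ℕ)
        rw [show a.2 = b.2 from (Prod.ext_iff.mp h).1]
    have h4 : CH (un (2 ^ R) (un (2 ^ s) p)) (fun w => (pR R (a w.1.1) w.2, (w.2 : ℕ)))
        (fun w => Z w.1.1) =
        CH (un (2 ^ R) p) (fun w => (pR R (a w.1) w.2, (w.2 : ℕ))) (fun w => Z w.1) :=
      (un2_psh p hN).CH_eq (fun w : Ω × Fin (2 ^ R) => (pR R (a w.1) w.2, (w.2 : ℕ)))
        (fun w => Z w.1)
    have h5 : CH (un (2 ^ R) p) (fun w => (pR R (a w.1) w.2, (w.2 : ℕ))) (fun w => Z w.1) =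
        R * Real.log 2 + CH (un (2 ^ R) p) (fun w => pR R (a w.1) w.2) (fun w => (w.2, Z w.1)) := by
      have h6 : CH (un (2 ^ R) p) (fun w => (pR R (a w.1) w.2, (w.2 : ℕ))) (fun w => Z w.1) =
          CH (un (2 ^ R) p) (fun w => (pR R (a w.1) w.2, w.2)) (fun w => Z w.1) := by
        refine CH_congr (un_isLaw hNR hp).nonneg ?_ ?_ (fun _ _ _ _ h => h) (fun _ _ _ _ h => h)
        · intro a b _ _ h
          have h7 := Prod.ext_iff.mp (Prod.ext_iff.mp h).1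
          exact Prod.ext h7.1 (Fin.ext h7.2)
        · intro a b _ _ h
          have h7 := Prod.ext_iff.mp (Prod.ext_iff.mp h).1
          refine Prod.ext h7.1 ?_
          show (a.2 : ℕ) = (b.2 : ℕ)
          rw [show a.2 = b.2 from h7.2]
      rw [h6, CH_chain (un_isLaw hNR hp).nonneg]
      congr 1
      rw [← Pool.FTM.log_two_pow R]
      exact CH_un_snd hNR hp Z
    have h6 : G.fill.Vf = CH (un (2 ^ R) (un (2 ^ s) p)) (fun w => (pR R (a w.1.1) w.2, (w.2 : ℕ)))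
        (fun w => Z w.1.1) - R * Real.log 2 := by
      subst hG
      unfold CFam.Vf
      rw [← h3]
      congr 1
      refine CH_congr hl2.nonneg ?_ ?_ (fun _ _ _ _ h => h) (fun _ _ _ _ h => h)
      · intro w w' _ _ hh
        have h3 := Prod.ext_iff.mp (Prod.ext_iff.mp hh).1
        refine Prod.ext ?_ h3.2
        have h4 : fl R (cpos (tg (a w.1.1) (τ w.1.1)) (((w.2 : ℕ) : ℝ) / 2 ^ R)) =
            fl R (cpos (tg (a w'.1.1) (τ w'.1.1)) (((w'.2 : ℕ) : ℝ) / 2 ^ R)) := h3.1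
        rw [hfl, hfl] at h4
        exact (Fin.cons_injective2 h4).2
      · intro w w' _ _ hh
        have h3 := Prod.ext_iff.mp (Prod.ext_iff.mp hh).1
        refine Prod.ext ?_ h3.2
        show fl R (cpos (tg (a w.1.1) (τ w.1.1)) (((w.2 : ℕ) : ℝ) / 2 ^ R)) =
            fl R (cpos (tg (a w'.1.1) (τ w'.1.1)) (((w'.2 : ℕ) : ℝ) / 2 ^ R))
        rw [hfl, hfl]
        have h4 : fl R (cpos (a w.1.1) (((w.2 : ℕ) : ℝ) / 2 ^ R)) =
            fl R (cpos (a w'.1.1) (((w'.2 : ℕ) : ℝ) / 2 ^ R)) := h3.1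
        rw [h4]
    rw [h6, h4, h5]
    ring
  rw [e1, e2] at hmain
  have h3 : (s : ℝ) = R - l := by
    have h4 : (l : ℝ) + s = R := by exact_mod_cast hls
    linarith
  have h5 : (s : ℝ) * Real.log 2 = R * Real.log 2 - l * Real.log 2 := by
    rw [h3]
    ring
  linarith

/-! ### Filling, for curves at distance at most `1` -/

theorem cpos_lin (a b : Cf m e) (D t : ℝ) (i : Fin m) :
    cpos (fun j i => (a j i - b j i) / D : Cf m e) t i = (cpos a t i - cpos b t i) / D := by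
  unfold cpos
  rw [← Finset.sum_sub_distrib, Finset.sum_div]
  refine Finset.sum_congr rfl fun j _ => ?_
  ring

/-- **(FILL)** Filling one block of live digits. -/
theorem fillN (h : VVSC (m + 1) e) : ∀ ε : ℝ, 0 < ε → ∃ η : ℝ, 0 < η ∧
    ∀ K : ℕ, 3 / 2 ^ K ≤ η → ∃ θ : ℝ, 0 < θ ∧ ∃ R₀ : ℕ, ∀ l R : ℕ, R₀ ≤ R → l ≤ R →
    ∀ (Ω : Type) [Fintype Ω] (p : Ω → ℝ), IsLaw p → ∀ (Λ ζ : Type) (x : Ω → Λ) (Z : Ω → ζ)
      (a : Ω → Cf m e) (q : Ω → ℕ) (y : Ω → BL l),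
    Det p (fun ω => (x ω, Z ω)) a → Det p (fun ω => (x ω, Z ω)) y → (∀ ω, q ω < 2 ^ l) →
    (∀ ω ω', 0 < p ω → 0 < p ω' → Z ω = Z ω' → ∀ t : ℝ, 0 ≤ t → t ≤ 1 → ∀ i,
      |cpos (a ω) t i - cpos (a ω') t i| ≤ 1) →
    (∀ ω, 0 < p ω → Lv l K η (y ω).1 (q ω)) →
    Ex p (fun ω => -Real.log ((y ω).1 (q ω))) - CH p q (fun ω => (x ω, Z ω)) ≤ θ * R →
    CH (un (2 ^ R) p) (fun w => pR R (a w.1) w.2) (fun w => (w.2, Z w.1)) + R * Real.log 2 ≤
      CH (un (2 ^ (R - l)) p) (fun w => (pR R (a w.1) (q w.1 * 2 ^ (R - l) + (w.2 : ℕ)),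
        q w.1 * 2 ^ (R - l) + (w.2 : ℕ))) (fun w => Z w.1) +
      l * Real.log 2 - CH p q (fun ω => (x ω, Z ω)) + ε * R := by
  classical
  intro ε hε
  obtain ⟨C, hC1, hC⟩ := coef_le (e + 1)
  obtain ⟨D, hD⟩ : ∃ D, D = 2 * C := ⟨_, rfl⟩
  have hD2 : 2 ≤ D := by linarith
  have hD0 : 0 < D := by linarith
  obtain ⟨η, hη, h1⟩ := fillC h (ε / 2) (by linarith)
  refine ⟨η, hη, fun K hK3 => ?_⟩
  obtain ⟨θ, hθ, J₀, h2⟩ := h1 K hK3
  obtain ⟨J₁, hJ₁⟩ := exists_nat_ge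
    ((2 * (m * Real.log (2 * (D + 1) + 1) + m * Real.log (2 * 2 + 1))) / ε)
  refine ⟨θ, hθ, max J₀ J₁, fun l R hR hlR Ω _ p hp Λ ζ x Z a q y hDa hDy hq hN hL hkl => ?_⟩
  have hR1 : (J₁ : ℝ) ≤ R := by exact_mod_cast (le_max_right _ _).trans hR
  -- the reference
  obtain ⟨r, hr⟩ : ∃ r : ζ → Cf m e, ∀ ω, 0 < p ω → ∃ ω', 0 < p ω' ∧ Z ω' = Z ω ∧
      r (Z ω) = a ω' := by
    refine ⟨fun z => if hz : ∃ ω, 0 < p ω ∧ Z ω = z then a hz.choose else 0, fun ω hω => ?_⟩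
    have hz : ∃ ω', 0 < p ω' ∧ Z ω' = Z ω := ⟨ω, hω, rfl⟩
    exact ⟨hz.choose, hz.choose_spec.1, hz.choose_spec.2, dif_pos hz⟩
  have hrN : ∀ ω, 0 < p ω → ∀ t : ℝ, 0 ≤ t → t ≤ 1 → ∀ i,
      |cpos (a ω) t i - cpos (r (Z ω)) t i| ≤ 1 := by
    intro ω hω t ht ht1 i
    obtain ⟨ω', k1, k2, k3⟩ := hr ω hω
    rw [k3]
    exact hN ω ω' hω k1 k2.symm t ht ht1 i
  obtain ⟨γ, hγ⟩ : ∃ γ : Ω → Cf m e, γ = fun ω => if 0 < p ω then
      (fun j i => (a ω j i - r (Z ω) j i) / D : Cf m e) else 0 := ⟨_, rfl⟩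
  have hγp : ∀ ω, 0 < p ω → γ ω = (fun j i => (a ω j i - r (Z ω) j i) / D : Cf m e) := by
    intro ω hω
    rw [hγ]
    exact if_pos hω
  have hγc : ∀ ω, 0 < p ω → ∀ t i, cpos (γ ω) t i = (cpos (a ω) t i - cpos (r (Z ω)) t i) / D := by
    intro ω hω t i
    rw [hγp ω hω, cpos_lin]
  have hγa : ∀ ω j i, |γ ω j i| ≤ 1 / 2 := by
    intro ω j i
    by_cases hω : 0 < p ω
    · rw [hγp ω hω]
      have h3 := hC (fun j => a ω j i - r (Z ω) j i) (fun t ht ht1 => by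
        have h4 := hrN ω hω t ht ht1 i
        unfold cpos at h4
        rw [← Finset.sum_sub_distrib] at h4
        refine le_trans (le_of_eq ?_) h4
        congr 1
        refine Finset.sum_congr rfl fun j _ => ?_
        ring) j
      show |(a ω j i - r (Z ω) j i) / D| ≤ 1 / 2
      rw [abs_div, abs_of_pos hD0, div_le_iff₀ hD0, hD]
      linarith
    · have h3 : γ ω = 0 := by
        rw [hγ]
        exact if_neg hω
      rw [h3]
      simp
  have hDγ : Det p (fun ω => (x ω, Z ω)) γ := by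
    intro ω ω' hω hω' hh
    have hz : Z ω = Z ω' := (Prod.ext_iff.mp hh).2
    rw [hγp ω hω, hγp ω' hω', hDa ω ω' hω hω' hh, hz]
  have hmain := h2 l R ((le_max_left _ _).trans hR) hlR Ω p hp Λ ζ x Z γ q y hDγ hDy hq hγa hL hkl
  obtain ⟨s, hs⟩ : ∃ s, s = R - l := ⟨_, rfl⟩
  rw [← hs] at hmain ⊢
  have hNs := Pool.FTM.two_pos s
  have hNR := Pool.FTM.two_pos R
  have hls := un_isLaw hNs hp
  have hlR := un_isLaw hNR hp
  have h2R : (0 : ℝ) < 2 ^ R := by positivity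
  -- floors
  have hflo : ∀ (c : Cf m e) (n : ℕ) (i : Fin m),
      ((pR R c n i : ℤ) : ℝ) ≤ 2 ^ R * cpos c ((n : ℝ) / 2 ^ R) i ∧
      2 ^ R * cpos c ((n : ℝ) / 2 ^ R) i < (pR R c n i : ℤ) + 1 := fun c n i =>
    ⟨Int.floor_le _, Int.lt_floor_add_one _⟩
  -- the uniform side
  have e1 : CH (un (2 ^ R) p) (fun w => pR R (a w.1) w.2) (fun w => (w.2, Z w.1)) ≤
      CH (un (2 ^ R) p) (fun w => pR R (γ w.1) w.2) (fun w => (w.2, Z w.1)) +
        m * Real.log (2 * (D + 1) + 1) := by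
    refine (CH_le_add hlR.nonneg _ (fun w => pR R (γ w.1) w.2) _).trans ?_
    refine add_le_add le_rfl ?_
    refine (CH_le_vec hlR.nonneg hlR.sum_one _ _ (fun _ => D + 1) ?_).trans ?_
    · intro w w' hw hw' hh i
      have k1 : pR R (γ w.1) w.2 = pR R (γ w'.1) w'.2 := (Prod.ext_iff.mp hh).1
      have k2 : w.2 = w'.2 := (Prod.ext_iff.mp (Prod.ext_iff.mp hh).2).1
      have k3 : Z w.1 = Z w'.1 := (Prod.ext_iff.mp (Prod.ext_iff.mp hh).2).2
      obtain ⟨a1, a2⟩ := hflo (a w.1) w.2 i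
      obtain ⟨b1, b2⟩ := hflo (a w'.1) w'.2 i
      obtain ⟨c1, c2⟩ := hflo (γ w.1) w.2 i
      obtain ⟨d1, d2⟩ := hflo (γ w'.1) w'.2 i
      rw [hγc _ (un_pos hw)] at c1 c2
      rw [hγc _ (un_pos hw')] at d1 d2
      rw [← k1, ← k2, ← k3] at d1 d2
      rw [← k2] at b1 b2
      obtain ⟨u, hu⟩ : ∃ u, u = cpos (a w.1) (((w.2 : ℕ) : ℝ) / 2 ^ R) i := ⟨_, rfl⟩
      obtain ⟨v, hv⟩ : ∃ v, v = cpos (a w'.1) (((w.2 : ℕ) : ℝ) / 2 ^ R) i := ⟨_, rfl⟩
      obtain ⟨z, hz⟩ : ∃ z, z = cpos (r (Z w.1)) (((w.2 : ℕ) : ℝ) / 2 ^ R) i := ⟨_, rfl⟩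
      rw [← hu] at a1 a2 c1 c2
      rw [← hv] at b1 b2 d1 d2
      rw [← hz] at c1 c2 d1 d2
      have g1 : 2 ^ R * ((u - z) / D) - 2 ^ R * ((v - z) / D) = (2 ^ R * u - 2 ^ R * v) / D := by
        field_simp
        ring
      have g2 : (2 ^ R * u - 2 ^ R * v) / D < 1 := by rw [← g1]; linarith
      have g3 : -1 < (2 ^ R * u - 2 ^ R * v) / D := by rw [← g1]; linarith
      rw [div_lt_one hD0] at g2
      rw [lt_div_iff₀ hD0] at g3
      push_cast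
      rw [← k2, abs_le]
      constructor <;> linarith
    · rw [Ex_const hlR.sum_one]
  -- the live side
  have e2 : CH (un (2 ^ s) p) (fun w => (pR R (γ w.1) (q w.1 * 2 ^ s + (w.2 : ℕ)),
        q w.1 * 2 ^ s + (w.2 : ℕ))) (fun w => Z w.1) ≤
      CH (un (2 ^ s) p) (fun w => (pR R (a w.1) (q w.1 * 2 ^ s + (w.2 : ℕ)),
        q w.1 * 2 ^ s + (w.2 : ℕ))) (fun w => Z w.1) + m * Real.log (2 * 2 + 1) := by
    refine (CH_le_add hls.nonneg _ (fun w => (pR R (a w.1) (q w.1 * 2 ^ s + (w.2 : ℕ)),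
        q w.1 * 2 ^ s + (w.2 : ℕ))) _).trans ?_
    refine add_le_add le_rfl ?_
    have e3 : CH (un (2 ^ s) p) (fun w => (pR R (γ w.1) (q w.1 * 2 ^ s + (w.2 : ℕ)),
        q w.1 * 2 ^ s + (w.2 : ℕ))) (fun w => ((pR R (a w.1) (q w.1 * 2 ^ s + (w.2 : ℕ)),
        q w.1 * 2 ^ s + (w.2 : ℕ)), Z w.1)) =
        CH (un (2 ^ s) p) (fun w => pR R (γ w.1) (q w.1 * 2 ^ s + (w.2 : ℕ)))
          (fun w => ((pR R (a w.1) (q w.1 * 2 ^ s + (w.2 : ℕ)),
        q w.1 * 2 ^ s + (w.2 : ℕ)), Z w.1)) := by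
      refine CH_congr hls.nonneg ?_ ?_ (fun _ _ _ _ h => h) (fun _ _ _ _ h => h)
      · intro w w' _ _ hh
        exact (Prod.ext_iff.mp (Prod.ext_iff.mp hh).1).1
      · intro w w' _ _ hh
        have k1 := Prod.ext_iff.mp hh
        exact Prod.ext k1.1 (Prod.ext_iff.mp (Prod.ext_iff.mp k1.2).1).2
    rw [e3]
    refine (CH_le_vec hls.nonneg hls.sum_one _ _ (fun _ => 2) ?_).trans ?_
    · intro w w' hw hw' hh i
      have k0 := Prod.ext_iff.mp (Prod.ext_iff.mp hh).1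
      have k1 : pR R (a w.1) (q w.1 * 2 ^ s + (w.2 : ℕ)) =
        pR R (a w'.1) (q w'.1 * 2 ^ s + (w'.2 : ℕ)) := k0.1
      have k2 : q w.1 * 2 ^ s + (w.2 : ℕ) = q w'.1 * 2 ^ s + (w'.2 : ℕ) := k0.2
      have k3 : Z w.1 = Z w'.1 := (Prod.ext_iff.mp hh).2
      obtain ⟨a1, a2⟩ := hflo (a w.1) (q w.1 * 2 ^ s + (w.2 : ℕ)) i
      obtain ⟨b1, b2⟩ := hflo (a w'.1) (q w'.1 * 2 ^ s + (w'.2 : ℕ)) i
      obtain ⟨c1, c2⟩ := hflo (γ w.1) (q w.1 * 2 ^ s + (w.2 : ℕ)) i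
      obtain ⟨d1, d2⟩ := hflo (γ w'.1) (q w'.1 * 2 ^ s + (w'.2 : ℕ)) i
      rw [hγc _ (un_pos hw)] at c1 c2
      rw [hγc _ (un_pos hw')] at d1 d2
      rw [← k1, ← k2] at b1 b2
      rw [← k2, ← k3] at d1 d2
      obtain ⟨t, ht⟩ : ∃ t, t = ((q w.1 * 2 ^ s + (w.2 : ℕ) : ℕ) : ℝ) / 2 ^ R := ⟨_, rfl⟩
      rw [← ht] at a1 a2 b1 b2 c1 c2 d1 d2
      obtain ⟨u, hu⟩ : ∃ u, u = cpos (a w.1) t i := ⟨_, rfl⟩
      obtain ⟨v, hv⟩ : ∃ v, v = cpos (a w'.1) t i := ⟨_, rfl⟩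
      obtain ⟨z, hz⟩ : ∃ z, z = cpos (r (Z w.1)) t i := ⟨_, rfl⟩
      rw [← hu] at a1 a2 c1 c2
      rw [← hv] at b1 b2 d1 d2
      rw [← hz] at c1 c2 d1 d2
      have g1 : 2 ^ R * ((u - z) / D) - 2 ^ R * ((v - z) / D) = (2 ^ R * u - 2 ^ R * v) / D := by
        field_simp
        ring
      have g2 : (2 ^ R * u - 2 ^ R * v) / D ≤ 1 := by
        rw [div_le_one hD0]
        linarith
      have g3 : -1 ≤ (2 ^ R * u - 2 ^ R * v) / D := by
        rw [le_div_iff₀ hD0]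
        linarith
      push_cast
      rw [← k2, abs_le]
      constructor <;> linarith
    · rw [Ex_const hls.sum_one]
  have e4 : 2 * (m * Real.log (2 * (D + 1) + 1) + m * Real.log (2 * 2 + 1)) ≤ ε * R := by
    have h4 := hJ₁.trans hR1
    rw [div_le_iff₀ hε] at h4
    linarith only [h4]
  linarith

end Pool.LVB
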