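import Pool.Agent.H15.LVB.Pts

/-!
# The box with live digits
-/

set_option autoImplicit false

namespace Pool.LVB

open Finset Real MvPolynomial
open Pool.Agent.H49.Ent Pool.Agent.H32.Dense Pool.STK Pool.KA
open Pool.KM7 (Psh BL Lv)
open Pool.FTM (un un_isLaw un_psh un_pos CH_un_snd)
open Pool.SH (VVSC)
open Pool.LAT (Bd Sp)
open Pool.KNH (LA LB Ln GS ndc blk bas ent)
open Pool.KNB (nJ mo cmb ev)
open Pool.GC

variable {m E : ℕ}

theorem nz_un {Ω : Type} (p : Ω → ℝ) (N : ℕ) : Pool.TRN.nz p N = un N p := by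
  funext e
  show p e.1 * (1 / N) = p e.1 / N
  ring

/-- The box for uniform times, explicit. -/
theorem box_expl {P : Par m E} {b : BP} {κ ε : ℝ} {k₀ : ℕ} (hbox : (P.td b κ).Box ε k₀)
    {J w k₁ : ℕ} (hw : w ≤ J) (hk : k₀ ≤ k₁ + b.c₁) (F : Fam m J) (z : F.ζ → Cc m E)
    (hdom : ∀ ω, 0 < F.p ω →
      dmv P b J w (z (F.Z ω)) (k₁ + b.c₁) (F.l ω) (F.T ω / 2 ^ (J - w))) :
    ∃ (E' : Type) (_ : Fintype E') (p' : E' → ℝ) (_ : IsLaw p') (pr : E' → F.Ω)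
      (b' : E' → Vl m E), Psh p' pr F.p ∧
      (∀ e, 0 < p' e → bkv P b w (z (F.Z (pr e))) (k₁ + b.c₁) (F.l (pr e))
        (F.T (pr e) / 2 ^ (J - w)) (b' e)) ∧
      Ex p' (fun e => capv J (b' e)) +
        CH p' (fun e => (F.T (pr e) / 2 ^ (J - w), b' e)) (fun e => F.Z (pr e)) ≤
      CH (un (2 ^ k₁) F.p) (fun e => pYf k₁ w (scl b.c₄ (z (F.Z e.1)).c.B) (F.l e.1)
        (F.T e.1 / 2 ^ (J - w)) e.2) (fun e => F.Z e.1) -
      Ex F.p (fun ω => pU J k₁ w (scl b.c₄ (z (F.Z ω)).c.B) (F.l ω) (F.T ω / 2 ^ (J - w))) +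
      ε * (k₁ + b.c₁ : ℕ) := by
  obtain ⟨E', i, p', hp', pr, b', h1, h2, h3⟩ := hbox J w (k₁ + b.c₁) hw hk F z hdom
  refine ⟨E', i, p', hp', pr, b', h1, h2, ?_⟩
  have h4 : Ex p' (fun e => capv J (b' e)) +
        CH p' (fun e => (F.T (pr e) / 2 ^ (J - w), b' e)) (fun e => F.Z (pr e)) ≤
      CH (Pool.TRN.nz F.p (2 ^ (k₁ + b.c₁ - b.c₁)))
        (fun e => pYf (k₁ + b.c₁ - b.c₁) w (scl b.c₄ (z (F.Z e.1)).c.B) (F.l e.1)
        (F.T e.1 / 2 ^ (J - w)) e.2) (fun e => F.Z e.1) -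
      Ex F.p (fun ω => pU J (k₁ + b.c₁ - b.c₁) w (scl b.c₄ (z (F.Z ω)).c.B) (F.l ω)
        (F.T ω / 2 ^ (J - w))) +
      ε * (k₁ + b.c₁ : ℕ) := h3
  rw [nz_un, Nat.add_sub_cancel] at h4
  exact h4

theorem win_sub {w w' t t' : ℕ} (hw : w ≤ w') (h : t' / 2 ^ (w' - w) = t) :
    win w' t' ⊆ win w t := by
  obtain ⟨d, hd⟩ : ∃ d, w' = w + d := ⟨w' - w, by omega⟩
  subst hd
  rw [Nat.add_sub_cancel_left] at h
  have h1 : t * 2 ^ d ≤ t' := by
    rw [← h]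
    exact Nat.div_mul_le_self _ _
  have h2 : t' + 1 ≤ (t + 1) * 2 ^ d := by
    have := Nat.lt_div_mul_add (a := t') (b := 2 ^ d) (by positivity)
    rw [h] at this
    rw [add_mul, one_mul]
    omega
  have h1' : (t : ℝ) * 2 ^ d ≤ t' := by exact_mod_cast h1
  have h2' : (t' : ℝ) + 1 ≤ (t + 1) * 2 ^ d := by exact_mod_cast h2
  have pw : (0 : ℝ) < 2 ^ w := by positivity
  have pd : (0 : ℝ) < 2 ^ d := by positivity
  intro s hs
  obtain ⟨a1, a2⟩ := hs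
  constructor
  · refine le_trans ?_ a1
    rw [div_le_div_iff₀ pw (by positivity), pow_add]
    nlinarith
  · refine a2.trans ?_
    rw [div_le_div_iff₀ (by positivity) pw, pow_add]
    nlinarith

/-- The constants of the box. -/
def bpc (g CT Cn : ℕ) : BP where
  A₀ := 0
  A₁ := 0
  A₂ := 0
  a₀ := g + (2 * CT + Cn + 2)
  c₁ := CT
  c₂ := 0
  g₀ := g
  c₃ := 1
  c₄ := g + (CT + Cn + 2)
  c₅ := 0
  cA := 2 * CT + Cn + 2

theorem log_lin {δ x : ℝ} (hδ : 0 < δ) (hx : 0 < x) : Real.log x ≤ δ * x - Real.log δ := by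
  have h1 := Real.log_le_sub_one_of_pos (mul_pos hδ hx)
  rw [Real.log_mul hδ.ne' hx.ne'] at h1
  linarith

/-- **The box with live digits.** -/
theorem live_box (hF : Fct m E) (hT : TdBoxStmt m E) (hC : CntW m E)
    (hV : VVSC (m + 1) (dD m E)) : ∃ C₀ : ℕ, ∀ (P : Par m E) (κ : ℝ) (g : ℕ), Cst P κ C₀ →
    C₀ ≤ P.top →
    (∀ A B : Bd (nJ m E), A.le (2 ^ (g + C₀)) B → P.vol A ≤ P.vol B + P.cH) →
    ∀ ε : ℝ, 0 < ε → ∃ G r₁ : ℕ, P.cls.Box κ ε g G r₁ := by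
  classical
  obtain ⟨CT, hT⟩ := hT
  obtain ⟨Cn, hn⟩ := hF.nod
  obtain ⟨Cw, hw⟩ := hF.win
  refine ⟨2 * CT + Cn + 2, fun P κ g hc htop hvol ε hε => ?_⟩
  have hm := hc.hm
  have hm' : (1 : ℝ) ≤ m := by exact_mod_cast hm
  obtain ⟨b, hb⟩ : ∃ b, b = bpc g CT Cn := ⟨_, rfl⟩
  have ba : b.a₀ = g + (2 * CT + Cn + 2) := by rw [hb]; rfl
  have bc1 : b.c₁ = CT := by rw [hb]; rfl
  have bc2 : b.c₂ = 0 := by rw [hb]; rfl
  have bg : b.g₀ = g := by rw [hb]; rfl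
  have bc3 : b.c₃ = 1 := by rw [hb]; rfl
  have bc4 : b.c₄ = g + (CT + Cn + 2) := by rw [hb]; rfl
  have bcA : b.cA = 2 * CT + Cn + 2 := by rw [hb]; rfl
  rw [← bcA] at hc
  obtain ⟨C, hC0, hcnt⟩ := cnt_live hC (2 ^ (m * nJ m E) + 2 ^ (Cn + 1))
  obtain ⟨ε₁, hε₁⟩ : ∃ ε₁, ε₁ = ε / (8 * (m + 1)) := ⟨_, rfl⟩
  have hε₁0 : 0 < ε₁ := by
    rw [hε₁]
    positivity
  obtain ⟨k₀, hbox⟩ := hT P b κ (by rw [bg, bc4]; omega) (by rw [ba, bc4]; omega)
    (by rw [bc1, bc2]; omega) (by rw [bcA]; omega) (by omega) ε₁ hε₁0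
  obtain ⟨η, hη, h1⟩ := unif_live hF hV ε₁ hε₁0
  refine ⟨b.a₀ + b.cA * (m * (P.top + (g + nJ m E)) + m * b.c₄ + b.c₁) + 2 * nJ m E,
    m * nJ m E + (m + 1) * (1 + b.a₀ + b.cA * (m + m * b.c₄ + b.c₁)) + nJ m E + 2 * Cw + 1, η, hη,
    fun K hK => ?_⟩
  obtain ⟨θ, hθ, R₁, h2⟩ := h1 K hK
  -- the constants for the logarithms
  obtain ⟨A, hA⟩ : ∃ A : ℝ, A = 4 * ((m + Cw + P.cs) + m * nJ m E + Cw + 2) + 1 := ⟨_, rfl⟩
  have hA1 : 1 ≤ A := by
    rw [hA]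
    have : (0 : ℝ) ≤ (m + Cw + P.cs) + m * nJ m E + Cw + 2 := by positivity
    linarith
  obtain ⟨D, hD⟩ : ∃ D : ℝ, D = ε₁ * (2 * (m * b.c₄) + b.c₁) + C * Real.log 3 + Real.log A -
    Real.log (ε / 8) := ⟨_, rfl⟩
  obtain ⟨R₂, hR₂⟩ := exists_nat_ge (4 * D / ε)
  obtain ⟨R₃, hR₃⟩ := exists_nat_ge (1 / θ)
  refine ⟨θ, hθ, 1 + (R₁ + (k₀ + (R₂ + R₃))), ?_⟩
  intro J w l R hl hlR hJ F _ c hcw k v hok hdp hR y hy hLv hkl
  have hp := F.isLaw
  have h0 := hp.nonneg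
  -- the windows
  obtain ⟨u, hu⟩ : ∃ u : F.Ω → ℕ, u = fun ω => F.T ω / 2 ^ (J - (w + l)) := ⟨_, rfl⟩
  have huT : ∀ ω, F.T ω / 2 ^ (J - w) = u ω / 2 ^ l := by
    intro ω
    rw [hu]
    show F.T ω / 2 ^ (J - w) = F.T ω / 2 ^ (J - (w + l)) / 2 ^ l
    rw [Nat.div_div_eq_div_mul, ← pow_add]
    congr 2
    omega
  have hblk : ∀ ω, blk F w l ω = u ω % 2 ^ l := by
    intro ω
    rw [hu]
    rfl
  have hok' : ∀ ω, 0 < F.p ω → okv P J (w + l) (c (F.Z ω)) k g (F.l ω) (u ω) (v ω) := by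
    intro ω hω
    rw [hu]
    exact hok ω hω
  have hcw' : ∀ ω, 0 < F.p ω → (c (F.Z ω)).w ≤ w := hcw
  have hdp' : ∀ ω, 0 < F.p ω → P.cd * dep (v ω).c.B / P.fl J < ndc m κ := hdp
  have hR' : ∀ ω, 0 < F.p ω → l + (v ω).al + P.hx (c (F.Z ω)) (v ω) ≤ R := hR
  -- the numbers
  have hl1 : 1 ≤ l := by omega
  have hJ1 : 1 ≤ J := by omega
  have hX4 := hc.X_sq hJ1 g
  obtain ⟨R', hR'e⟩ : ∃ R', R' = min R (XX P b.cA g J) := ⟨_, rfl⟩
  have hJX : J ≤ XX P b.cA g J := by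
    have h3 : J ≤ J ^ 2 := Nat.le_self_pow (by norm_num) J
    omega
  have hlR' : l ≤ R' := by
    rw [hR'e]
    exact le_min hlR (by omega)
  have hR'R : R' ≤ R := by
    rw [hR'e]
    exact min_le_left _ _
  obtain ⟨k₁, hk₁⟩ : ∃ k₁, k₁ = m * R' + m * b.c₄ := ⟨_, rfl⟩
  have hRk : R' ≤ k₁ := by
    have h3 := Nat.le_mul_of_pos_left R' (by omega : 0 < m)
    rw [hk₁]
    omega
  have hlk : l ≤ k₁ := hlR'.trans hRk
  -- the bodies
  have hnear : ∀ ω, 0 < F.p ω → (c (F.Z ω)).c.B.near (2 ^ R') (v ω).c.B := by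
    intro ω hω
    have h3 := hR' ω hω
    rw [hR'e]
    exact okv_near hc hl1 hJ (hok' ω hω) (hdp' ω hω) (by omega)
  have hSv : ∀ ω, 0 < F.p ω → 0 < SJ (v ω).c.B w (u ω / 2 ^ l) (F.l ω) := fun ω hω =>
    okv_SJ_pos hF (hok' ω hω)
  have hSc : ∀ ω, 0 < F.p ω → 0 < SJ (c (F.Z ω)).c.B w (u ω / 2 ^ l) (F.l ω) := fun ω hω =>
    SJ_pos hF (hnear ω hω).1 (hSv ω hω)
  -- the size
  obtain ⟨s, hs⟩ : ∃ s : F.Ω → ℤ, s = fun ω => sze w l (c (F.Z ω)) (F.l ω) (u ω) := ⟨_, rfl⟩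
  -- the uniform box
  have hbx : ∃ (E' : Type) (_ : Fintype E') (p' : E' → ℝ) (_ : IsLaw p') (pr : E' → F.Ω)
      (b' : E' → Vl m E), Psh p' pr F.p ∧
      (∀ e, 0 < p' e → bkv P b w (wsz (c (F.Z (pr e))) (s (pr e))) (k₁ + b.c₁) (F.l (pr e))
        (F.T (pr e) / 2 ^ (J - w)) (b' e)) ∧
      Ex p' (fun e => capv J (b' e)) +
        CH p' (fun e => (F.T (pr e) / 2 ^ (J - w), b' e)) (fun e => (s (pr e), F.Z (pr e))) ≤
      CH (un (2 ^ k₁) F.p) (fun e => pYf k₁ w (scl b.c₄ (c (F.Z e.1)).c.B) (F.l e.1)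
        (F.T e.1 / 2 ^ (J - w)) e.2) (fun e => (s e.1, F.Z e.1)) -
      Ex F.p (fun ω => pU J k₁ w (scl b.c₄ (c (F.Z ω)).c.B) (F.l ω) (F.T ω / 2 ^ (J - w))) +
      ε₁ * (k₁ + b.c₁ : ℕ) :=
    box_expl hbox (J := J) (w := w) (k₁ := k₁) (by omega) (by omega) (F.cnd s)
      (fun q => wsz (c q.2) q.1) (by
      intro ω hω
      have h3 := dom_pt (b := b) (kk := k₁ + b.c₁) (le_of_eq bg.symm) hJ (hcw' ω hω)
        (by rw [bc3]; omega) (hok' ω hω) (hSc ω hω)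
      show dmv P b J w (wsz (c (F.Z ω)) (s ω)) (k₁ + b.c₁) (F.l ω) (F.T ω / 2 ^ (J - w))
      rw [huT ω, hs]
      exact h3)
  obtain ⟨E', iE, p', hp', pr, b', hpsh, hbk, hbox'⟩ := hbx
  -- restate
  obtain ⟨Bh, hBh⟩ : ∃ Bh : F.Ω → Bd (nJ m E), Bh = fun ω => scl b.c₄ (c (F.Z ω)).c.B := ⟨_, rfl⟩
  obtain ⟨tw, htw⟩ : ∃ tw : F.Ω → ℕ, tw = fun ω => u ω / 2 ^ l := ⟨_, rfl⟩
  have htwT : (fun ω => F.T ω / 2 ^ (J - w)) = tw := by
    rw [htw]
    funext ω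
    exact huT ω
  have a1 : Ex p' (fun e => capv J (b' e)) +
        CH p' (fun e => (tw (pr e), b' e)) (fun e => (s (pr e), F.Z (pr e))) ≤
      CH (un (2 ^ k₁) F.p) (fun e => pYf k₁ w (Bh e.1) (F.l e.1) (tw e.1) e.2)
        (fun e => (s e.1, F.Z e.1)) -
      Ex F.p (fun ω => pU J k₁ w (Bh ω) (F.l ω) (tw ω)) + ε₁ * (k₁ + b.c₁ : ℕ) := by
    rw [← htwT, hBh]
    exact hbox'
  -- filling
  have hent : CH F.p (fun ω => u ω % 2 ^ l) (fun ω => (F.l ω, (tw ω, (s ω, F.Z ω)))) =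
      ent F w l := by
    unfold ent
    refine CH_congr h0 ?_ ?_ ?_ ?_
    · intro ω ω' _ _ hh
      show blk F w l ω = blk F w l ω'
      rw [hblk, hblk]
      exact (Prod.ext_iff.mp hh).1
    · intro ω ω' _ _ hh
      have h3 : blk F w l ω = blk F w l ω' := (Prod.ext_iff.mp hh).1
      rw [hblk, hblk] at h3
      exact h3
    · intro ω ω' _ _ hh
      simp only [Prod.mk.injEq] at hh
      obtain ⟨b1, b2, b3, b4⟩ := hh
      have h3 : F.T ω / 2 ^ (J - w) = F.T ω' / 2 ^ (J - w) := by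
        rw [huT, huT]
        rw [htw] at b2
        exact b2
      exact Prod.ext (Prod.ext b1 b4) h3
    · intro ω ω' _ _ hh
      unfold bas at hh
      simp only [Prod.mk.injEq] at hh
      obtain ⟨⟨b1, b2⟩, b3⟩ := hh
      rw [huT, huT] at b3
      have b4 : s ω = s ω' := by
        rw [hs]
        show sze w l (c (F.Z ω)) (F.l ω) (u ω) = sze w l (c (F.Z ω')) (F.l ω') (u ω')
        unfold sze
        rw [b1, b2, b3]
      have b5 : tw ω = tw ω' := by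
        rw [htw]
        exact b3
      show (F.l ω, (tw ω, (s ω, F.Z ω))) = (F.l ω', (tw ω', (s ω', F.Z ω')))
      rw [b1, b5, b4, b2]
  have hwin : ∀ ω, 0 < F.p ω → win w (tw ω) ⊆ win (c (F.Z ω)).w (c (F.Z ω)).t := by
    intro ω hω
    refine win_sub (hcw' ω hω) ?_
    rw [htw]
    show u ω / 2 ^ l / 2 ^ (w - (c (F.Z ω)).w) = _
    rw [div_div_sub (hcw' ω hω)]
    exact (hok' ω hω).win
  have hdif : ∀ ω ω', 0 < F.p ω → 0 < F.p ω' → F.Z ω = F.Z ω' →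
      ∀ r ∈ win (c (F.Z ω)).w (c (F.Z ω)).t, ∀ a,
      |(Bh ω).fn a (phl E (F.l ω) r) - (Bh ω).fn a (phl E (F.l ω') r)| ≤ 1 := by
    intro ω ω' hω hω' hh r hr a
    have k1 := (hok' ω hω).memc
    have k2 := (hok' ω' hω').memc
    rw [← hh] at k2
    have k3 := dif_pt hF hn (B := (c (F.Z ω)).c.B) (cd := (c (F.Z ω)).c.cd) k1 k2 r hr a
    rw [hBh]
    show |(scl b.c₄ (c (F.Z ω)).c.B).fn a (phl E (F.l ω) r) -
      (scl b.c₄ (c (F.Z ω)).c.B).fn a (phl E (F.l ω') r)| ≤ 1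
    rw [scl_fn, scl_fn, ← mul_sub, abs_mul, abs_of_pos (zpow_pos (by norm_num) _)]
    have k4 : (2 : ℝ) ^ (-(b.c₄ : ℤ)) * (2 ^ Cn * (2 * 2 ^ g)) ≤ 1 := by
      have k5 : (2 : ℝ) ^ Cn * (2 * 2 ^ g) = 2 ^ (Cn + 1 + g) := by
        rw [pow_add, pow_add, pow_one]
        ring
      rw [k5, zpow_neg, zpow_natCast, inv_mul_le_iff₀ (by positivity), mul_one]
      exact pow_le_pow_right₀ (by norm_num) (by rw [bc4]; omega)
    exact (mul_le_mul_of_nonneg_left k3 (zpow_nonneg (by norm_num) _)).trans k4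
  have hkl' : Ex F.p (fun ω => -Real.log ((y ω).1 (u ω % 2 ^ l))) - ent F w l ≤ θ * k₁ := by
    have hkl1 : Ex F.p (fun ω => -Real.log ((y ω).1 (u ω % 2 ^ l))) - ent F w l ≤ θ * R := by
      refine le_trans (le_of_eq ?_) hkl
      congr 1
      refine Finset.sum_congr rfl fun ω _ => ?_
      show F.p ω * -Real.log ((y ω).1 (u ω % 2 ^ l)) = F.p ω * -Real.log ((y ω).1 (blk F w l ω))
      rw [hblk ω]
    rcases le_total R (XX P b.cA g J) with h3 | h3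
    · have h4 : R ≤ k₁ := by
        rw [min_eq_left h3] at hR'e
        omega
      have h5 : (R : ℝ) ≤ k₁ := by exact_mod_cast h4
      exact hkl1.trans (mul_le_mul_of_nonneg_left h5 hθ.le)
    · have h4 : 4 * J ^ 2 ≤ k₁ := by
        rw [min_eq_right h3] at hR'e
        omega
      have h5 : 0 ≤ ent F w l := CH_nonneg h0 _ _
      have hl2 : Real.log 2 ≤ 1 :=
        (Real.log_le_sub_one_of_pos (by norm_num)).trans (by norm_num)
      have h6 : Ex F.p (fun ω => -Real.log ((y ω).1 (u ω % 2 ^ l))) ≤ 2 * J := by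
        rw [← Ex_const hp.sum_one (2 * (J : ℝ))]
        refine Ex_mono h0 fun ω _ => ?_
        have h7 : u ω % 2 ^ l < 2 ^ l := Nat.mod_lt _ (by positivity)
        have h8 := (y ω).2.2.2 _ h7
        have h9 : -Real.log ((y ω).1 (u ω % 2 ^ l)) ≤ (l + 1 : ℕ) * Real.log 2 := by
          have h10 := Real.log_le_log (by positivity) h8
          have h11 : Real.log (1 / 2 ^ (l + 1)) = -((l + 1 : ℕ) * Real.log 2) := by
            rw [one_div, Real.log_inv, Real.log_pow]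
          linarith only [h10, h11]
        have h11 : ((l + 1 : ℕ) : ℝ) ≤ 2 * J := by
          have : l + 1 ≤ 2 * J := by omega
          exact_mod_cast this
        have h12 : ((l + 1 : ℕ) : ℝ) * Real.log 2 ≤ ((l + 1 : ℕ) : ℝ) * 1 :=
          mul_le_mul_of_nonneg_left hl2 (Nat.cast_nonneg _)
        linarith
      have h7 : (4 : ℝ) * J ^ 2 ≤ k₁ := by exact_mod_cast h4
      have h8 : (R₃ : ℝ) ≤ J := by
        have : R₃ ≤ J := by omega
        exact_mod_cast this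
      have h9 : 1 ≤ θ * J := by
        have h10 := hR₃.trans h8
        rw [div_le_iff₀ hθ] at h10
        linarith
      have h10 : θ * (4 * J ^ 2) ≤ θ * k₁ := mul_le_mul_of_nonneg_left h7 hθ.le
      have h11 : (1 : ℝ) * J ≤ θ * J * J := mul_le_mul_of_nonneg_right h9 (Nat.cast_nonneg _)
      have h12 : θ * (4 * (J : ℝ) ^ 2) = 4 * (θ * J * J) := by ring
      linarith
  have a2 := h2 l k₁ (by omega) hlk F.Ω (ℤ × F.ζ) F.p hp F.l tw (fun ω => (s ω, F.Z ω)) Bh w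
    (fun ω => u ω % 2 ^ l) y
    (by
      intro ω ω' _ _ hh
      have h3 : F.Z ω = F.Z ω' := (Prod.ext_iff.mp hh).2
      rw [hBh]
      show scl b.c₄ (c (F.Z ω)).c.B = scl b.c₄ (c (F.Z ω')).c.B
      rw [h3])
    (by
      intro ω ω' hω hω' hh
      simp only [Prod.mk.injEq] at hh
      obtain ⟨b1, b2, b3, b4⟩ := hh
      refine hy ω ω' hω hω' ?_
      refine Prod.ext (Prod.ext b1 b4) ?_
      show F.T ω / 2 ^ (J - w) = F.T ω' / 2 ^ (J - w)
      rw [huT, huT]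
      rw [htw] at b2
      exact b2)
    (fun ω => Nat.mod_lt _ (by positivity))
    (by
      intro ω ω' hω hω' _ hh r hr a
      exact hdif ω ω' hω hω' (Prod.ext_iff.mp hh).2 r (hwin ω hω hr) a)
    (by
      intro ω hω
      have h3 := hLv ω hω
      rw [hblk] at h3
      exact h3)
    (by rw [hent]; exact hkl')
  rw [hent] at a2
  -- the live points given the labels
  obtain ⟨V, hV'⟩ : ∃ V : F.Ω → (ℕ × Vl m E) × (ℤ × F.ζ),
      V = fun ω => ((u ω, v ω), (s ω, F.Z ω)) := ⟨_, rfl⟩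
  have hVe : ∀ ω ω', V ω = V ω' → u ω = u ω' ∧ v ω = v ω' ∧ s ω = s ω' ∧ F.Z ω = F.Z ω' := by
    intro ω ω' hh
    rw [hV'] at hh
    have k1 : (u ω, v ω) = (u ω', v ω') := (Prod.ext_iff.mp hh).1
    have k2 : (s ω, F.Z ω) = (s ω', F.Z ω') := (Prod.ext_iff.mp hh).2
    exact ⟨(Prod.ext_iff.mp k1).1, (Prod.ext_iff.mp k1).2, (Prod.ext_iff.mp k2).1,
      (Prod.ext_iff.mp k2).2⟩
  have hBS : ∀ ω, SJ (c (F.Z ω)).c.B w (u ω / 2 ^ l) (F.l ω) =
      2 ^ (m * b.c₄) * SJ (Bh ω) w (u ω / 2 ^ l) (F.l ω) := by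
    intro ω
    rw [hBh]
    exact (hF.scl b.c₄ (c (F.Z ω)).c.B w (u ω / 2 ^ l) (F.l ω)).symm
  have hBpos : ∀ ω, 0 < F.p ω → 0 < SJ (Bh ω) w (u ω / 2 ^ l) (F.l ω) := by
    intro ω hω
    have h3 := hSc ω hω
    rw [hBS ω] at h3
    exact pos_of_mul_pos_right h3 (by positivity)
  have a3 := hcnt F.Ω ((ℕ × Vl m E) × (ℤ × F.ζ)) F.fin F.p hp J k₁ w l 1 F.l u
    (fun ω => w + l + (v ω).al) (fun ω => (v ω).sw (u ω)) Bh (fun ω => (v ω).c.B)
    (fun ω => s ω - (m * b.c₄ : ℕ)) (fun ω => (v ω).sz) V hlk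
    (by
      intro ω ω' hω hω' hh
      obtain ⟨b1, b2, b3, b4⟩ := hVe ω ω' hh
      refine ⟨b1, ?_, ?_, ?_, ?_, ?_, ?_⟩
      · show w + l + (v ω).al = w + l + (v ω').al
        rw [b2]
      · show (v ω).sw (u ω) = (v ω').sw (u ω')
        rw [b1, b2]
      · rw [hBh]
        show scl b.c₄ (c (F.Z ω)).c.B = scl b.c₄ (c (F.Z ω')).c.B
        rw [b4]
      · show (v ω).c.B = (v ω').c.B
        rw [b2]
      · show s ω - (m * b.c₄ : ℕ) = s ω' - (m * b.c₄ : ℕ)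
        rw [b3]
      · show (v ω).sz = (v ω').sz
        rw [b2])
    (by
      intro ω hω
      refine ⟨(hok' ω hω).box, (hok' ω hω).tlt, Nat.le_add_right _ _, ?_⟩
      show (v ω).sw (u ω) / 2 ^ (w + l + (v ω).al - (w + l)) = u ω
      rw [Nat.add_sub_cancel_left]
      exact sw_div (hok' ω hω))
    (by
      intro ω hω
      have h3 := hBpos ω hω
      refine ⟨(hok' ω hω).sz, ?_, ?_, ?_⟩
      · have h4 := sze_le (l := l) (hSc ω hω)
        rw [hBS ω] at h4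
        have h5 : (2 : ℝ) ^ (s ω - (m * b.c₄ : ℕ) - (1 : ℕ)) ≤ 2 ^ (s ω - (m * b.c₄ : ℕ)) :=
          two_zpow_le (by push_cast; linarith)
        refine h5.trans ?_
        have h6 : (2 : ℝ) ^ (m * b.c₄) * 2 ^ (s ω - (m * b.c₄ : ℕ)) = 2 ^ s ω := by
          rw [two_zpow_mul_pow]
          congr 1
          ring
        have h7 : (2 : ℝ) ^ s ω ≤ 2 ^ (m * b.c₄) * SJ (Bh ω) w (u ω / 2 ^ l) (F.l ω) := by
          rw [hs]
          exact h4
        rw [← h6] at h7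
        exact le_of_mul_le_mul_left h7 (by positivity)
      · have h4 := (lt_sze (w := w) (l := l) (c := c (F.Z ω)) (x := F.l ω) (u := u ω)).le
        rw [hBS ω] at h4
        have h6 : (2 : ℝ) ^ (m * b.c₄) * 2 ^ (s ω - (m * b.c₄ : ℕ) + (1 : ℕ)) = 2 ^ (s ω + 1) := by
          rw [two_zpow_mul_pow]
          congr 1
          push_cast
          ring
        have h7 : (2 : ℝ) ^ (m * b.c₄) * SJ (Bh ω) w (u ω / 2 ^ l) (F.l ω) ≤ 2 ^ (s ω + 1) := by
          rw [hs]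
          exact h4
        rw [← h6] at h7
        exact le_of_mul_le_mul_left h7 (by positivity)
      · obtain ⟨z1, -⟩ := okv_sz hF hw (hok' ω hω)
        have h4 := SJ_le' hF (hnear ω hω).1 (hSc ω hω)
        rw [hBS ω] at h4
        have h5 : (1 : ℝ) ≤ 2 ^ (m * (w + l + (v ω).al - (w + l))) := one_le_pow₀ (by norm_num)
        have h6 : (0 : ℝ) < 2 ^ (Cn + 1) := by positivity
        have h7 : (2 : ℝ) ^ (m * nJ m E + m * R') * (2 ^ (m * b.c₄) *
            SJ (Bh ω) w (u ω / 2 ^ l) (F.l ω)) = 2 ^ (m * nJ m E) * 2 ^ k₁ * 1 *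
            SJ (Bh ω) w (u ω / 2 ^ l) (F.l ω) := by
          rw [hk₁, pow_add, pow_add]
          ring
        rw [h7] at h4
        refine (z1.trans h4).trans ?_
        refine mul_le_mul_of_nonneg_right ?_ h3.le
        refine mul_le_mul ?_ h5 zero_le_one (by positivity)
        refine mul_le_mul_of_nonneg_right ?_ (by positivity)
        linarith)
    (by
      intro ω ω' hω hω' hh
      obtain ⟨b1, b2, b3, b4⟩ := hVe ω ω' hh
      constructor
      · intro r hr a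
        refine hdif ω ω' hω hω' b4 r (hwin ω hω ?_) a
        refine win_sub (w := w) (w' := w + l) (t := tw ω) (t' := u ω) (by omega) ?_ hr
        rw [Nat.add_sub_cancel_left, htw]
      · intro r hr a
        have k1 := (hok' ω hω).mem
        have k2 := (hok' ω' hω').mem
        rw [← b2, ← b1] at k2
        have k3 := dif_pt hF hn (B := (v ω).c.B) (cd := (v ω).c.cd) k1 k2 r hr a
        refine k3.trans ?_
        have h6 : (0 : ℝ) < 2 ^ (m * nJ m E) := by positivity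
        have h7 : (2 : ℝ) ^ Cn * (2 * 1) = 2 ^ (Cn + 1) := by
          rw [pow_succ]
          ring
        rw [h7]
        linarith)
  have a3' : CH (un (2 ^ (k₁ - l)) F.p) (fun e => pYf k₁ w (Bh e.1) (F.l e.1) (tw e.1)
      (u e.1 % 2 ^ l * 2 ^ (k₁ - l) + (e.2 : ℕ))) (fun e => V e.1) ≤
      Ex F.p (fun ω => pU J k₁ w (Bh ω) (F.l ω) (tw ω)) - l * Real.log 2 +
      Ex F.p (fun ω => capv J (v ω)) + C * Real.log 3 := by
    rw [htw]
    refine a3.trans (le_of_eq ?_)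
    have h3 : Ex F.p (fun ω => ((m : ℝ) * J - (v ω).sz + m * (((w + l + (v ω).al : ℕ) : ℝ) -
        (w + l : ℕ))) * Real.log 2) = Ex F.p (fun ω => capv J (v ω)) := by
      refine Finset.sum_congr rfl fun ω _ => ?_
      show F.p ω * (((m : ℝ) * J - (v ω).sz + m * (((w + l + (v ω).al : ℕ) : ℝ) -
        (w + l : ℕ))) * Real.log 2) = F.p ω * (((m : ℝ) * J - (v ω).sz + m * (v ω).al) *
          Real.log 2)
      push_cast
      ring
    rw [h3]
    norm_num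
  have hNs := Pool.FTM.two_pos (k₁ - l)
  have hls := un_isLaw hNs hp
  have a4 : CH (un (2 ^ (k₁ - l)) F.p) (fun e => pYf k₁ w (Bh e.1) (F.l e.1) (tw e.1)
      (u e.1 % 2 ^ l * 2 ^ (k₁ - l) + (e.2 : ℕ))) (fun e => (s e.1, F.Z e.1)) ≤
      CH F.p (fun ω => (u ω, v ω)) F.Z +
      CH (un (2 ^ (k₁ - l)) F.p) (fun e => pYf k₁ w (Bh e.1) (F.l e.1) (tw e.1)
      (u e.1 % 2 ^ l * 2 ^ (k₁ - l) + (e.2 : ℕ))) (fun e => V e.1) := by
    refine (CH_le_add hls.nonneg _ (fun e => (u e.1, v e.1)) _).trans ?_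
    refine add_le_add ?_ (le_of_eq ?_)
    · have h3 : CH (un (2 ^ (k₁ - l)) F.p) (fun e => (u e.1, v e.1))
          (fun e => (s e.1, F.Z e.1)) = CH F.p (fun ω => (u ω, v ω)) (fun ω => (s ω, F.Z ω)) :=
        (un_psh hNs F.p).CH_eq (fun ω => (u ω, v ω)) (fun ω => (s ω, F.Z ω))
      rw [h3]
      exact CH_mono_cond h0 (fun _ _ _ _ hh => (Prod.ext_iff.mp hh).2)
    · have h3 : (fun e : F.Ω × Fin (2 ^ (k₁ - l)) => V e.1) =
          (fun e => ((u e.1, v e.1), (s e.1, F.Z e.1))) := by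
        rw [hV']
      rw [h3]
      rfl
  -- the entropy of the size
  obtain ⟨Ls, hLs⟩ : ∃ Ls, Ls = (m + Cw + P.cs) * R + m * nJ m E + Cw + 2 := ⟨_, rfl⟩
  have hsz : ∀ ω, 0 < F.p ω → |s ω - (c (F.Z ω)).sz| ≤ (Ls : ℤ) := by
    intro ω hω
    rw [hs, hLs]
    exact size_pt hF hw (hok' ω hω) (hR' ω hω)
  have a5 : CH p' (fun e => s (pr e)) (fun e => F.Z (pr e)) ≤ Real.log (4 * (Ls : ℝ) + 1) := by
    have h3 : CH p' (fun e => s (pr e)) (fun e => F.Z (pr e)) = CH F.p s F.Z := hpsh.CH_eq s F.Z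
    rw [h3]
    refine (CH_le_int h0 hp.sum_one s F.Z (fun _ => 2 * (Ls : ℝ)) ?_).trans (le_of_eq ?_)
    · intro ω ω' hω hω' hh
      have k1 := hsz ω hω
      have k2 := hsz ω' hω'
      rw [← hh] at k2
      have k3 : |s ω - s ω'| ≤ 2 * (Ls : ℤ) := by
        rw [abs_le] at k1 k2 ⊢
        constructor <;> linarith
      exact_mod_cast k3
    · rw [Ex_const hp.sum_one]
      congr 1
      ring
  have a6 : CH p' (fun e => (tw (pr e), b' e)) (fun e => F.Z (pr e)) ≤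
      CH p' (fun e => s (pr e)) (fun e => F.Z (pr e)) +
        CH p' (fun e => (tw (pr e), b' e)) (fun e => (s (pr e), F.Z (pr e))) :=
    CH_le_add hp'.nonneg _ (fun e => s (pr e)) _
  have hpos : ∀ e, 0 < p' e → 0 < F.p (pr e) := fun e he => hpsh.pos hp'.nonneg he
  have hbk' : ∀ e, 0 < p' e → bkv P b w (wsz (c (F.Z (pr e))) (s (pr e))) (k₁ + b.c₁)
      (F.l (pr e)) (u (pr e) / 2 ^ l) (b' e) := by
    intro e he
    rw [← huT]
    exact hbk e he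
  have hk1R : k₁ ≤ m * R + m * b.c₄ := by
    have h3 := Nat.mul_le_mul_left m hR'R
    omega
  refine ⟨E', iE, p', hp', pr, b', hpsh, ?_, ?_, ?_⟩
  · -- labels
    intro e he
    show okv P J w (c (F.Z (pr e))) k (g + _) (F.l (pr e)) (F.T (pr e) / 2 ^ (J - w)) (b' e)
    rw [huT]
    refine out_pt hJ (hcw' _ (hpos e he)) (hok' _ (hpos e he)) (hbk' e he) (by omega) ?_
    -- the floor
    have h3 := hc.dep hJ1 (hdp' _ (hpos e he))
    have h4 : R' ≤ P.fl J / (8 * ((m + 1) * (b.cA + 1))) + P.top + (g + nJ m E) := by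
      rw [hR'e]
      exact min_le_right _ _
    rw [hk₁]
    obtain ⟨q, hq⟩ : ∃ q, q = P.fl J / (8 * ((m + 1) * (b.cA + 1))) := ⟨_, rfl⟩
    have h5 : q * (8 * ((m + 1) * (b.cA + 1))) ≤ P.fl J := by
      rw [hq]
      exact Nat.div_mul_le_self _ _
    rw [← hq] at h4
    have h6 : b.cA * (m * R' + m * b.c₄ + b.c₁) ≤
        b.cA * (m * q) + b.cA * (m * (P.top + (g + nJ m E)) + m * b.c₄ + b.c₁) := by
      have h10 := Nat.mul_le_mul_left m h4
      have h9 : m * (q + P.top + (g + nJ m E)) = m * q + m * (P.top + (g + nJ m E)) := by ring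
      have h11 : b.cA * (m * R' + m * b.c₄ + b.c₁) ≤
        b.cA * (m * q + (m * (P.top + (g + nJ m E)) + m * b.c₄ + b.c₁)) :=
        Nat.mul_le_mul_left _ (by omega)
      have h12 : b.cA * (m * q + (m * (P.top + (g + nJ m E)) + m * b.c₄ + b.c₁)) =
        b.cA * (m * q) + b.cA * (m * (P.top + (g + nJ m E)) + m * b.c₄ + b.c₁) := by ring
      omega
    have h7 : 4 * (b.cA * (m * q)) ≤ P.fl J := by
      refine le_trans ?_ h5
      have : q * (8 * ((m + 1) * (b.cA + 1))) = 4 * (b.cA * (m * q)) +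
        (4 * (b.cA * (m * q)) + 8 * (q * m) + 8 * (b.cA * q) + 8 * q) := by ring
      omega
    have h8 : 4 * dep (v (pr e)).c.B ≤ P.fl J := by
      refine le_trans ?_ h3
      have : 32 * ((m + 1) * (b.cA + 1)) * dep (v (pr e)).c.B = 4 * dep (v (pr e)).c.B +
        (28 * dep (v (pr e)).c.B + 32 * m * dep (v (pr e)).c.B +
          32 * (m + 1) * (b.cA * dep (v (pr e)).c.B)) := by ring
      omega
    omega
  · intro e he
    refine ⟨(hbk' e he).al, ?_⟩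
    refine sub_pt hF hw (hok' _ (hpos e he)) (hbk' e he) (hnear _ (hpos e he)) ?_
    have h3 := hR' _ (hpos e he)
    have hR1 : 1 ≤ R := by omega
    have h4 : l + (v (pr e)).al ≤ R := by omega
    have h5 : Cw * (l + (v (pr e)).al) ≤ Cw * R := Nat.mul_le_mul_left _ h4
    have h6 : R' + b.a₀ + b.cA * (k₁ + b.c₁) ≤
        R * (1 + b.a₀ + b.cA * (m + m * b.c₄ + b.c₁)) := by
      have h7 : R * (1 + b.a₀ + b.cA * (m + m * b.c₄ + b.c₁)) =
          R + R * b.a₀ + b.cA * (m * R + R * (m * b.c₄) + R * b.c₁) := by ring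
      have h8 := Nat.le_mul_of_pos_left b.a₀ (by omega : 0 < R)
      have h9 := Nat.le_mul_of_pos_left (m * b.c₄) (by omega : 0 < R)
      have h10 := Nat.le_mul_of_pos_left b.c₁ (by omega : 0 < R)
      have h11 : b.cA * (k₁ + b.c₁) ≤ b.cA * (m * R + R * (m * b.c₄) + R * b.c₁) :=
        Nat.mul_le_mul_left _ (by omega)
      omega
    have h7 := Nat.mul_le_mul_left (m + 1) h6
    have h8 : (m * nJ m E + (m + 1) * (1 + b.a₀ + b.cA * (m + m * b.c₄ + b.c₁)) + nJ m E +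
        2 * Cw + 1) * R =
        R * (m * nJ m E) + (m + 1) * (R * (1 + b.a₀ + b.cA * (m + m * b.c₄ + b.c₁))) + R * nJ m E +
          (Cw * R + Cw * R) + R := by ring
    have h9 := Nat.le_mul_of_pos_left (m * nJ m E) (by omega : 0 < R)
    have h10 := Nat.le_mul_of_pos_left (nJ m E) (by omega : 0 < R)
    have h11 := Nat.le_mul_of_pos_right Cw (by omega : 0 < R)
    rw [h8]
    omega
  · -- the potential
    have e1 : P.cls.Psi F (fun _ _ => 0) (w + l) v = (((w + l : ℕ) : ℝ) + m * J) * Real.log 2 -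
        (Ex F.p (fun ω => P.pot J (v ω)) + Ex F.p (fun _ => 0)) -
        CH F.p (fun ω => (F.T ω / 2 ^ (J - (w + l)), v ω)) F.Z :=
      Pool.KNH.LA.Psi_eq (L := P.cls.toLA) F (fun _ _ => 0) (w + l) v
    have e2 : P.cls.Psi (F.ext p' hp' pr) (fun _ _ => 0) w b' = ((w : ℝ) + m * J) * Real.log 2 -
        (Ex p' (fun e => P.pot J (b' e)) + Ex p' (fun _ => 0)) -
        CH p' (fun e => (F.T (pr e) / 2 ^ (J - w), b' e)) (fun e => F.Z (pr e)) :=
      Pool.KNH.LA.Psi_eq (L := P.cls.toLA) (F.ext p' hp' pr) (fun _ _ => 0) w b'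
    rw [e1, e2]
    obtain ⟨Ev, hEv⟩ : ∃ Ev, Ev = Ex F.p (fun ω => P.vol (v ω).c.B) := ⟨_, rfl⟩
    obtain ⟨Ec, hEc⟩ : ∃ Ec, Ec = Ex F.p (fun ω => P.vol (c (F.Z ω)).c.B + P.cH) := ⟨_, rfl⟩
    have f1 : Ex F.p (fun ω => P.pot J (v ω)) = Ex F.p (fun ω => capv J (v ω)) + Ev := by
      rw [hEv, ← Ex_add]
      rfl
    have f2 : Ex F.p (fun ω => P.cls.exc (c (F.Z ω)) (v ω)) = Ec - Ev := by
      rw [hEv, hEc, ← Ex_sub]
      rfl
    have f3 : Ex p' (fun e => P.pot J (b' e)) ≤ Ex p' (fun e => capv J (b' e)) + Ec := by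
      have f4 : Ex p' (fun e => P.pot J (b' e)) = Ex p' (fun e => capv J (b' e)) +
          Ex p' (fun e => P.vol (b' e).c.B) := by
        rw [← Ex_add]
        rfl
      have f5 : Ex p' (fun e => P.vol (b' e).c.B) ≤ Ec := by
        rw [hEc, ← hpsh.Ex_eq (fun ω => P.vol (c (F.Z ω)).c.B + P.cH)]
        refine Ex_mono hp'.nonneg fun e he => ?_
        refine hvol _ _ ?_
        have f6 := (hbk' e he).le
        rw [ba] at f6
        exact f6
      linarith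
    have f7 : Ex F.p (fun _ => (0 : ℝ)) = 0 := Ex_const hp.sum_one 0
    have f8 : Ex p' (fun _ => (0 : ℝ)) = 0 := Ex_const hp'.sum_one 0
    have f9 : CH F.p (fun ω => (F.T ω / 2 ^ (J - (w + l)), v ω)) F.Z =
        CH F.p (fun ω => (u ω, v ω)) F.Z := by rw [hu]
    have f10 : CH p' (fun e => (F.T (pr e) / 2 ^ (J - w), b' e)) (fun e => F.Z (pr e)) =
        CH p' (fun e => (tw (pr e), b' e)) (fun e => F.Z (pr e)) := by rw [← htwT]
    have f11 : ((w + l : ℕ) : ℝ) * Real.log 2 = w * Real.log 2 + l * Real.log 2 := by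
      push_cast
      ring
    -- the error
    have hR1 : (1 : ℝ) ≤ R := by
      have : 1 ≤ R := by omega
      exact_mod_cast this
    have g1 : Real.log (4 * (Ls : ℝ) + 1) ≤ Real.log A + (ε / 8 * R - Real.log (ε / 8)) := by
      have g2 : 4 * (Ls : ℝ) + 1 ≤ A * R := by
        rw [hLs, hA]
        push_cast
        have g3 : (0 : ℝ) ≤ m * nJ m E := by positivity
        have g4 : (0 : ℝ) ≤ Cw := by positivity
        have g5 : (m * nJ m E : ℝ) * 1 ≤ m * nJ m E * R := mul_le_mul_of_nonneg_left hR1 g3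
        have g6 : (Cw : ℝ) * 1 ≤ Cw * R := mul_le_mul_of_nonneg_left hR1 g4
        linarith only [g5, g6, hR1]
      have g3 : 0 < 4 * (Ls : ℝ) + 1 := by positivity
      refine (Real.log_le_log g3 g2).trans ?_
      rw [Real.log_mul (by linarith) (by linarith)]
      have g4 := log_lin (by linarith : 0 < ε / 8) (by linarith : (0 : ℝ) < R)
      linarith
    have g2 : (k₁ : ℝ) ≤ m * R + m * b.c₄ := by exact_mod_cast hk1R
    have g3 : ε₁ * (k₁ + b.c₁ : ℕ) + ε₁ * k₁ ≤ ε / 4 * R + ε₁ * (2 * (m * b.c₄) + b.c₁) := by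
      push_cast
      have g4 : ε₁ * (k₁ : ℝ) ≤ ε₁ * (m * R + m * b.c₄) := mul_le_mul_of_nonneg_left g2 hε₁0.le
      have g5 : ε₁ * (2 * (m * R)) ≤ ε / 4 * R := by
        have g6 : ε₁ * (8 * (m + 1)) = ε := by
          rw [hε₁]
          field_simp
        have g7 : ε₁ * (2 * m) ≤ ε / 4 := by linarith only [g6, hε₁0]
        have g8 : ε₁ * (2 * (m * (R : ℝ))) = ε₁ * (2 * m) * R := by ring
        rw [g8]
        exact mul_le_mul_of_nonneg_right g7 (by linarith)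
      linarith
    have g4 : 4 * D ≤ ε * R := by
      have g5 : (R₂ : ℝ) ≤ R := by
        have : R₂ ≤ R := by omega
        exact_mod_cast this
      have g6 := hR₂.trans g5
      rw [div_le_iff₀ hε] at g6
      linarith
    rw [hD] at g4
    have g5 : 0 ≤ ε * R := by positivity
    rw [f9, f10, f1, f2, f7, f8]
    have f12 : (((w + l : ℕ) : ℝ) + m * J) * Real.log 2 = (w + m * J) * Real.log 2 +
        l * Real.log 2 := by
      push_cast
      ring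
    rw [f12]
    linarith

end Pool.LVB
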