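import Pool.Agent.H15.LVB.Szs

/-!
# One line: the domain of the box, its labels, the sizes
-/

set_option autoImplicit false

namespace Pool.LVB

open Finset Real MvPolynomial
open Pool.LAT (Bd Sp)
open Pool.KNH (LA LB Ln GS ndc)
open Pool.KNB (nJ mo cmb ev)
open Pool.GC

variable {m E : ℕ} {P : Par m E} {κ : ℝ} {J w l k g R kk : ℕ} {c : Cc m E} {x : Ln m} {u : ℕ}
  {v v' : Vl m E} {b : BP}

/-- The size of the coarse cell. -/
noncomputable def sze (w l : ℕ) (c : Cc m E) (x : Ln m) (u : ℕ) : ℤ :=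
  Int.log 2 (SJ c.c.B w (u / 2 ^ l) x)

/-- The coarse cell with another size. -/
def wsz (c : Cc m E) (s : ℤ) : Cc m E := { c with sz := s }

theorem sze_le (h0 : 0 < SJ c.c.B w (u / 2 ^ l) x) :
    (2 : ℝ) ^ sze w l c x u ≤ SJ c.c.B w (u / 2 ^ l) x := by
  have := Int.zpow_log_le_self (b := 2) (by norm_num) h0
  exact_mod_cast this

theorem lt_sze : SJ c.c.B w (u / 2 ^ l) x < 2 ^ (sze w l c x u + 1) := by
  have := Int.lt_zpow_succ_log_self (b := 2) (by norm_num) (SJ c.c.B w (u / 2 ^ l) x)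
  exact_mod_cast this

/-- The line is in the domain of the box. -/
theorem dom_pt (hg : g ≤ b.g₀) (hJ : w + l ≤ J) (hcw : c.w ≤ w) (hk : 1 ≤ b.c₃ * kk)
    (h : okv P J (w + l) c k g x u v) (h0 : 0 < SJ c.c.B w (u / 2 ^ l) x) :
    dmv P b J w (wsz c (sze w l c x u)) kk x (u / 2 ^ l) where
  box := h.box
  cw := hcw
  wJ := by omega
  win := by
    show u / 2 ^ l / 2 ^ (w - c.w) = c.t
    rw [div_div_sub hcw]
    exact h.win
  tlt := by
    have h1 := h.tlt
    rw [pow_add] at h1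
    exact Nat.div_lt_of_lt_mul (by rw [mul_comm]; exact h1)
  memc := mem_mono (pow_le_pow_right₀ (by norm_num) hg) h.memc
  topc := h.topc
  sz := by
    refine le_trans (two_zpow_le ?_) (sze_le h0)
    show sze w l c x u - (b.c₃ * kk : ℤ) ≤ sze w l c x u
    have : (0 : ℤ) ≤ b.c₃ * kk := by positivity
    linarith
  sz' := by
    refine (lt_sze (w := w) (l := l) (c := c) (x := x) (u := u)).le.trans (two_zpow_le ?_)
    show sze w l c x u + 1 ≤ sze w l c x u + (b.c₃ * kk : ℤ)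
    have : ((1 : ℕ) : ℤ) ≤ ((b.c₃ * kk : ℕ) : ℤ) := by exact_mod_cast hk
    push_cast at this
    linarith

/-- The labels of the box are labels. -/
theorem out_pt {G : ℕ} {s : ℤ} (hJ : w + l ≤ J) (hcw : c.w ≤ w)
    (h : okv P J (w + l) c k g x u v) (hb : bkv P b w (wsz c s) kk x (u / 2 ^ l) v')
    (ha : b.a₀ ≤ g + G)
    (hfl : dep v.c.B + g + b.cA * kk + 2 * nJ m E ≤ P.fl J + (g + G)) :
    okv P J w c k (g + G) x (u / 2 ^ l) v' := by
  have e1 : v'.sw (u / 2 ^ l) = u / 2 ^ l := by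
    unfold Vl.sw
    rw [hb.al, hb.sb]
    simp
  refine { box := h.box, cw := hcw, win := ?_, tlt := ?_, sb := ?_, wJ := ?_, wk := ?_, wm := ?_,
           mem := ?_, memc := ?_, le := ?_, top := hb.top, topc := h.topc, fl := ?_,
           flc := h.flc, sz := ?_, sz' := ?_ }
  · rw [div_div_sub hcw]
    exact h.win
  · have h1 := h.tlt
    rw [pow_add] at h1
    exact Nat.div_lt_of_lt_mul (by rw [mul_comm]; exact h1)
  · rw [hb.sb, hb.al]
    norm_num
  · rw [hb.al]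
    omega
  · have := h.wk
    rw [hb.al]
    omega
  · have := h.wm
    rw [hb.al]
    omega
  · rw [hb.al, e1]
    exact hb.mem
  · exact mem_mono (pow_le_pow_right₀ (by norm_num) (Nat.le_add_right _ _)) h.memc
  · exact Bd.le.mono hb.le (pow_le_pow_right₀ (by norm_num) ha)
  · intro i
    have h1 := s_le_r hb.ge i
    have h2 := s_le_r h.le i
    have h3 := neg_dep_le v.c.B i
    have h4 : (P.fl J : ℤ) ≤ c.fl := by exact_mod_cast h.flc
    have h5 : ((dep v.c.B + g + b.cA * kk + 2 * nJ m E : ℕ) : ℤ) ≤ ((P.fl J + (g + G) : ℕ) : ℤ) := by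
      exact_mod_cast hfl
    push_cast at h1 h5 ⊢
    have h6 : (wsz c s).c.B.r i = c.c.B.r i := rfl
    rw [h6] at h1
    linarith
  · rw [hb.al, e1]
    exact hb.sz
  · rw [hb.al, e1]
    exact hb.sz'

/-- The relation of the label of the box with the old label. -/
theorem sub_pt (hF : Fct m E) {Cw : ℕ} (hw : ∀ (B : Bd (nJ m E)) (w al t t' : ℕ) (x : Ln m),
    t' / 2 ^ al = t → SJ B w t x ≤ 2 ^ (Cw + Cw * al) * SJ B (w + al) t' x) {R' r : ℕ} {s : ℤ}
    (h : okv P J (w + l) c k g x u v) (hb : bkv P b w (wsz c s) kk x (u / 2 ^ l) v')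
    (hn : c.c.B.near (2 ^ R') v.c.B)
    (hr : m * nJ m E + (m + 1) * (R' + b.a₀ + b.cA * kk) + nJ m E + Cw + Cw * (l + v.al) + 1 ≤ r) :
    subv P r v v' := by
  obtain ⟨X, hX⟩ : ∃ X, X = R' + b.a₀ + b.cA * kk := ⟨_, rfl⟩
  rw [← hX] at hr
  have hr' : m * nJ m E + (m * X + X) + nJ m E + Cw + Cw * (l + v.al) + 1 ≤ r := by
    rw [add_mul, one_mul] at hr
    exact hr
  have p2 : (0 : ℝ) < 2 := by norm_num
  have h1 : v.c.B.le (2 ^ X) v'.c.B := by
    have h2 : v.c.B.le (2 ^ R' * 2 ^ (b.cA * kk)) v'.c.B := hn.2.trans hb.ge (by positivity)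
    refine h2.mono ?_
    rw [← pow_add]
    exact pow_le_pow_right₀ (by norm_num) (by omega)
  have h2 : v'.c.B.le (2 ^ X) v.c.B := by
    have h3 : v'.c.B.le (2 ^ b.a₀ * 2 ^ R') v.c.B := Bd.le.trans hb.le hn.1 (by positivity)
    refine h3.mono ?_
    rw [← pow_add]
    exact pow_le_pow_right₀ (by norm_num) (by omega)
  obtain ⟨z1, z2⟩ := okv_sz hF hw h
  have q1 : 0 < SJ v.c.B w (u / 2 ^ l) x := lt_of_lt_of_le (zpow_pos p2 _) z1
  have q2 : 0 < SJ v'.c.B w (u / 2 ^ l) x := lt_of_lt_of_le (zpow_pos p2 _) hb.sz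
  refine ⟨⟨h1.mono (pow_le_pow_right₀ (by norm_num) (by omega)),
    h2.mono (pow_le_pow_right₀ (by norm_num) (by omega))⟩, ?_, ?_⟩
  · -- the sizes
    have a1 := SJ_le' hF h1 q1
    have a2 := SJ_le' hF h2 q2
    have b1 : v'.sz < ((m * nJ m E + m * X : ℕ) : ℤ) +
        (((Cw + Cw * (l + v.al) : ℕ) : ℤ) + (v.sz + 1)) := by
      refine two_lt ?_
      rw [← two_zpow_mul_pow]
      refine lt_of_le_of_lt (hb.sz.trans a1) ?_
      exact mul_lt_mul_of_pos_left z2 (by positivity)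
    have b2 : v.sz < ((m * nJ m E + m * X : ℕ) : ℤ) + (v'.sz + 1) := by
      refine two_lt ?_
      rw [← two_zpow_mul_pow]
      refine lt_of_le_of_lt (z1.trans a2) ?_
      exact mul_lt_mul_of_pos_left hb.sz' (by positivity)
    have b3 : ((m * nJ m E + (m * X + X) + nJ m E + Cw + Cw * (l + v.al) + 1 : ℕ) : ℤ) ≤ r := by
      exact_mod_cast hr'
    have b4 : (r : ℤ) ≤ P.cs * r := by
      exact_mod_cast Nat.le_mul_of_pos_left r P.cs_pos
    push_cast at b1 b2 b3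
    have b5 : (0 : ℤ) ≤ X := by positivity
    have b6 : (0 : ℤ) ≤ nJ m E := by positivity
    have b7 : (0 : ℤ) ≤ Cw := by positivity
    have b8 : (0 : ℤ) ≤ Cw * (l + v.al) := by positivity
    rw [abs_le]
    constructor <;> linarith
  · refine dep_le_of fun i => ?_
    have a1 := s_le_r h1 i
    have a2 := neg_dep_le v.c.B i
    have b3 : ((m * nJ m E + (m * X + X) + nJ m E + Cw + Cw * (l + v.al) + 1 : ℕ) : ℤ) ≤ r := by
      exact_mod_cast hr'
    push_cast at b3 ⊢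
    have b5 : (0 : ℤ) ≤ m * X := by positivity
    have b6 : (0 : ℤ) ≤ m * nJ m E := by positivity
    have b7 : (0 : ℤ) ≤ Cw := by positivity
    have b8 : (0 : ℤ) ≤ Cw * (l + v.al) := by positivity
    linarith

/-- The size of the coarse cell is near the size of its label. -/
theorem size_pt (hF : Fct m E) {Cw : ℕ} (hw : ∀ (B : Bd (nJ m E)) (w al t t' : ℕ) (x : Ln m),
    t' / 2 ^ al = t → SJ B w t x ≤ 2 ^ (Cw + Cw * al) * SJ B (w + al) t' x)
    (h : okv P J (w + l) c k g x u v) (hR : l + v.al + P.hx c v ≤ R) :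
    |sze w l c x u - c.sz| ≤
      (((m + Cw + P.cs) * R + m * nJ m E + Cw + 2 : ℕ) : ℤ) := by
  have p2 : (0 : ℝ) < 2 := by norm_num
  obtain ⟨hn, hs⟩ := (P.hx_spec c v).mono (by omega : P.hx c v ≤ R)
  obtain ⟨z1, z2⟩ := okv_sz hF hw h
  have q1 : 0 < SJ v.c.B w (u / 2 ^ l) x := lt_of_lt_of_le (zpow_pos p2 _) z1
  have q2 : 0 < SJ c.c.B w (u / 2 ^ l) x := SJ_pos hF hn.1 q1
  have a1 := SJ_le' hF hn.2 q1
  have a2 := SJ_le' hF hn.1 q2
  have b1 : sze w l c x u < ((m * nJ m E + m * R : ℕ) : ℤ) +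
      (((Cw + Cw * (l + v.al) : ℕ) : ℤ) + (v.sz + 1)) := by
    refine two_lt ?_
    rw [← two_zpow_mul_pow]
    refine lt_of_le_of_lt ((sze_le q2).trans a1) ?_
    exact mul_lt_mul_of_pos_left z2 (by positivity)
  have b2 : v.sz < ((m * nJ m E + m * R : ℕ) : ℤ) + (sze w l c x u + 1) := by
    refine two_lt ?_
    rw [← two_zpow_mul_pow]
    refine lt_of_le_of_lt (z1.trans a2) ?_
    exact mul_lt_mul_of_pos_left lt_sze (by positivity)
  have b3 : (Cw : ℤ) * (l + v.al) ≤ Cw * R := by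
    have : l + v.al ≤ R := by omega
    exact_mod_cast Nat.mul_le_mul_left Cw this
  have b4 := abs_le.mp hs
  push_cast at b1 b2 ⊢
  have b5 : (0 : ℤ) ≤ Cw := by positivity
  have b6 : (0 : ℤ) ≤ Cw * R := by positivity
  rw [abs_le]
  constructor <;> nlinarith

/-- The lines of a coarse cell, for the smaller body. -/
theorem dif_pt (hF : Fct m E) {Cn : ℕ} (hn : ∀ (p : Polynomial ℝ) (w t : ℕ) (κ : ℝ),
    p.natDegree ≤ dD m E → (∀ i, |p.eval (nod (dD m E) w t i)| ≤ κ) → ∀ s ∈ win w t,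
      |p.eval s| ≤ 2 ^ Cn * κ) {B : Bd (nJ m E)} {cd : Fin (dD m E + 1) → Fin (nJ m E) → ℤ}
    {K : ℝ} {w t : ℕ} {x x' : Ln m} (h : (Cel.mk B cd).mem K w t x)
    (h' : (Cel.mk B cd).mem K w t x') (s : ℝ) (hs : s ∈ win w t) (a : Fin (nJ m E)) :
    |B.fn a (phl E x s) - B.fn a (phl E x' s)| ≤ 2 ^ Cn * (2 * K) := by
  obtain ⟨p, hp1, hp2⟩ := hF.pol (B.fn a) x
  obtain ⟨p', hp1', hp2'⟩ := hF.pol (B.fn a) x'
  have h1 := hn (p - p') w t (2 * K) ((Polynomial.natDegree_sub_le _ _).trans (max_le hp1 hp1'))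
    (fun i => by
      rw [Polynomial.eval_sub, hp2, hp2']
      have k1 := h i a
      have k2 := h' i a
      have k3 : |B.fn a (phl E x (nod (dD m E) w t i)) - (cd i a : ℝ)| ≤ K := k1
      have k4 : |B.fn a (phl E x' (nod (dD m E) w t i)) - (cd i a : ℝ)| ≤ K := k2
      rw [abs_le] at k3 k4 ⊢
      constructor <;> linarith) s hs
  rw [Polynomial.eval_sub, hp2, hp2'] at h1
  exact h1

end Pool.LVB
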