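import Pool.Agent.H15.LVB.Fll
import Pool.Agent.H96.GEO.Gs

/-!
# The points of the lines: live block, uniform time

The facts about curves and sizes which are needed for the box with live digits, and the comparison of
the information of the points at uniform times and at live times.
-/

set_option autoImplicit false

namespace Pool.LVB

open Finset Real MvPolynomial
open Pool.Agent.H49.Ent Pool.Agent.H32.Dense Pool.STK Pool.KA
open Pool.KM7 (Psh BL Lv)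
open Pool.FTM (un un_isLaw un_psh un_pos CH_un_snd)
open Pool.SH (Cf cpos VVSC)
open Pool.LAT (Bd Sp)
open Pool.KNH (LA LB Ln GS ndc)
open Pool.KNB (nJ mo cmb ev)
open Pool.GC

/-- **The facts about curves and sizes.** -/
structure Fct (m E : ℕ) : Prop where
  pol : ∀ (f : Sp (nJ m E) →ₗ[ℝ] ℝ) (x : Ln m), ∃ p : Polynomial ℝ, p.natDegree ≤ dD m E ∧
    ∀ s : ℝ, p.eval s = f (phl E x s)
  nod : ∃ C : ℕ, ∀ (p : Polynomial ℝ) (w t : ℕ) (κ : ℝ), p.natDegree ≤ dD m E →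
    (∀ i, |p.eval (nod (dD m E) w t i)| ≤ κ) → ∀ s ∈ win w t, |p.eval s| ≤ 2 ^ C * κ
  mono : ∀ (B : Bd (nJ m E)) (w w' t t' : ℕ) (x : Ln m), w ≤ w' → t' / 2 ^ (w' - w) = t →
    SJ B w' t' x ≤ SJ B w t x
  win : ∃ C : ℕ, ∀ (B : Bd (nJ m E)) (w al t t' : ℕ) (x : Ln m), t' / 2 ^ al = t →
    SJ B w t x ≤ 2 ^ (C + C * al) * SJ B (w + al) t' x
  bod : ∀ (A B : Bd (nJ m E)) (κ : ℝ) (w t : ℕ) (x : Ln m), A.le κ B → 0 < κ →
    SJ B w t x ≤ (nJ m E * κ) ^ m * SJ A w t x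
  att : ∀ (B : Bd (nJ m E)) (w t : ℕ) (x : Ln m), ∃ S, SS B w t S x = SJ B w t x
  scl : ∀ (a : ℕ) (B : Bd (nJ m E)) (w t : ℕ) (x : Ln m),
    2 ^ (m * a) * SJ (scl a B) w t x = SJ B w t x

variable {m E : ℕ}

/-- The coefficients of the curve of `m` functions of a body in a window. -/
theorem exists_cof (hF : Fct m E) (B : Bd (nJ m E)) (S : Fin m → Fin (nJ m E)) (w t : ℕ)
    (x : Ln m) : ∃ c : Cf m (dD m E), ∀ (s : ℝ) (i : Fin m),
      cpos c s i = B.fn (S i) (phl E x (((t : ℝ) + s) / 2 ^ w)) := by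
  choose p hp1 hp2 using fun i : Fin m => hF.pol (B.fn (S i)) x
  obtain ⟨L, hL⟩ : ∃ L : Polynomial ℝ,
      L = Polynomial.C ((2 : ℝ) ^ w)⁻¹ * (Polynomial.C (t : ℝ) + Polynomial.X) := ⟨_, rfl⟩
  have hLe : ∀ s : ℝ, L.eval s = ((t : ℝ) + s) / 2 ^ w := by
    intro s
    rw [hL]
    simp only [Polynomial.eval_mul, Polynomial.eval_C, Polynomial.eval_add, Polynomial.eval_X]
    field_simp
  have hLd : L.natDegree ≤ 1 := by
    rw [hL]
    refine Polynomial.natDegree_mul_le.trans ?_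
    rw [Polynomial.natDegree_C, zero_add]
    refine (Polynomial.natDegree_add_le _ _).trans ?_
    rw [Polynomial.natDegree_C]
    simp
  refine ⟨fun j i => ((p i).comp L).coeff j, fun s i => ?_⟩
  have h1 : ((p i).comp L).natDegree < dD m E + 2 := by
    have h2 := Polynomial.natDegree_comp (p := p i) (q := L)
    have h3 : (p i).natDegree * L.natDegree ≤ dD m E * 1 := Nat.mul_le_mul (hp1 i) hLd
    omega
  have h2 : ((p i).comp L).eval s = B.fn (S i) (phl E x (((t : ℝ) + s) / 2 ^ w)) := by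
    rw [Polynomial.eval_comp, hLe, hp2]
  rw [← h2, Polynomial.eval_eq_sum_range' h1]
  unfold cpos
  rw [Finset.sum_range]
  refine Finset.sum_congr rfl fun j _ => ?_
  ring

open Classical in
/-- The coefficients of the curve of the maximal minor. -/
noncomputable def cof (B : Bd (nJ m E)) (w t : ℕ) (x : Ln m) : Cf m (dD m E) :=
  if h : ∃ (S : Fin m → Fin (nJ m E)) (c : Cf m (dD m E)), Sm B w t x = some S ∧
    ∀ (s : ℝ) (i : Fin m), cpos c s i = B.fn (S i) (phl E x (((t : ℝ) + s) / 2 ^ w)) then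
    h.choose_spec.choose else 0

theorem cof_spec (hF : Fct m E) {B : Bd (nJ m E)} {w t : ℕ} {x : Ln m}
    {S : Fin m → Fin (nJ m E)} (hS : Sm B w t x = some S) (s : ℝ) (i : Fin m) :
    cpos (cof B w t x) s i = B.fn (S i) (phl E x (((t : ℝ) + s) / 2 ^ w)) := by
  classical
  have h : ∃ (S : Fin m → Fin (nJ m E)) (c : Cf m (dD m E)), Sm B w t x = some S ∧
      ∀ (s : ℝ) (i : Fin m), cpos c s i = B.fn (S i) (phl E x (((t : ℝ) + s) / 2 ^ w)) := by
    obtain ⟨c, hc⟩ := exists_cof hF B S w t x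
    exact ⟨S, c, hS, hc⟩
  have h1 : cof B w t x = h.choose_spec.choose := dif_pos h
  obtain ⟨h2, h3⟩ := h.choose_spec.choose_spec
  have h4 : S = h.choose := Option.some.inj (hS.symm.trans h2)
  rw [h1, h3 s i, ← h4]

theorem cof_ptc (hF : Fct m E) {B : Bd (nJ m E)} {w t : ℕ} {x : Ln m}
    {S : Fin m → Fin (nJ m E)} (hS : Sm B w t x = some S) (k n : ℕ) :
    ptc B S k w t x n = pR k (cof B w t x) n := by
  funext i
  show ⌊(2 : ℝ) ^ k * B.fn (S i) (phl E x (((t : ℝ) + (n : ℝ) / 2 ^ k) / 2 ^ w))⌋ =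
    ⌊(2 : ℝ) ^ k * cpos (cof B w t x) ((n : ℝ) / 2 ^ k) i⌋
  rw [cof_spec hF hS]

theorem Sm_some (hF : Fct m E) (B : Bd (nJ m E)) (w t : ℕ) (x : Ln m) :
    ∃ S, Sm B w t x = some S := by
  classical
  have h := hF.att B w t x
  exact ⟨h.choose, dif_pos h⟩

section pts

variable {Ω ζ : Type} [Fintype Ω] {p : Ω → ℝ}

/-- The information of the points. -/
theorem CH_pYf (hF : Fct m E) {Ω' : Type} [Fintype Ω'] {p' : Ω' → ℝ} (hp' : ∀ e, 0 ≤ p' e)
    (k w : ℕ) (B : Ω' → Bd (nJ m E)) (x : Ω' → Ln m) (t n : Ω' → ℕ) (Z : Ω' → ζ) :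
    CH p' (fun e => pYf k w (B e) (x e) (t e) (n e)) Z =
      CH p' (fun e => (Sm (B e) w (t e) (x e), t e)) Z +
      CH p' (fun e => (pR k (cof (B e) w (t e) (x e)) (n e), n e))
        (fun e => ((Sm (B e) w (t e) (x e), t e), Z e)) := by
  have h1 : CH p' (fun e => pYf k w (B e) (x e) (t e) (n e)) Z =
      CH p' (fun e => ((pR k (cof (B e) w (t e) (x e)) (n e), n e),
        (Sm (B e) w (t e) (x e), t e))) Z := by
    refine CH_congr hp' ?_ ?_ (fun _ _ _ _ h => h) (fun _ _ _ _ h => h)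
    · intro e e' _ _ hh
      have h2 : pYf k w (B e) (x e) (t e) (n e) = pYf k w (B e') (x e') (t e') (n e') :=
        (Prod.ext_iff.mp hh).1
      obtain ⟨S, hS⟩ := Sm_some hF (B e) w (t e) (x e)
      obtain ⟨S', hS'⟩ := Sm_some hF (B e') w (t e') (x e')
      unfold pYf at h2
      rw [hS, hS'] at h2
      simp only [Option.map_some, Prod.mk.injEq, Option.some.injEq] at h2
      obtain ⟨⟨a1, a2⟩, a3, a4⟩ := h2
      rw [cof_ptc hF hS, cof_ptc hF hS'] at a4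
      refine Prod.ext (Prod.ext a4 a2) (Prod.ext ?_ a1)
      show Sm (B e) w (t e) (x e) = Sm (B e') w (t e') (x e')
      rw [hS, hS', a3]
    · intro e e' _ _ hh
      have h2 := (Prod.ext_iff.mp hh).1
      simp only [Prod.mk.injEq] at h2
      obtain ⟨⟨a1, a2⟩, a3, a4⟩ := h2
      obtain ⟨S, hS⟩ := Sm_some hF (B e) w (t e) (x e)
      obtain ⟨S', hS'⟩ := Sm_some hF (B e') w (t e') (x e')
      show pYf k w (B e) (x e) (t e) (n e) = pYf k w (B e') (x e') (t e') (n e')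
      unfold pYf
      have h3 : S = S' := by
        rw [hS, hS'] at a3
        exact Option.some.inj a3
      rw [hS, hS', Option.map_some, Option.map_some, cof_ptc hF hS, cof_ptc hF hS', a1, a2, a4, h3]
  rw [h1, CH_chain hp']

/-- **The points at uniform times and at live times.** -/
theorem unif_live (hF : Fct m E) (h : VVSC (m + 1) (dD m E)) : ∀ ε : ℝ, 0 < ε → ∃ η : ℝ, 0 < η ∧
    ∀ K : ℕ, 3 / 2 ^ K ≤ η → ∃ θ : ℝ, 0 < θ ∧ ∃ R₀ : ℕ, ∀ l k : ℕ, R₀ ≤ k → l ≤ k →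
    ∀ (Ω ζ : Type) [Fintype Ω] (p : Ω → ℝ), IsLaw p → ∀ (x : Ω → Ln m) (t : Ω → ℕ) (Z : Ω → ζ)
      (B : Ω → Bd (nJ m E)) (w : ℕ) (q : Ω → ℕ) (y : Ω → BL l),
    Det p Z B → Det p (fun ω => (x ω, (t ω, Z ω))) y → (∀ ω, q ω < 2 ^ l) →
    (∀ ω ω', 0 < p ω → 0 < p ω' → t ω = t ω' → Z ω = Z ω' → ∀ s ∈ win w (t ω), ∀ a,
      |(B ω).fn a (phl E (x ω) s) - (B ω).fn a (phl E (x ω') s)| ≤ 1) →
    (∀ ω, 0 < p ω → Lv l K η (y ω).1 (q ω)) →
    Ex p (fun ω => -Real.log ((y ω).1 (q ω))) - CH p q (fun ω => (x ω, (t ω, Z ω))) ≤ θ * k →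
    CH (un (2 ^ k) p) (fun e => pYf k w (B e.1) (x e.1) (t e.1) e.2) (fun e => Z e.1) ≤
      CH (un (2 ^ (k - l)) p) (fun e => pYf k w (B e.1) (x e.1) (t e.1)
        (q e.1 * 2 ^ (k - l) + (e.2 : ℕ))) (fun e => Z e.1) +
      l * Real.log 2 - CH p q (fun ω => (x ω, (t ω, Z ω))) + ε * k := by
  intro ε hε
  obtain ⟨η, hη, h1⟩ := fillN h ε hε
  refine ⟨η, hη, fun K hK => ?_⟩
  obtain ⟨θ, hθ, R₀, h2⟩ := h1 K hK
  refine ⟨θ, hθ, R₀, fun l k hk hlk Ω ζ _ p hp x t Z B w q y hB hy hq hN hL hkl => ?_⟩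
  obtain ⟨S, hS⟩ := Classical.axiomOfChoice (fun ω => Sm_some hF (B ω) w (t ω) (x ω))
  obtain ⟨V, hV⟩ : ∃ V : Ω → (Option (Fin m → Fin (nJ m E)) × ℕ) × ζ,
      V = fun ω => ((Sm (B ω) w (t ω) (x ω), t ω), Z ω) := ⟨_, rfl⟩
  obtain ⟨a, ha⟩ : ∃ a : Ω → Cf m (dD m E), a = fun ω => cof (B ω) w (t ω) (x ω) := ⟨_, rfl⟩
  have hVt : ∀ ω ω', V ω = V ω' → t ω = t ω' := by
    intro ω ω' hh
    rw [hV] at hh
    exact (Prod.ext_iff.mp (Prod.ext_iff.mp hh).1).2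
  have hVZ : ∀ ω ω', V ω = V ω' → Z ω = Z ω' := by
    intro ω ω' hh
    rw [hV] at hh
    exact (Prod.ext_iff.mp hh).2
  have hVS : ∀ ω ω', V ω = V ω' → S ω = S ω' := by
    intro ω ω' hh
    rw [hV] at hh
    have h3 : Sm (B ω) w (t ω) (x ω) = Sm (B ω') w (t ω') (x ω') :=
      (Prod.ext_iff.mp (Prod.ext_iff.mp hh).1).1
    rw [hS, hS] at h3
    exact Option.some.inj h3
  have hq2 : CH p q (fun ω => (x ω, V ω)) = CH p q (fun ω => (x ω, (t ω, Z ω))) := by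
    refine CH_congr hp.nonneg (fun _ _ _ _ h => (Prod.ext_iff.mp h).1)
      (fun _ _ _ _ h => (Prod.ext_iff.mp h).1) ?_ ?_
    · intro ω ω' _ _ hh
      have h3 : x ω = x ω' := (Prod.ext_iff.mp hh).1
      have h4 : V ω = V ω' := (Prod.ext_iff.mp hh).2
      exact Prod.ext h3 (Prod.ext (hVt _ _ h4) (hVZ _ _ h4))
    · intro ω ω' hω hω' hh
      simp only [Prod.mk.injEq] at hh
      obtain ⟨h3, h4, h5⟩ := hh
      have h6 : B ω = B ω' := hB ω ω' hω hω' h5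
      refine Prod.ext h3 ?_
      show V ω = V ω'
      rw [hV]
      show ((Sm (B ω) w (t ω) (x ω), t ω), Z ω) = ((Sm (B ω') w (t ω') (x ω'), t ω'), Z ω')
      rw [h3, h4, h5, h6]
  have hmain := h2 l k hk hlk Ω p hp (Ln m) _ x V a q y
    (by
      intro ω ω' hω hω' hh
      have h3 : x ω = x ω' := (Prod.ext_iff.mp hh).1
      have h4 : V ω = V ω' := (Prod.ext_iff.mp hh).2
      have h5 : B ω = B ω' := hB ω ω' hω hω' (hVZ _ _ h4)
      rw [ha]
      show cof (B ω) w (t ω) (x ω) = cof (B ω') w (t ω') (x ω')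
      rw [h3, h5, hVt _ _ h4])
    (by
      intro ω ω' hω hω' hh
      have h3 : x ω = x ω' := (Prod.ext_iff.mp hh).1
      have h4 : V ω = V ω' := (Prod.ext_iff.mp hh).2
      exact hy ω ω' hω hω' (Prod.ext h3 (Prod.ext (hVt _ _ h4) (hVZ _ _ h4))))
    hq
    (by
      intro ω ω' hω hω' hh s hs0 hs1 i
      have h3 := hVt _ _ hh
      have h4 := hVZ _ _ hh
      have h5 := hVS _ _ hh
      have h6 : B ω = B ω' := hB ω ω' hω hω' h4
      rw [ha]
      show |cpos (cof (B ω) w (t ω) (x ω)) s i - cpos (cof (B ω') w (t ω') (x ω')) s i| ≤ 1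
      rw [cof_spec hF (hS ω), cof_spec hF (hS ω'), ← h5, ← h3, ← h6]
      refine hN ω ω' hω hω' h3 h4 _ ?_ _
      constructor
      · exact div_le_div_of_nonneg_right (by linarith) (by positivity)
      · exact div_le_div_of_nonneg_right (by linarith) (by positivity))
    hL
    (by rw [hq2]; exact hkl)
  rw [hq2] at hmain
  have hNk := Pool.FTM.two_pos k
  have hNs := Pool.FTM.two_pos (k - l)
  have hlk2 := un_isLaw hNk hp
  have hls := un_isLaw hNs hp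
  -- the uniform side
  have e1 := CH_pYf hF hlk2.nonneg k w (fun e => B e.1) (fun e => x e.1) (fun e => t e.1)
    (fun e : Ω × Fin (2 ^ k) => (e.2 : ℕ)) (fun e => Z e.1)
  have e2 : CH (un (2 ^ k) p) (fun e => (Sm (B e.1) w (t e.1) (x e.1), t e.1)) (fun e => Z e.1) =
      CH p (fun ω => (Sm (B ω) w (t ω) (x ω), t ω)) Z :=
    (un_psh hNk p).CH_eq (fun ω => (Sm (B ω) w (t ω) (x ω), t ω)) Z
  have e3 : CH (un (2 ^ k) p) (fun e => (pR k (cof (B e.1) w (t e.1) (x e.1)) (e.2 : ℕ), (e.2 : ℕ)))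
      (fun e => ((Sm (B e.1) w (t e.1) (x e.1), t e.1), Z e.1)) =
      CH (un (2 ^ k) p) (fun e => pR k (a e.1) e.2) (fun e => (e.2, V e.1)) + k * Real.log 2 := by
    have e4 : CH (un (2 ^ k) p) (fun e => (pR k (cof (B e.1) w (t e.1) (x e.1)) (e.2 : ℕ), (e.2 : ℕ)))
        (fun e => ((Sm (B e.1) w (t e.1) (x e.1), t e.1), Z e.1)) =
        CH (un (2 ^ k) p) (fun e => (pR k (a e.1) e.2, e.2)) (fun e => V e.1) := by
      rw [ha, hV]
      refine CH_congr hlk2.nonneg ?_ ?_ (fun _ _ _ _ h => h) (fun _ _ _ _ h => h)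
      · intro e e' _ _ h
        have h7 := Prod.ext_iff.mp (Prod.ext_iff.mp h).1
        exact Prod.ext h7.1 (Fin.ext h7.2)
      · intro e e' _ _ h
        have h7 := Prod.ext_iff.mp (Prod.ext_iff.mp h).1
        refine Prod.ext h7.1 ?_
        show (e.2 : ℕ) = (e'.2 : ℕ)
        rw [show e.2 = e'.2 from h7.2]
    rw [e4, CH_chain hlk2.nonneg, add_comm]
    congr 1
    rw [← Pool.FTM.log_two_pow k]
    exact CH_un_snd hNk hp V
  -- the live side
  have e5 := CH_pYf hF hls.nonneg k w (fun e => B e.1) (fun e => x e.1) (fun e => t e.1)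
    (fun e : Ω × Fin (2 ^ (k - l)) => q e.1 * 2 ^ (k - l) + (e.2 : ℕ)) (fun e => Z e.1)
  have e6 : CH (un (2 ^ (k - l)) p) (fun e => (Sm (B e.1) w (t e.1) (x e.1), t e.1))
      (fun e => Z e.1) = CH p (fun ω => (Sm (B ω) w (t ω) (x ω), t ω)) Z :=
    (un_psh hNs p).CH_eq (fun ω => (Sm (B ω) w (t ω) (x ω), t ω)) Z
  rw [e2, e3] at e1
  rw [e6] at e5
  rw [ha, hV] at hmain
  rw [ha, hV] at e1
  linarith

end pts

end Pool.LVB
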