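import Pool.Agent.H15.LVB.Cnl
import Pool.Agent.H96.GEO.Bod

/-!
# Sizes and floors of a label which is not deep
-/

set_option autoImplicit false

namespace Pool.LVB

open Finset Real MvPolynomial
open Pool.LAT (Bd Sp)
open Pool.KNH (LA LB Ln GS ndc)
open Pool.KNB (nJ mo cmb ev)
open Pool.GC

variable {m E : ℕ}

/-! ### Numbers -/

theorem one_le_ndc (hm : 1 ≤ m) {κ : ℝ} (hκ : 0 ≤ κ) : 1 ≤ ndc m κ := by
  unfold ndc
  have h1 : (1 : ℝ) ≤ m := by exact_mod_cast hm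
  have h2 : (0.6 : ℝ) < Real.log 2 := by
    have := Real.log_two_gt_d9
    linarith
  nlinarith

/-- The constants of the class: the depth. -/
structure Cst (P : Par m E) (κ : ℝ) (cA : ℕ) : Prop where
  hm : 1 ≤ m
  κ0 : 0 ≤ κ
  cd : 32 * ((m + 1) * (cA + 1)) * ndc m κ ≤ P.cd

theorem Cst.sq {P : Par m E} {κ : ℝ} {cA : ℕ} (h : Cst P κ cA) {J : ℕ} (hJ : 1 ≤ J) :
    32 * ((m + 1) * (cA + 1)) * J ^ 2 ≤ P.fl J := by
  have h1 := P.fl_large J hJ
  have h2 := one_le_ndc h.hm h.κ0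
  have h3 : (32 * (((m : ℝ) + 1) * (cA + 1))) * 1 ≤ 32 * ((m + 1) * (cA + 1)) * ndc m κ :=
    mul_le_mul_of_nonneg_left h2 (by positivity)
  have h4 : (32 * (((m : ℝ) + 1) * (cA + 1))) ≤ P.cd := by linarith [h.cd]
  have h5 : (32 * (((m : ℝ) + 1) * (cA + 1))) * (J : ℝ) ^ 2 ≤ P.fl J :=
    (mul_le_mul_of_nonneg_right h4 (by positivity)).trans h1
  exact_mod_cast h5

theorem Cst.dep {P : Par m E} {κ : ℝ} {cA : ℕ} (h : Cst P κ cA) {J : ℕ} (hJ : 1 ≤ J) {d : ℕ}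
    (hd : P.cd * d / P.fl J < ndc m κ) : 32 * ((m + 1) * (cA + 1)) * d ≤ P.fl J := by
  have h1 := h.sq hJ
  have hfl : 0 < P.fl J := by
    have h2 : 0 < 32 * ((m + 1) * (cA + 1)) * J ^ 2 := by positivity
    omega
  have hfl' : (0 : ℝ) < P.fl J := by exact_mod_cast hfl
  have h2 := one_le_ndc h.hm h.κ0
  rw [div_lt_iff₀ hfl'] at hd
  have h3 : 32 * ((m + 1) * (cA + 1)) * ndc m κ * d ≤ P.cd * d :=
    mul_le_mul_of_nonneg_right h.cd (Nat.cast_nonneg _)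
  have h4 : ndc m κ * (32 * ((m + 1) * (cA + 1)) * d) ≤ ndc m κ * P.fl J := by
    have : ndc m κ * (32 * ((m + 1) * (cA + 1)) * d) = 32 * ((m + 1) * (cA + 1)) * ndc m κ * d := by
      ring
    linarith
  have h5 : (32 * (((m : ℝ) + 1) * (cA + 1)) * d) ≤ P.fl J :=
    le_of_mul_le_mul_left h4 (by linarith)
  exact_mod_cast h5

/-- The bound for the resolution. -/
noncomputable def XX (P : Par m E) (cA g J : ℕ) : ℕ :=
  P.fl J / (8 * ((m + 1) * (cA + 1))) + P.top + (g + nJ m E)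

theorem Cst.X_sq {P : Par m E} {κ : ℝ} {cA : ℕ} (h : Cst P κ cA) {J : ℕ} (hJ : 1 ≤ J) (g : ℕ) :
    4 * J ^ 2 ≤ XX P cA g J := by
  have h1 := h.sq hJ
  have h2 : 4 * J ^ 2 ≤ P.fl J / (8 * ((m + 1) * (cA + 1))) := by
    rw [Nat.le_div_iff_mul_le (by positivity)]
    nlinarith
  unfold XX
  omega

theorem Cst.X_dep {P : Par m E} {κ : ℝ} {cA : ℕ} (h : Cst P κ cA) {J : ℕ} (hJ : 1 ≤ J) (g : ℕ)
    {d : ℕ} (hd : P.cd * d / P.fl J < ndc m κ) : d + P.top + (g + nJ m E) ≤ XX P cA g J := by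
  have h1 := h.dep hJ hd
  have h2 : d ≤ P.fl J / (8 * ((m + 1) * (cA + 1))) := by
    rw [Nat.le_div_iff_mul_le (by positivity)]
    nlinarith
  unfold XX
  omega

/-- The depth bounds the sides. -/
theorem neg_dep_le {N : ℕ} (B : Bd N) (i : Fin N) : -(dep B : ℤ) ≤ B.r i := by
  unfold dep
  have h1 : (-B.r i).toNat ≤ univ.sup fun i => (-B.r i).toNat :=
    Finset.le_sup (f := fun i => (-B.r i).toNat) (mem_univ i)
  have h2 : -B.r i ≤ ((-B.r i).toNat : ℤ) := Int.self_le_toNat _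
  have h3 : ((-B.r i).toNat : ℤ) ≤ ((univ.sup fun i => (-B.r i).toNat : ℕ) : ℤ) := by
    exact_mod_cast h1
  linarith

theorem dep_le_of {N : ℕ} {B : Bd N} {n : ℕ} (h : ∀ i, -(n : ℤ) ≤ B.r i) : dep B ≤ n := by
  unfold dep
  refine Finset.sup_le fun i _ => ?_
  have := h i
  omega

/-- Two bodies, the first one of bounded sides, the second one of bounded depth. -/
theorem le_of_dep {N : ℕ} {A B : Bd N} {top d n : ℕ} (hA : ∀ i, A.r i ≤ top) (hB : dep B ≤ d)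
    (hn : d + top + N ≤ n) : A.le (2 ^ n) B := by
  intro x hx a
  rw [← Bd.mul_one] at hx
  have h1 := norm_le hA zero_le_one hx
  have h2 : |inner ℝ (B.e a) x| ≤ ‖B.e a‖ * ‖x‖ := abs_real_inner_le_norm _ _
  rw [B.e.norm_eq_one, one_mul] at h2
  have h3 : (N : ℝ) ≤ 2 ^ N := by exact_mod_cast Nat.lt_two_pow_self.le
  have h4 : (2 : ℝ) ^ (-(d : ℤ)) ≤ 2 ^ B.r a := by
    refine two_zpow_le ?_
    have h5 := neg_dep_le B a
    have h6 : (dep B : ℤ) ≤ d := by exact_mod_cast hB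
    linarith
  have h5 : (N : ℝ) * (1 * 2 ^ top) ≤ 2 ^ N * 2 ^ top := by
    rw [one_mul]
    exact mul_le_mul_of_nonneg_right h3 (by positivity)
  have h6 : (2 : ℝ) ^ N * 2 ^ top ≤ 2 ^ n * 2 ^ (-(d : ℤ)) := by
    have h7 : (2 : ℝ) ^ N * 2 ^ top = 2 ^ (((N + top : ℕ) : ℤ)) := by
      rw [zpow_natCast, pow_add]
    have h8 : (2 : ℝ) ^ n * 2 ^ (-(d : ℤ)) = 2 ^ ((n : ℤ) + (-(d : ℤ))) := by
      rw [zpow_add₀ (by norm_num), zpow_natCast]
    rw [h7, h8]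
    refine two_zpow_le ?_
    push_cast
    have h9 : (d : ℤ) + top + N ≤ n := by exact_mod_cast hn
    linarith
  have h7 : (2 : ℝ) ^ n * 2 ^ (-(d : ℤ)) ≤ 2 ^ n * (2 : ℝ) ^ B.r a :=
    mul_le_mul_of_nonneg_left h4 (by positivity)
  exact h2.trans (h1.trans (h5.trans (h6.trans h7)))

/-! ### Sizes -/

/-- The size is monotone, with powers of two. -/
theorem SJ_le (hF : Fct m E) {A B : Bd (nJ m E)} {n : ℕ} (h : A.le (2 ^ n) B) (w t : ℕ)
    (x : Ln m) : SJ B w t x ≤ 2 ^ (m * nJ m E + m * n) * SJ A w t x ∨ SJ A w t x < 0 := by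
  by_cases h0 : SJ A w t x < 0
  · right; exact h0
  left
  push Not at h0
  refine (hF.bod A B (2 ^ n) w t x h (by positivity)).trans ?_
  refine mul_le_mul_of_nonneg_right ?_ h0
  rw [mul_pow]
  have h3 : ((nJ m E : ℕ) : ℝ) ≤ 2 ^ nJ m E := by exact_mod_cast Nat.lt_two_pow_self.le
  calc ((nJ m E : ℕ) : ℝ) ^ m * (2 ^ n) ^ m ≤ (2 ^ nJ m E) ^ m * (2 ^ n) ^ m :=
        mul_le_mul_of_nonneg_right (pow_le_pow_left₀ (Nat.cast_nonneg _) h3 m) (by positivity)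
    _ = 2 ^ (m * nJ m E + m * n) := by
        rw [← pow_mul, ← pow_mul, ← pow_add]
        congr 1
        ring

theorem SJ_pos (hF : Fct m E) {A B : Bd (nJ m E)} {n : ℕ} (h : A.le (2 ^ n) B) {w t : ℕ}
    {x : Ln m} (hB : 0 < SJ B w t x) : 0 < SJ A w t x := by
  have h1 := hF.bod A B (2 ^ n) w t x h (by positivity)
  by_contra h2
  push Not at h2
  have h3 : (0 : ℝ) ≤ ((nJ m E : ℕ) * (2 : ℝ) ^ n) ^ m := by positivity
  have h4 := mul_nonpos_of_nonneg_of_nonpos h3 h2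
  linarith

theorem SJ_le' (hF : Fct m E) {A B : Bd (nJ m E)} {n : ℕ} (h : A.le (2 ^ n) B) {w t : ℕ}
    {x : Ln m} (hA : 0 < SJ A w t x) :
    SJ B w t x ≤ 2 ^ (m * nJ m E + m * n) * SJ A w t x := by
  rcases SJ_le hF h w t x with h1 | h1
  · exact h1
  · linarith

theorem two_lt {a b : ℤ} (h : (2 : ℝ) ^ a < 2 ^ b) : a < b :=
  (zpow_lt_zpow_iff_right₀ (by norm_num : (1 : ℝ) < 2)).mp h

theorem two_zpow_mul_pow (a : ℤ) (n : ℕ) : (2 : ℝ) ^ n * 2 ^ a = 2 ^ ((n : ℤ) + a) := by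
  rw [zpow_add₀ (by norm_num), zpow_natCast]

/-! ### One label -/

section one

variable {P : Par m E} {κ : ℝ} {J w l k g R : ℕ} {c : Cc m E} {x : Ln m} {u : ℕ} {v : Vl m E}

theorem sw_div (h : okv P J (w + l) c k g x u v) : v.sw u / 2 ^ v.al = u := by
  unfold Vl.sw
  rw [mul_comm, Nat.mul_add_div (by positivity), Nat.div_eq_of_lt h.sb, add_zero]

theorem sw_div' (h : okv P J (w + l) c k g x u v) : v.sw u / 2 ^ (l + v.al) = u / 2 ^ l := by
  rw [Nat.add_comm l, pow_add, ← Nat.div_div_eq_div_mul, sw_div h]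

/-- The size of the body of a label in the large window. -/
theorem okv_sz (hF : Fct m E) {Cw : ℕ} (hw : ∀ (B : Bd (nJ m E)) (w al t t' : ℕ) (x : Ln m),
    t' / 2 ^ al = t → SJ B w t x ≤ 2 ^ (Cw + Cw * al) * SJ B (w + al) t' x)
    (h : okv P J (w + l) c k g x u v) :
    (2 : ℝ) ^ v.sz ≤ SJ v.c.B w (u / 2 ^ l) x ∧
      SJ v.c.B w (u / 2 ^ l) x < 2 ^ (((Cw + Cw * (l + v.al) : ℕ) : ℤ) + (v.sz + 1)) := by
  have e1 : w + (l + v.al) = w + l + v.al := by omega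
  constructor
  · refine h.sz.trans ?_
    refine hF.mono v.c.B w (w + l + v.al) (u / 2 ^ l) (v.sw u) x (by omega) ?_
    have e2 : w + l + v.al - w = l + v.al := by omega
    rw [e2]
    exact sw_div' h
  · have h1 := hw v.c.B w (l + v.al) (u / 2 ^ l) (v.sw u) x (sw_div' h)
    rw [e1] at h1
    refine lt_of_le_of_lt h1 ?_
    rw [← two_zpow_mul_pow]
    exact mul_lt_mul_of_pos_left h.sz' (by positivity)

theorem okv_SJ_pos (hF : Fct m E) (h : okv P J (w + l) c k g x u v) :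
    0 < SJ v.c.B w (u / 2 ^ l) x := by
  obtain ⟨Cw, hw⟩ := hF.win
  exact lt_of_lt_of_le (zpow_pos (by norm_num) _) (okv_sz hF hw h).1

/-- The bodies of the label and of the coarse cell. -/
theorem okv_near {cA : ℕ} (hc : Cst P κ cA) (hl : 1 ≤ l) (hJ : w + l ≤ J)
    (h : okv P J (w + l) c k g x u v) (hd : P.cd * dep v.c.B / P.fl J < ndc m κ)
    (hR : P.hx c v ≤ R) : c.c.B.near (2 ^ min R (XX P cA g J)) v.c.B := by
  rcases le_total R (XX P cA g J) with h1 | h1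
  · rw [min_eq_left h1]
    exact (P.hx_spec c v).1.mono (pow_le_pow_right₀ (by norm_num) hR)
  · rw [min_eq_right h1]
    have h2 := hc.X_dep (by omega : 1 ≤ J) g hd
    refine ⟨le_of_dep (d := dep v.c.B) h.topc le_rfl (by omega), ?_⟩
    exact h.le.mono (pow_le_pow_right₀ (by norm_num) (by omega))

end one

end Pool.LVB
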