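import Pool.Agent.H15.LVB.Dex
import Pool.Agent.H9.SH.Fil

/-!
# Filling the times of a family of curves: live times in the mean
-/

set_option autoImplicit false

namespace Pool.LVB

open Finset Real
open Pool.Agent.H49.Ent Pool.Agent.H32.Dense Pool.STK Pool.KA
open Pool.KM7 (Psh cond_isLaw avg_Ex avg_CH)
open Pool.FTM (un un_isLaw un_psh un_pos CH_un_snd)
open Pool.SH (CFam Cf cpos VVSC)

/-! ### Mixtures -/

section mix

variable {Ω : Type} [Fintype Ω] {p : Ω → ℝ} {S T : Type}

theorem CH_prop_le (hp : IsLaw p) (A : Ω → Prop) (W : Ω → T) : CH p A W ≤ Real.log 2 := by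
  classical
  refine (CH_le_card hp.nonneg hp.sum_one A W (fun _ => {True, False}) (fun ω _ => ?_)).trans ?_
  · by_cases h : A ω
    · rw [eq_true h]
      exact Finset.mem_insert_self _ _
    · rw [eq_false h]
      exact Finset.mem_insert_of_mem (Finset.mem_singleton_self _)
  · rw [Ex_const hp.sum_one]
    refine Real.log_le_log ?_ ?_
    · exact_mod_cast Finset.card_pos.mpr ⟨True, Finset.mem_insert_self _ _⟩
    · exact_mod_cast Finset.card_le_two

open Classical in
theorem mixU (hp : IsLaw p) (A : Ω → Prop) (X : Ω → S) (Y : Ω → T) :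
    CH p X Y ≤ ∑ s ∈ univ.image A, law p A s * CH (cond p A s) X Y + Real.log 2 := by
  have h1 := CH_le_add hp.nonneg X A Y
  have h2 := CH_prop_le hp A Y
  have h3 : CH p X (fun ω => (A ω, Y ω)) = CH p X (fun ω => (Y ω, A ω)) :=
    CH_congr hp.nonneg (fun _ _ _ _ h => (Prod.ext_iff.mp h).1)
      (fun _ _ _ _ h => (Prod.ext_iff.mp h).1)
      (fun _ _ _ _ h => Prod.ext (Prod.ext_iff.mp h).2 (Prod.ext_iff.mp h).1)
      (fun _ _ _ _ h => Prod.ext (Prod.ext_iff.mp h).2 (Prod.ext_iff.mp h).1)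
  have h4 := avg_CH hp.nonneg A X Y
  linarith

open Classical in
theorem mixL (hp : IsLaw p) (A : Ω → Prop) (X : Ω → S) (Y : Ω → T) :
    ∑ s ∈ univ.image A, law p A s * CH (cond p A s) X Y ≤ CH p X Y := by
  have h1 := avg_CH hp.nonneg A X Y
  have h2 : CH p X (fun ω => (Y ω, A ω)) ≤ CH p X Y :=
    CH_mono_cond hp.nonneg (fun _ _ _ _ h => (Prod.ext_iff.mp h).1)
  linarith

theorem cond_un {σ : Type} {N : ℕ} (hN : 0 < N) (A : Ω → σ) (s : σ) :
    cond (un N p) (fun w => A w.1) s = un N (cond p A s) := by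
  funext w
  have h1 : law (un N p) (fun w => A w.1) s = law p A s := (un_psh hN p).law_eq A s
  by_cases h : A w.1 = s
  · have h2 : cond (un N p) (fun w => A w.1) s w = un N p w / law (un N p) (fun w => A w.1) s :=
      if_pos h
    have h3 : cond p A s w.1 = p w.1 / law p A s := if_pos h
    rw [h2, h1]
    show p w.1 / N / law p A s = cond p A s w.1 / N
    rw [h3]
    ring
  · have h2 : cond (un N p) (fun w => A w.1) s w = 0 := if_neg h
    have h3 : cond p A s w.1 = 0 := if_neg h
    rw [h2]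
    show 0 = cond p A s w.1 / N
    rw [h3, zero_div]

open Classical in
theorem mixUn {N : ℕ} (hN : 0 < N) (hp : IsLaw p) (A : Ω → Prop) (X : Ω × Fin N → S)
    (Y : Ω × Fin N → T) :
    CH (un N p) X Y ≤
      ∑ s ∈ univ.image A, law p A s * CH (un N (cond p A s)) X Y + Real.log 2 := by
  have h1 := mixU (un_isLaw hN hp) (fun w => A w.1) X Y
  have h2 : (univ : Finset (Ω × Fin N)).image (fun w => A w.1) = univ.image A := by
    ext s
    simp only [Finset.mem_image, Finset.mem_univ, true_and]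
    constructor
    · rintro ⟨w, hw⟩
      exact ⟨w.1, hw⟩
    · rintro ⟨ω, hω⟩
      exact ⟨(ω, ⟨0, hN⟩), hω⟩
  rw [h2] at h1
  refine h1.trans (le_of_eq ?_)
  congr 1
  refine Finset.sum_congr rfl fun s _ => ?_
  rw [cond_un hN, (un_psh hN p).law_eq A s]

open Classical in
/-- Weighted sums over the values of an event. -/
theorem mixS (hp : IsLaw p) (A : Ω → Prop) {f g : Prop → ℝ} {a b : ℝ} (ha : 0 ≤ a) (hb : 0 ≤ b)
    (hT : IsLaw (cond p A True) → f True ≤ g True + a)
    (hF : IsLaw (cond p A False) → f False ≤ g False + b) :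
    ∑ s ∈ univ.image A, law p A s * f s ≤
      ∑ s ∈ univ.image A, law p A s * g s + a + b * law p A False := by
  have h0 := hp.nonneg
  have h1 : ∀ s ∈ univ.image A, law p A s * f s ≤
      law p A s * g s + (law p A s * a + b * (if s = False then law p A False else 0)) := by
    intro s _
    have hs := law_nonneg h0 A s
    by_cases h2 : law p A s = 0
    · rw [h2]
      have h3 : 0 ≤ b * (if s = False then law p A False else 0) := by
        refine mul_nonneg hb ?_
        split_ifs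
        · exact law_nonneg h0 A _
        · exact le_rfl
      linarith
    · by_cases h3 : s
      · have h4 : s = True := eq_true h3
        subst h4
        have h5 := mul_le_mul_of_nonneg_left (hT (cond_isLaw h0 A h2)) hs
        have h6 : ((True : Prop) = False) = False := by simp
        simp only [h6, if_false]
        linarith
      · have h4 : s = False := eq_false h3
        subst h4
        have h5 := mul_le_mul_of_nonneg_left (hF (cond_isLaw h0 A h2)) hs
        have h6 : 0 ≤ law p A False * a := mul_nonneg hs ha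
        simp only [if_true]
        linarith
  refine (Finset.sum_le_sum h1).trans ?_
  rw [Finset.sum_add_distrib, Finset.sum_add_distrib, ← Finset.sum_mul, ← Finset.mul_sum]
  have h2 : ∑ s ∈ univ.image A, law p A s = 1 := by
    have := sum_law p A
    rw [hp.sum_one] at this
    exact this
  rw [h2, one_mul]
  have h3 : ∑ s ∈ univ.image A, (if s = False then law p A False else 0) ≤ law p A False := by
    refine (Finset.sum_le_sum_of_subset_of_nonneg (t := {True, False}) ?_ ?_).trans ?_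
    · intro s _
      by_cases h3 : s
      · rw [eq_true h3]
        exact Finset.mem_insert_self _ _
      · rw [eq_false h3]
        exact Finset.mem_insert_of_mem (Finset.mem_singleton_self _)
    · intro s _ _
      split_ifs
      · exact law_nonneg h0 A _
      · exact le_rfl
    · have h6 : ((True : Prop) = False) = False := by simp
      rw [Finset.sum_pair (by simp)]
      simp only [h6, if_false, if_true, zero_add]
      exact le_rfl
  have h4 := mul_le_mul_of_nonneg_left h3 hb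
  linarith

end mix

/-! ### Curves -/

variable {m e J : ℕ}

/-- The family of curves with another law. -/
noncomputable def rs (G : CFam m e J) (p' : G.Ω → ℝ) (hp' : IsLaw p') : CFam m e J where
  Ω := G.Ω
  ζ := G.ζ
  fin := G.fin
  p := p'
  c := G.c
  T := G.T
  Z := G.Z
  isLaw := hp'
  dir := G.dir
  tim := G.tim

theorem cpos_abs {c : Cf m e} {B t : ℝ} (ht : 0 ≤ t) (ht1 : t ≤ 1)
    (hB : ∀ i, |c 0 i| ≤ B) (hc : ∀ (j : Fin (e + 1)) i, |c j.succ i| ≤ 1 / 2) (i : Fin m) :
    |cpos c t i| ≤ B + (e + 1) := by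
  unfold cpos
  rw [Fin.sum_univ_succ]
  refine (abs_add_le _ _).trans (add_le_add ?_ ?_)
  · rw [Fin.val_zero, pow_zero, one_mul]
    exact hB i
  · refine (Finset.abs_sum_le_sum_abs _ _).trans ?_
    refine (Finset.sum_le_sum (g := fun _ => (1 : ℝ)) fun j _ => ?_).trans ?_
    · rw [abs_mul, abs_pow, abs_of_nonneg ht]
      have h1 : t ^ ((j.succ : Fin (e + 2)) : ℕ) ≤ 1 := pow_le_one₀ ht ht1
      have h2 := hc j i
      have h3 : 0 ≤ t ^ ((j.succ : Fin (e + 2)) : ℕ) := by positivity
      calc _ ≤ (1 : ℝ) * |c j.succ i| := mul_le_mul_of_nonneg_right h1 (abs_nonneg _)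
        _ ≤ 1 := by linarith
    · rw [Finset.sum_const, Finset.card_univ, Fintype.card_fin, nsmul_eq_mul]
      push_cast
      linarith

/-- The trivial bound for the information of the filled family. -/
theorem fill_triv (G : CFam m e J) {B : ℝ} (hB0 : 0 ≤ B) (hB : ∀ ω i, |G.c ω 0 i| ≤ B) :
    G.fill.Vf ≤ m * (J * Real.log 2 + Real.log (4 * (B + (e + 1)) + 3)) := by
  have hN := Pool.FTM.two_pos J
  have hl := un_isLaw hN G.isLaw
  have h1 : CH G.fill.p G.fill.T (fun a => (G.fill.c a, G.fill.Z a)) = J * Real.log 2 := by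
    have h2 := CH_un_snd hN G.isLaw (fun ω => (G.c ω, G.Z ω))
    rw [← Pool.FTM.log_two_pow J, ← h2]
    refine CH_congr hl.nonneg ?_ ?_ (fun _ _ _ _ h => h) (fun _ _ _ _ h => h)
    · intro a b _ _ h
      exact Fin.ext (Prod.ext_iff.mp h).1
    · intro a b _ _ h
      show (a.2 : ℕ) = (b.2 : ℕ)
      rw [show a.2 = b.2 from (Prod.ext_iff.mp h).1]
  have h3 : CH G.fill.p G.fill.T G.fill.Z ≤ J * Real.log 2 := by
    refine (CH_le_card hl.nonneg hl.sum_one _ _ (fun _ => Finset.range (2 ^ J))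
      (fun a _ => Finset.mem_range.mpr a.2.isLt)).trans ?_
    rw [Ex_const hl.sum_one, Finset.card_range, Pool.FTM.log_two_pow]
  have h4 : CH G.fill.p (fun a => (G.fill.X a, G.fill.T a)) G.fill.Z =
      CH G.fill.p G.fill.T G.fill.Z + CH G.fill.p G.fill.X (fun a => (G.fill.T a, G.fill.Z a)) :=
    CH_chain hl.nonneg G.fill.X G.fill.T G.fill.Z
  have h5 : CH G.fill.p G.fill.X (fun a => (G.fill.T a, G.fill.Z a)) ≤
      m * (J * Real.log 2 + Real.log (4 * (B + (e + 1)) + 3)) := by
    have h6 := CH_le_vec hl.nonneg hl.sum_one G.fill.X (fun a => (G.fill.T a, G.fill.Z a))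
      (fun _ => 2 ^ J * (2 * (B + (e + 1)) + 1)) (by
        intro a b _ _ _ i
        have k1 : ∀ a : G.fill.Ω, |cpos (G.fill.c a) (G.fill.t a) i| ≤ B + (e + 1) := by
          intro a
          refine cpos_abs (div_nonneg (Nat.cast_nonneg _) (by positivity)) ?_
            (fun i => hB a.1 i) (fun j i => G.dir a.1 j i) i
          rw [div_le_one (by positivity)]
          exact_mod_cast (G.fill.tim a).le
        have k2 := k1 a
        have k3 := k1 b
        have k4 : ∀ a : G.fill.Ω, ((G.fill.X a i : ℤ) : ℝ) ≤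
            2 ^ J * cpos (G.fill.c a) (G.fill.t a) i ∧
            2 ^ J * cpos (G.fill.c a) (G.fill.t a) i < (G.fill.X a i : ℤ) + 1 := fun a =>
          ⟨Int.floor_le _, Int.lt_floor_add_one _⟩
        obtain ⟨a1, a2⟩ := k4 a
        obtain ⟨b1, b2⟩ := k4 b
        rw [abs_le] at k2 k3
        have p1 : (1 : ℝ) ≤ 2 ^ J := one_le_pow₀ (by norm_num)
        have q1 := mul_le_mul_of_nonneg_left k2.2 (by positivity : (0 : ℝ) ≤ 2 ^ J)
        have q2 := mul_le_mul_of_nonneg_left k2.1 (by positivity : (0 : ℝ) ≤ 2 ^ J)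
        have q3 := mul_le_mul_of_nonneg_left k3.2 (by positivity : (0 : ℝ) ≤ 2 ^ J)
        have q4 := mul_le_mul_of_nonneg_left k3.1 (by positivity : (0 : ℝ) ≤ 2 ^ J)
        push_cast
        rw [abs_le]
        constructor <;> nlinarith)
    refine h6.trans ?_
    rw [Ex_const hl.sum_one]
    refine mul_le_mul_of_nonneg_left ?_ (Nat.cast_nonneg _)
    have p1 : (1 : ℝ) ≤ 2 ^ J := one_le_pow₀ (by norm_num)
    have k1 : 2 * (2 ^ J * (2 * (B + (e + 1)) + 1)) + 1 ≤ (2 : ℝ) ^ J * (4 * (B + (e + 1)) + 3) := by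
      nlinarith
    have k2 : 0 < 4 * (B + (e + 1)) + 3 := by positivity
    refine (Real.log_le_log (by positivity) k1).trans (le_of_eq ?_)
    rw [Real.log_mul (by positivity) k2.ne', Real.log_pow]
  unfold CFam.Vf
  linarith

theorem Vf_nonneg (G : CFam m e J) : 0 ≤ G.Vf := by
  have h0 := G.isLaw.nonneg
  have h1 := CH_mono_left h0 (X' := fun ω => (G.X ω, G.T ω)) (X := G.T) (W := G.Z)
    (fun _ _ _ _ h => (Prod.ext_iff.mp (Prod.ext_iff.mp h).1).2)
  have h2 := CH_mono_cond h0 (X := G.T) (W' := fun ω => (G.c ω, G.Z ω)) (W := G.Z)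
    (fun _ _ _ _ h => (Prod.ext_iff.mp h).2)
  unfold CFam.Vf
  linarith

/-- **Filling the times of curves with live times, in the mean.** -/
theorem vvs_tg (h : VVSC m e) (B : ℝ) (hB0 : 0 ≤ B) : ∀ ε : ℝ, 0 < ε → ∃ η : ℝ, 0 < η ∧ ∀ K : ℕ,
    ∃ θ : ℝ, 0 < θ ∧ ∃ J₀ : ℕ, ∀ J ≥ J₀, ∀ G : CFam m e J, (∀ ω i, |G.c ω 0 i| ≤ B) →
    G.TG False K η 0 (η * J) (θ * J) → G.fill.Vf ≤ G.Vf + ε * J := by
  classical
  intro ε hε
  obtain ⟨η, hη, h1⟩ := h (ε / 4) (by linarith)
  refine ⟨η, hη, fun K => ?_⟩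
  obtain ⟨θ, hθ, J₀, h2⟩ := h1 K
  obtain ⟨δ, hδ⟩ : ∃ δ, δ = ε / (12 * (m + 1)) := ⟨_, rfl⟩
  have hδ0 : 0 < δ := by
    rw [hδ]
    positivity
  obtain ⟨J₁, hJ₁⟩ := exists_nat_ge ((2 * (1 / δ + Real.log 2)) / θ)
  obtain ⟨J₂, hJ₂⟩ := exists_nat_ge ((8 * Real.log 2 + 4 * (m * Real.log (4 * (B + (e + 1)) + 3))) / ε)
  refine ⟨θ * δ / 2, by positivity, max J₀ (max J₁ J₂), fun J hJ G hB hG => ?_⟩
  obtain ⟨μ, hK, -, hL, hkl⟩ := hG
  have hJ0 : J₀ ≤ J := (le_max_left _ _).trans hJ
  have hJ1 : (J₁ : ℝ) ≤ J := by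
    exact_mod_cast (le_max_left _ _).trans ((le_max_right _ _).trans hJ)
  have hJ2 : (J₂ : ℝ) ≤ J := by
    exact_mod_cast (le_max_right _ _).trans ((le_max_right _ _).trans hJ)
  have hJn : (0 : ℝ) ≤ J := Nat.cast_nonneg _
  have hp := G.isLaw
  obtain ⟨A, hA1, hA2⟩ := dex hp G.T (fun w => (G.c w, G.Z w)) μ G.tim hK.nonneg hK.sum hK.pos
    hK.det (e := θ * δ / 2 * J) (by positivity) hδ0 hkl
  -- the good part
  have hTrue : ∀ hc : IsLaw (cond G.p A True), (rs G _ hc).fill.Vf ≤ (rs G _ hc).Vf + ε / 4 * J := by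
    intro hc
    refine h2 J hJ0 (rs G _ hc) ⟨μ, ⟨hK.nonneg, hK.sum, ?_, ?_⟩, fun h => h.elim, ?_, ?_⟩
    · intro ω hω
      exact hK.pos ω ((cond_pos_iff hp.nonneg A True ω).1 hω).1
    · intro ω ω' hω hω'
      exact hK.det ω ω' ((cond_pos_iff hp.nonneg A True ω).1 hω).1
        ((cond_pos_iff hp.nonneg A True ω').1 hω').1
    · intro ω hω
      exact hL ω ((cond_pos_iff hp.nonneg A True ω).1 hω).1
    · intro ω hω
      obtain ⟨k1, k2⟩ := (cond_pos_iff hp.nonneg A True ω).1 hω
      refine (hA2 ω k1 (of_eq_true k2)).trans ?_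
      refine mul_le_mul_of_nonneg_right ?_ (hK.nonneg _ _)
      refine Real.exp_le_exp.mpr ?_
      have h3 : (2 * (1 / δ + Real.log 2)) ≤ θ * J := by
        have h4 := hJ₁.trans hJ1
        rw [div_le_iff₀ hθ] at h4
        linarith only [h4]
      have h5 : (θ * δ / 2 * J + 1) / δ = θ / 2 * J + 1 / δ := by
        field_simp
      rw [h5]
      linarith only [h3]
  -- the bad part
  obtain ⟨b, hb⟩ : ∃ b, b = m * (J * Real.log 2 + Real.log (4 * (B + (e + 1)) + 3)) := ⟨_, rfl⟩
  have hlog : 0 ≤ Real.log (4 * (B + (e + 1)) + 3) := Real.log_nonneg (by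
    have : (0 : ℝ) ≤ e := Nat.cast_nonneg _
    linarith)
  have hb0 : 0 ≤ b := by
    rw [hb]
    positivity
  have hFalse : ∀ hc : IsLaw (cond G.p A False), (rs G _ hc).fill.Vf ≤ (rs G _ hc).Vf + b := by
    intro hc
    have h3 := fill_triv (rs G _ hc) hB0 hB
    rw [← hb] at h3
    have h4 := Vf_nonneg (rs G _ hc)
    linarith
  -- the mixture
  have hN := Pool.FTM.two_pos J
  obtain ⟨XT, hXT⟩ : ∃ XT : G.Ω × Fin (2 ^ J) → (Fin m → ℤ) × ℕ,
      XT = fun a => (G.fill.X a, G.fill.T a) := ⟨_, rfl⟩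
  obtain ⟨ZZ, hZZ⟩ : ∃ ZZ : G.Ω × Fin (2 ^ J) → G.ζ, ZZ = fun a => G.Z a.1 := ⟨_, rfl⟩
  have e1 : G.fill.Vf = CH (un (2 ^ J) G.p) XT ZZ - J * Real.log 2 := by
    rw [hXT, hZZ]
    have h2 := CH_un_snd hN G.isLaw (fun ω => (G.c ω, G.Z ω))
    unfold CFam.Vf
    rw [← Pool.FTM.log_two_pow J, ← h2]
    congr 1
    refine CH_congr (un_isLaw hN hp).nonneg ?_ ?_ (fun _ _ _ _ h => h) (fun _ _ _ _ h => h)
    · intro a b _ _ h
      exact Fin.ext (Prod.ext_iff.mp h).1
    · intro a b _ _ h
      show (a.2 : ℕ) = (b.2 : ℕ)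
      rw [show a.2 = b.2 from (Prod.ext_iff.mp h).1]
  have e2 := mixUn hN hp A XT ZZ
  have e3 := mixL hp A (fun ω => (G.X ω, G.T ω)) G.Z
  have e4 := mixU hp A G.T (fun ω => (G.c ω, G.Z ω))
  have e5 := mixS hp A (f := fun s => CH (un (2 ^ J) (cond G.p A s)) XT ZZ - J * Real.log 2)
    (g := fun s => CH (cond G.p A s) (fun ω => (G.X ω, G.T ω)) G.Z -
      CH (cond G.p A s) G.T (fun ω => (G.c ω, G.Z ω))) (a := ε / 4 * J) (b := b)
    (by positivity) hb0
    (by
      intro hc
      have h3 := hTrue hc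
      have h2 := CH_un_snd hN hc (fun ω => (G.c ω, G.Z ω))
      have h4 : (rs G _ hc).fill.Vf = CH (un (2 ^ J) (cond G.p A True)) XT ZZ -
          J * Real.log 2 := by
        rw [hXT, hZZ]
        unfold CFam.Vf
        rw [← Pool.FTM.log_two_pow J, ← h2]
        congr 1
        refine CH_congr (un_isLaw hN hc).nonneg ?_ ?_ (fun _ _ _ _ h => h) (fun _ _ _ _ h => h)
        · intro a b _ _ h
          exact Fin.ext (Prod.ext_iff.mp h).1
        · intro a b _ _ h
          show (a.2 : ℕ) = (b.2 : ℕ)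
          rw [show a.2 = b.2 from (Prod.ext_iff.mp h).1]
      rw [h4] at h3
      exact h3)
    (by
      intro hc
      have h3 := hFalse hc
      have h2 := CH_un_snd hN hc (fun ω => (G.c ω, G.Z ω))
      have h4 : (rs G _ hc).fill.Vf = CH (un (2 ^ J) (cond G.p A False)) XT ZZ -
          J * Real.log 2 := by
        rw [hXT, hZZ]
        unfold CFam.Vf
        rw [← Pool.FTM.log_two_pow J, ← h2]
        congr 1
        refine CH_congr (un_isLaw hN hc).nonneg ?_ ?_ (fun _ _ _ _ h => h) (fun _ _ _ _ h => h)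
        · intro a b _ _ h
          exact Fin.ext (Prod.ext_iff.mp h).1
        · intro a b _ _ h
          show (a.2 : ℕ) = (b.2 : ℕ)
          rw [show a.2 = b.2 from (Prod.ext_iff.mp h).1]
      rw [h4] at h3
      exact h3)
  have hs1 : ∑ s ∈ univ.image A, law G.p A s = 1 := by
    have := sum_law G.p A
    rw [hp.sum_one] at this
    exact this
  simp only [mul_sub, Finset.sum_sub_distrib] at e5
  rw [← Finset.sum_mul, hs1, one_mul] at e5
  -- the probability of the bad part
  have hPF : law G.p A False ≤ 3 * δ := by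
    have h3 := pr_add hp A
    have h4 : law G.p A False = pr G.p (fun ω => ¬ A ω) := by
      rw [pr_eq]
      unfold law
      refine Finset.sum_congr rfl fun ω _ => ?_
      by_cases h : A ω
      · rw [if_neg (fun h1 => by rw [h1] at h; exact h), if_neg (not_not.mpr h)]
      · rw [if_pos (eq_false h), if_pos h]
    rw [h4]
    linarith
  have hlogn : 0 ≤ Real.log 2 := Real.log_nonneg (by norm_num)
  have hl2 : Real.log 2 ≤ 1 := (Real.log_le_sub_one_of_pos (by norm_num)).trans (by norm_num)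
  have hbP : b * law G.p A False ≤ ε / 4 * J + m * Real.log (4 * (B + (e + 1)) + 3) := by
    have h3 : law G.p A False ≤ 1 := by
      have h4 := pr_add hp A
      have h5 := pr_nonneg hp.nonneg A
      have h6 : law G.p A False = pr G.p (fun ω => ¬ A ω) := by
        rw [pr_eq]
        unfold law
        refine Finset.sum_congr rfl fun ω _ => ?_
        by_cases h : A ω
        · rw [if_neg (fun h1 => by rw [h1] at h; exact h), if_neg (not_not.mpr h)]
        · rw [if_pos (eq_false h), if_pos h]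
      rw [h6]
      linarith
    have h7 := law_nonneg hp.nonneg A False
    have h8 : b * law G.p A False = (m * (J * Real.log 2)) * law G.p A False +
        m * Real.log (4 * (B + (e + 1)) + 3) * law G.p A False := by
      rw [hb]
      ring
    have h9 : (m * (J * Real.log 2)) * law G.p A False ≤ (m * (J * Real.log 2)) * (3 * δ) :=
      mul_le_mul_of_nonneg_left hPF (by positivity)
    have h10 : m * Real.log (4 * (B + (e + 1)) + 3) * law G.p A False ≤
        m * Real.log (4 * (B + (e + 1)) + 3) * 1 :=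
      mul_le_mul_of_nonneg_left h3 (by positivity)
    have h11 : (m * (J * Real.log 2)) * (3 * δ) ≤ ε / 4 * J := by
      have h12 : 3 * δ * m ≤ ε / 4 := by
        rw [hδ]
        have h13 : (0 : ℝ) ≤ m := Nat.cast_nonneg _
        rw [show 3 * (ε / (12 * ((m : ℝ) + 1))) * m = (ε / 4) * (m / (m + 1)) by
          field_simp
          ring]
        refine mul_le_of_le_one_right (by linarith) ?_
        rw [div_le_one (by linarith)]
        linarith
      have h14 : (m * (J * Real.log 2)) * (3 * δ) = (3 * δ * m) * (J * Real.log 2) := by ring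
      rw [h14]
      calc (3 * δ * m) * (J * Real.log 2) ≤ ε / 4 * (J * Real.log 2) :=
            mul_le_mul_of_nonneg_right h12 (by positivity)
        _ ≤ ε / 4 * (J * 1) := by
            refine mul_le_mul_of_nonneg_left ?_ (by linarith)
            exact mul_le_mul_of_nonneg_left hl2 hJn
        _ = ε / 4 * J := by ring
    linarith
  have hfin : 8 * Real.log 2 + 4 * (m * Real.log (4 * (B + (e + 1)) + 3)) ≤ ε * J := by
    have h4 := hJ₂.trans hJ2
    rw [div_le_iff₀ hε] at h4
    linarith only [h4]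
  have hV : G.Vf = CH G.p (fun ω => (G.X ω, G.T ω)) G.Z - CH G.p G.T (fun ω => (G.c ω, G.Z ω)) := rfl
  have hεJ : 0 ≤ ε * J := by positivity
  rw [e1, hV]
  linarith

end Pool.LVB
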